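import Mathlib

/-!
# MP_55e6de_ag NG, module Sl2: operators on a finite-dimensional complex space with the relations of `sl₂`

* `nil_of_comm`: if `A` were not nilpotent, then all `A ^ k` (`k : ℕ`) would be nonzero
  eigenvectors of `Z ↦ W Z - Z W` on the finite-dimensional space `End M` with the different
  eigenvalues `k c` (`Module.End.eigenvectors_linearIndependent'`).
* `prim`: `E F^(i+1) v = (i+1) (l - i) F^i v` by induction; `F` is nilpotent by `nil_of_comm`; take
  `m` with `F^m v ≠ 0`, `F^(m+1) v = 0`: then `l = m`.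
-/

set_option autoImplicit false

noncomputable section

namespace Pool.Agent.MP_55e6de_ag

variable {M : Type*} [AddCommGroup M] [Module ℂ M] [FiniteDimensional ℂ M]

theorem nil_of_comm (W A : Module.End ℂ M) (c : ℂ) (hc : c ≠ 0)
    (h : W * A - A * W = c • A) : IsNilpotent A := by
  by_contra hn
  have hk : ∀ k : ℕ, A ^ k ≠ 0 := fun k hk => hn ⟨k, hk⟩
  have key : ∀ k : ℕ, W * A ^ k - A ^ k * W = ((k : ℂ) * c) • A ^ k := by
    intro k
    induction k with
    | zero => simp
    | succ k ih =>
      have h1 : W * A ^ (k + 1) - A ^ (k + 1) * W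
          = (W * A ^ k - A ^ k * W) * A + A ^ k * (W * A - A * W) := by
        rw [pow_succ]; noncomm_ring
      rw [h1, ih, h, smul_mul_assoc, mul_smul_comm, ← pow_succ, ← add_smul]
      congr 1
      push_cast
      ring
  have hli := Module.End.eigenvectors_linearIndependent'
    (LinearMap.mulLeft ℂ W - LinearMap.mulRight ℂ W : Module.End ℂ (Module.End ℂ M))
    (fun k : ℕ => (k : ℂ) * c)
    (fun a b hab => by
      have := mul_right_cancel₀ hc hab
      exact_mod_cast this)
    (fun k : ℕ => A ^ k)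
    (fun k => by
      refine ⟨?_, hk k⟩
      rw [Module.End.mem_eigenspace_iff]
      simpa using key k)
  have := hli.finite_of_isNoetherian
  exact not_finite ℕ

/-- the relations of `sl₂` -/
structure Sl2 (E F K : Module.End ℂ M) : Prop where
  ef : E * F - F * E = K
  ke : K * E - E * K = (2 : ℂ) • E
  kf : K * F - F * K = -((2 : ℂ) • F)

namespace Sl2

variable {E F K : Module.End ℂ M}

theorem symm (h : Sl2 E F K) : Sl2 F E (-K) := by
  refine ⟨?_, ?_, ?_⟩
  · rw [← h.ef]; noncomm_ring
  · rw [neg_mul, mul_neg, sub_neg_eq_add, neg_add_eq_sub, ← neg_sub, h.kf, neg_neg]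
  · rw [neg_mul, mul_neg, sub_neg_eq_add, neg_add_eq_sub, ← neg_sub, h.ke]

theorem prim (h : Sl2 E F K) (v : M) (hv : v ≠ 0) (hE : E v = 0) (l : ℂ) (hK : K v = l • v) :
    ∃ m : ℕ, l = m ∧ ∀ i ≤ m, (F ^ i) v ≠ 0 := by
  have hKF : ∀ i : ℕ, K ((F ^ i) v) = (l - 2 * (i : ℂ)) • (F ^ i) v := by
    intro i
    induction i with
    | zero => simpa using hK
    | succ i ih =>
      have h1 := LinearMap.congr_fun h.kf ((F ^ i) v)
      simp only [LinearMap.sub_apply, Module.End.mul_apply, LinearMap.neg_apply,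
        LinearMap.smul_apply] at h1
      rw [sub_eq_iff_eq_add, ih, map_smul] at h1
      rw [pow_succ', Module.End.mul_apply, h1]
      push_cast
      module
  have hEF : ∀ i : ℕ, E ((F ^ (i + 1)) v) = (((i : ℂ) + 1) * (l - i)) • (F ^ i) v := by
    intro i
    induction i with
    | zero =>
      have h1 := LinearMap.congr_fun h.ef v
      simp only [LinearMap.sub_apply, Module.End.mul_apply] at h1
      rw [hE, map_zero, sub_zero, hK] at h1
      simp [h1]
    | succ i ih =>
      have h1 := LinearMap.congr_fun h.ef ((F ^ (i + 1)) v)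
      simp only [LinearMap.sub_apply, Module.End.mul_apply] at h1
      rw [sub_eq_iff_eq_add, ih, map_smul, hKF] at h1
      have h2 : F ((F ^ i) v) = (F ^ (i + 1)) v := by rw [pow_succ', Module.End.mul_apply]
      rw [h2] at h1
      have h3 : (F ^ (i + 1 + 1)) v = F ((F ^ (i + 1)) v) := by
        rw [pow_succ', Module.End.mul_apply]
      rw [h3, h1]
      push_cast
      module
  obtain ⟨N, hN⟩ := nil_of_comm K F (-2) (by norm_num) (by rw [h.kf, neg_smul])
  have hex : ∃ n : ℕ, (F ^ n) v = 0 := ⟨N, by rw [hN, LinearMap.zero_apply]⟩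
  classical
  have h0 := Nat.find_spec hex
  obtain ⟨m, hm⟩ : ∃ m, Nat.find hex = m + 1 := by
    refine Nat.exists_eq_succ_of_ne_zero fun h00 => ?_
    rw [h00] at h0
    exact hv (by simpa using h0)
  have hne : ∀ i ≤ m, (F ^ i) v ≠ 0 := fun i hi => Nat.find_min hex (by omega)
  refine ⟨m, ?_, hne⟩
  rw [hm] at h0
  have h1 := hEF m
  rw [h0, map_zero] at h1
  rcases smul_eq_zero.mp h1.symm with h2 | h2
  · rcases mul_eq_zero.mp h2 with h3 | h3
    · exfalso
      have : ((m + 1 : ℕ) : ℂ) = 0 := by exact_mod_cast h3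
      exact Nat.cast_ne_zero.mpr (Nat.succ_ne_zero m) this
    · exact sub_eq_zero.mp h3
  · exact absurd h2 (hne m le_rfl)

end Sl2

end Pool.Agent.MP_55e6de_ag
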