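import Mathlib
import Pool.Agent.Lib.MP_55e6de_ag.Sl2

/-!
# MP_55e6de_ag NG, module Cj: `W` and `W + A` are conjugate if `[A, W] = A`

`A` is nilpotent (`nil_of_comm`, `c = -1`). `A^k W = W A^k + k A^k`, so for
`G = exp A = ∑ A^k / k!` (finite sum; `IsNilpotent.exp`): `G W = W G + A G = (W + A) G`. `G` is a
unit and everything which commutes with `A` commutes with `G`.
-/

set_option autoImplicit false

noncomputable section

namespace Pool.Agent.MP_55e6de_ag

variable {M : Type*} [AddCommGroup M] [Module ℂ M] [FiniteDimensional ℂ M]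

theorem conj_of_comm (W A : Module.End ℂ M) (h : A * W - W * A = A) :
    ∃ G G' : Module.End ℂ M, G * G' = 1 ∧ G' * G = 1 ∧ G * W = (W + A) * G ∧
      ∀ Z : Module.End ℂ M, Z * A = A * Z → Z * G = G * Z := by
  letI : Module ℚ (Module.End ℂ M) := Module.compHom _ (algebraMap ℚ ℂ)
  have hsm : ∀ (c : ℚ) (Z : Module.End ℂ M), c • Z = (algebraMap ℚ ℂ c) • Z := fun _ _ => rfl
  have hnil : IsNilpotent A := by
    apply nil_of_comm W A (-1) (by norm_num)
    rw [← neg_sub, h, neg_smul, one_smul]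
  obtain ⟨n, hn⟩ := hnil
  have hn1 : A ^ (n + 1) = 0 := by rw [pow_succ, hn, zero_mul]
  have hk : ∀ k : ℕ, A ^ k * W = W * A ^ k + (k : ℂ) • A ^ k := by
    intro k
    induction k with
    | zero => simp
    | succ k ih =>
      have h1 : A * W = W * A + A := by rw [← sub_eq_iff_eq_add', h]
      rw [pow_succ', mul_assoc, ih, mul_add, ← mul_assoc, h1, add_mul, mul_smul_comm, mul_assoc]
      push_cast
      rw [add_smul, one_smul]
      abel
  refine ⟨IsNilpotent.exp A, IsNilpotent.exp (-A), IsNilpotent.exp_mul_exp_neg_self ⟨n, hn⟩,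
    IsNilpotent.exp_neg_mul_exp_self ⟨n, hn⟩, ?_, ?_⟩
  · have h2 : A * IsNilpotent.exp A =
        ∑ k ∈ Finset.range (n + 1), (algebraMap ℚ ℂ (k.factorial : ℚ)⁻¹) • (k : ℂ) • A ^ k := by
      rw [Finset.sum_range_succ', IsNilpotent.exp_eq_sum hn, Finset.mul_sum]
      simp only [hsm, mul_smul_comm, Nat.cast_zero, zero_smul, smul_zero, add_zero, ← pow_succ']
      refine Finset.sum_congr rfl fun k _ => ?_
      rw [smul_smul]
      congr 1
      have h3 : ((k : ℂ) + 1) ≠ 0 := by exact_mod_cast Nat.succ_ne_zero k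
      have h4 : ((k.factorial : ℕ) : ℂ) ≠ 0 := by exact_mod_cast k.factorial_ne_zero
      rw [Nat.factorial_succ]
      simp only [map_inv₀, map_natCast]
      push_cast
      field_simp
    rw [add_mul, h2, IsNilpotent.exp_eq_sum hn1, Finset.sum_mul, Finset.mul_sum,
      ← Finset.sum_add_distrib]
    refine Finset.sum_congr rfl fun k _ => ?_
    rw [hsm, smul_mul_assoc, hk k, smul_add, mul_smul_comm]
  · intro Z hZ
    rw [IsNilpotent.exp_eq_sum hn, Finset.mul_sum, Finset.sum_mul]
    refine Finset.sum_congr rfl fun k _ => ?_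
    have h5 : Commute Z A := hZ
    rw [hsm, mul_smul_comm, smul_mul_assoc, (h5.pow_right k).eq]

end Pool.Agent.MP_55e6de_ag
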