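import Mathlib
import Pool.Agent.Lib.MP_55e6de_ag.Sl2

/-!
# MP_55e6de_ag NG, module Sl2W: Weyl reflections of eigenvectors

* `weyl`: `E` is nilpotent (`nil_of_comm`), take `s` with `u := E^s v ≠ 0`, `E u = 0`; `K u = (l +
  2 s) u`, by `prim` `l + 2 s = m` is a natural number and `F^i u ≠ 0` for `i ≤ m`. If `s ≤ m` put
  `v' = F^(m - s) u`: `K v' = (m - 2 (m - s)) v' = - l v'` and `T i v' = (x i + s c i - (m - s) c i)
  v' = (x i - l c i) v'`. If `s > m`, then `l = m - 2 s < 0`; do the same with `E`, `F` exchanged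
  (`Sl2.symm`, `-K`, `-c`, `-l`): then `- l + 2 s' = m'` with `s' < m'` automatically.
* `big`: `⨆ l, maxGenEigenspace K l = ⊤`, so there is `l` and `x` in the generalised eigenspace of
  `K` for `l` with `E^m x ≠ 0`; `E^m x` is in the generalised eigenspace for `l + 2 m`. So `l` and
  `l + 2 m` are eigenvalues of `K`; they are integers and `- l` is an eigenvalue, too (`weyl` with
  empty `ι`). One of `l + 2 m` and `- l` is `≥ m`.
-/

set_option autoImplicit false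

noncomputable section

namespace Pool.Agent.MP_55e6de_ag

variable {M : Type*} [AddCommGroup M] [Module ℂ M] [FiniteDimensional ℂ M]

namespace Sl2

omit [FiniteDimensional ℂ M] in
/-- powers of a shift operator applied to an eigenvector -/
private theorem pw {W A : Module.End ℂ M} {d : ℂ} (h : W * A - A * W = d • A) {v : M} {a : ℂ}
    (hv : W v = a • v) (n : ℕ) : W ((A ^ n) v) = (a + n * d) • (A ^ n) v := by
  induction n with
  | zero => simp [hv]
  | succ n ih =>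
    have h1 : W (A ((A ^ n) v)) = A (W ((A ^ n) v)) + d • A ((A ^ n) v) := by
      have h2 := congrArg (fun f : Module.End ℂ M => f ((A ^ n) v)) h
      simp only [LinearMap.sub_apply, Module.End.mul_apply, LinearMap.smul_apply] at h2
      rw [← h2]
      abel
    have h3 : (A ^ (n + 1)) v = A ((A ^ n) v) := by rw [pow_succ', Module.End.mul_apply]
    rw [h3, h1, ih, map_smul, ← add_smul]
    congr 1
    push_cast
    ring

omit [FiniteDimensional ℂ M] in
/-- the last nonzero power -/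
private theorem last {A : Module.End ℂ M} {v : M} (hv : v ≠ 0) (k : ℕ) (hk : (A ^ k) v = 0) :
    ∃ s : ℕ, (A ^ s) v ≠ 0 ∧ A ((A ^ s) v) = 0 := by
  induction k with
  | zero => exact absurd (by simpa using hk) hv
  | succ k ih =>
    by_cases h : (A ^ k) v = 0
    · exact ih h
    · refine ⟨k, h, ?_⟩
      rw [pow_succ', Module.End.mul_apply] at hk
      exact hk

variable {E F K : Module.End ℂ M}

private theorem aux {ι : Type*} (h : Sl2 E F K) (T : ι → Module.End ℂ M) (c : ι → ℂ)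
    (hTE : ∀ i, T i * E - E * T i = c i • E) (hTF : ∀ i, T i * F - F * T i = -(c i • F))
    (x : ι → ℂ) (v : M) (hv : v ≠ 0) (hT : ∀ i, T i v = x i • v) (l : ℂ) (hK : K v = l • v) :
    ∃ s m : ℕ, l + 2 * s = m ∧ (s ≤ m → ∃ v' : M, v' ≠ 0 ∧ K v' = (-l) • v' ∧
      ∀ i, T i v' = (x i - l * c i) • v') := by
  obtain ⟨N, hN⟩ := nil_of_comm K E 2 two_ne_zero h.ke
  obtain ⟨s, hs, hs'⟩ := last hv N (by rw [hN]; rfl)
  have hKu : K ((E ^ s) v) = (l + s * 2) • (E ^ s) v := pw h.ke hK s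
  obtain ⟨m, hm, hm'⟩ := h.prim _ hs hs' _ hKu
  refine ⟨s, m, by rw [← hm]; ring, fun hsm => ⟨(F ^ (m - s)) ((E ^ s) v), ?_, ?_, ?_⟩⟩
  · exact hm' _ (Nat.sub_le _ _)
  · have h1 : K * F - F * K = (-2 : ℂ) • F := by rw [h.kf, neg_smul]
    rw [pw h1 hKu (m - s)]
    congr 1
    rw [Nat.cast_sub hsm, ← hm]
    ring
  · intro i
    have h1 : T i * F - F * T i = (-c i) • F := by rw [hTF, neg_smul]
    rw [pw h1 (pw (hTE i) (hT i) s) (m - s)]
    congr 1
    rw [Nat.cast_sub hsm, ← hm]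
    ring

theorem weyl {ι : Type*} (h : Sl2 E F K) (T : ι → Module.End ℂ M) (c : ι → ℂ)
    (hTE : ∀ i, T i * E - E * T i = c i • E) (hTF : ∀ i, T i * F - F * T i = -(c i • F))
    (x : ι → ℂ) (v : M) (hv : v ≠ 0) (hT : ∀ i, T i v = x i • v) (l : ℂ) (hK : K v = l • v) :
    (∃ z : ℤ, l = z) ∧ ∃ v' : M, v' ≠ 0 ∧ K v' = (-l) • v' ∧
      ∀ i, T i v' = (x i - l * c i) • v' := by
  obtain ⟨s, m, hsm, h1⟩ := aux h T c hTE hTF x v hv hT l hK
  have hl : l = (m : ℂ) - 2 * s := by rw [← hsm]; ring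
  refine ⟨⟨(m : ℤ) - 2 * s, by rw [hl]; push_cast; ring⟩, ?_⟩
  by_cases hs : s ≤ m
  · exact h1 hs
  push Not at hs
  have hK' : (-K) v = (-l) • v := by rw [LinearMap.neg_apply, hK, neg_smul]
  have hTE' : ∀ i, T i * F - F * T i = (-c i) • F := fun i => by rw [hTF, neg_smul]
  have hTF' : ∀ i, T i * E - E * T i = -((-c i) • E) := fun i => by
    rw [hTE, neg_smul, neg_neg]
  obtain ⟨s', m', hsm', h2⟩ := aux h.symm T (fun i => -c i) hTE' hTF' x v hv hT (-l) hK'
  have h3 : ((2 * s + 2 * s' : ℕ) : ℂ) = ((m' + m : ℕ) : ℂ) := by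
    push_cast
    rw [← hsm', hl]
    ring
  have h4 : 2 * s + 2 * s' = m' + m := by exact_mod_cast h3
  obtain ⟨v', hv', h5, h6⟩ := h2 (by omega)
  refine ⟨v', hv', ?_, fun i => ?_⟩
  · rw [LinearMap.neg_apply, neg_neg] at h5
    rw [neg_smul, ← h5, neg_neg]
  · rw [h6]
    congr 1
    ring

omit [FiniteDimensional ℂ M] in
private theorem shift (h : Sl2 E F K) (l : ℂ) (x : M) (k : ℕ)
    (hx : ((K - l • (1 : Module.End ℂ M)) ^ k) x = 0) (m : ℕ) :
    ((K - (l + 2 * m) • (1 : Module.End ℂ M)) ^ k) ((E ^ m) x) = 0 := by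
  have h1 : ∀ μ : ℂ, (K - (μ + 2) • (1 : Module.End ℂ M)) * E =
      E * (K - μ • (1 : Module.End ℂ M)) := by
    intro μ
    have h2 := h.ke
    rw [sub_mul, mul_sub, smul_mul_assoc, one_mul, mul_smul_comm, mul_one, add_smul, ← h2]
    abel
  have h3 : ∀ (μ : ℂ) (n : ℕ), (K - (μ + 2) • (1 : Module.End ℂ M)) ^ n * E =
      E * (K - μ • (1 : Module.End ℂ M)) ^ n := by
    intro μ n
    induction n with
    | zero => rw [pow_zero, pow_zero, one_mul, mul_one]
    | succ n ih => rw [pow_succ, mul_assoc, h1, ← mul_assoc, ih, mul_assoc, ← pow_succ]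
  induction m with
  | zero => simpa using hx
  | succ m ih =>
    have h4 : (E ^ (m + 1)) x = E ((E ^ m) x) := by rw [pow_succ', Module.End.mul_apply]
    have h5 := congrArg (fun f : Module.End ℂ M => f ((E ^ m) x)) (h3 (l + 2 * m) k)
    simp only [Module.End.mul_apply] at h5
    have h6 : l + 2 * ((m + 1 : ℕ) : ℂ) = l + 2 * m + 2 := by push_cast; ring
    rw [h4, h6, h5, ih, map_zero]

omit [FiniteDimensional ℂ M] in
private theorem ev {W : Module.End ℂ M} {μ : ℂ} {w : M} (hw : w ≠ 0) (k : ℕ)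
    (hk : ((W - μ • (1 : Module.End ℂ M)) ^ k) w = 0) : ∃ u : M, u ≠ 0 ∧ W u = μ • u := by
  obtain ⟨s, hs, hs'⟩ := last hw k hk
  refine ⟨_, hs, ?_⟩
  rw [LinearMap.sub_apply, LinearMap.smul_apply, Module.End.one_apply] at hs'
  exact sub_eq_zero.1 hs'

theorem big (h : Sl2 E F K) (m : ℕ) (hm : E ^ m ≠ 0) :
    ∃ j : ℕ, m ≤ j ∧ ∃ v : M, v ≠ 0 ∧ K v = (j : ℂ) • v := by
  obtain ⟨l, hl⟩ : ∃ l : ℂ, ¬ K.maxGenEigenspace l ≤ LinearMap.ker (E ^ m) := by
    by_contra hcon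
    push Not at hcon
    apply hm
    have h1 : (⊤ : Submodule ℂ M) ≤ LinearMap.ker (E ^ m) := by
      rw [← Module.End.iSup_maxGenEigenspace_eq_top K]
      exact iSup_le hcon
    refine LinearMap.ext fun x => ?_
    exact h1 (Submodule.mem_top (x := x))
  obtain ⟨x, hx, hx'⟩ := SetLike.not_le_iff_exists.1 hl
  rw [Module.End.mem_maxGenEigenspace] at hx
  obtain ⟨k, hk⟩ := hx
  have hEx : (E ^ m) x ≠ 0 := hx'
  have hx0 : x ≠ 0 := by
    rintro rfl
    exact hEx (map_zero _)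
  obtain ⟨v₁, hv₁, hK₁⟩ := ev hx0 k hk
  obtain ⟨v₂, hv₂, hK₂⟩ := ev hEx k (shift h l x k hk m)
  obtain ⟨⟨z, hz⟩, v₃, hv₃, hK₃, -⟩ := weyl h (fun i : Empty => i.elim) (fun i : Empty => i.elim)
    (fun i => i.elim) (fun i => i.elim) (fun i : Empty => i.elim) v₁ hv₁ (fun i => i.elim) l hK₁
  rcases le_or_gt (-(m : ℤ)) z with hzm | hzm
  · refine ⟨(z + 2 * m).toNat, by omega, v₂, hv₂, ?_⟩
    rw [hK₂]
    congr 1
    have h1 : (((z + 2 * m).toNat : ℤ) : ℂ) = ((z + 2 * m : ℤ) : ℂ) := by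
      rw [Int.toNat_of_nonneg (by omega)]
    rw [Int.cast_natCast] at h1
    rw [h1, hz]
    push_cast
    ring
  · refine ⟨(-z).toNat, by omega, v₃, hv₃, ?_⟩
    rw [hK₃]
    congr 1
    have h1 : (((-z).toNat : ℤ) : ℂ) = ((-z : ℤ) : ℂ) := by
      rw [Int.toNat_of_nonneg (by omega)]
    rw [Int.cast_natCast] at h1
    rw [h1, hz]
    push_cast
    ring

end Sl2

end Pool.Agent.MP_55e6de_ag
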