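import Mathlib
import Pool.Agent.Lib.MP_55e6de_ag.Sl2W

/-!
# MP_55e6de_ag NG, module Rep: representations of orthogonal Lie algebras in terms of `R x y`

`R x y` is the operator of the element `z ↦ (z, x) y - (z, y) x` of the orthogonal Lie algebra.
-/

set_option autoImplicit false

noncomputable section

namespace Pool.Agent.MP_55e6de_ag

variable {U M : Type*} [AddCommGroup U] [Module ℂ U] [AddCommGroup M] [Module ℂ M]

/-- a representation of the orthogonal Lie algebra of `Q` in terms of the operators `R x y` of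
the elements `z ↦ (z, x) y - (z, y) x` -/
structure Rep (Q : LinearMap.BilinForm ℂ U) (R : U →ₗ[ℂ] U →ₗ[ℂ] Module.End ℂ M) : Prop where
  symm : ∀ x y, Q x y = Q y x
  skew : ∀ x y, R x y = - R y x
  br : ∀ u w x y, R u w * R x y - R x y * R u w =
    Q x u • R w y - Q x w • R u y + Q y u • R x w - Q y w • R x u

/-- three orthogonal hyperbolic pairs -/
structure Hyp (Q : LinearMap.BilinForm ℂ U) (a b : Fin 3 → U) : Prop where
  aa : ∀ i j, Q (a i) (a j) = 0
  bb : ∀ i j, Q (b i) (b j) = 0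
  ab : ∀ i j, Q (a i) (b j) = if i = j then 1 else 0

variable {Q : LinearMap.BilinForm ℂ U} {R : U →ₗ[ℂ] U →ₗ[ℂ] Module.End ℂ M}

lemma Rep.self (h : Rep Q R) (x : U) : R x x = 0 := by
  have h1 := h.skew x x
  have h2 : (2 : ℂ) • R x x = 0 := by
    rw [two_smul]
    nth_rewrite 2 [h1]
    exact add_neg_cancel _
  exact (smul_eq_zero.1 h2).resolve_left two_ne_zero

/-- the root element of two orthogonal hyperbolic pairs -/
lemma Rep.sl2 (h : Rep Q R) (a b a' b' : U) (haa : Q a a = 0) (hbb : Q b b = 0)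
    (haa' : Q a' a' = 0) (hbb' : Q b' b' = 0) (h1 : Q a b = 1) (h2 : Q a' b' = 1)
    (h3 : Q a a' = 0) (h4 : Q a b' = 0) (h5 : Q b a' = 0) (h6 : Q b b' = 0) :
    Sl2 (R a b') (R a' b) (R b a - R b' a') := by
  have e1 : Q b a = 1 := by rw [h.symm, h1]
  have e2 : Q b' a' = 1 := by rw [h.symm, h2]
  have e3 : Q a' a = 0 := by rw [h.symm, h3]
  have e4 : Q b' a = 0 := by rw [h.symm, h4]
  have e5 : Q a' b = 0 := by rw [h.symm, h5]
  have e6 : Q b' b = 0 := by rw [h.symm, h6]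
  refine ⟨?_, ?_, ?_⟩
  · rw [h.br, e3, h2, e1, h6, h.skew a b, h.skew a' b']
    simp only [zero_smul, one_smul]
    abel
  · have k1 := h.br b a a b'
    have k2 := h.br b' a' a b'
    rw [h1, haa, e6, e4, h.self] at k1
    rw [h4, h3, hbb', e2] at k2
    rw [sub_mul, mul_sub, sub_sub_sub_comm, k1, k2]
    simp only [zero_smul, one_smul, two_smul]
    abel
  · have k1 := h.br b a a' b
    have k2 := h.br b' a' a' b
    rw [e5, e3, hbb, e1] at k1
    rw [h2, haa', h6, h5, h.self] at k2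
    rw [sub_mul, mul_sub, sub_sub_sub_comm, k1, k2]
    simp only [zero_smul, one_smul, two_smul]
    abel

/-- the bracket with the element of a hyperbolic pair -/
lemma Rep.cart (h : Rep Q R) (a b x y : U) (s t : ℂ)
    (hs : Q x b • a - Q x a • b = s • x) (ht : Q y b • a - Q y a • b = t • y) :
    R b a * R x y - R x y * R b a = (s + t) • R x y := by
  have k1 : Q x b • R a y - Q x a • R b y = s • R x y := by
    have := congrArg (fun z => R z y) hs
    simpa using this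
  have k2 : Q y b • R x a - Q y a • R x b = t • R x y := by
    have := congrArg (fun z => R x z) ht
    simpa using this
  rw [h.br, add_smul, ← k1, ← k2]
  abel

lemma Hyp.ba {a b : Fin 3 → U} (h : Rep Q R) (hH : Hyp Q a b) (i j : Fin 3) :
    Q (b i) (a j) = if i = j then 1 else 0 := by
  rw [h.symm, hH.ab]
  simp only [eq_comm]

/-- the eigenvalues of the Cartan elements on the vectors of the pairs -/
lemma Hyp.va {a b : Fin 3 → U} (h : Rep Q R) (hH : Hyp Q a b) (i k : Fin 3) :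
    Q (a i) (b k) • a k - Q (a i) (a k) • b k = (if k = i then (1 : ℂ) else 0) • a i := by
  rw [hH.aa, hH.ab]
  by_cases hik : k = i
  · subst hik
    simp
  · rw [if_neg hik, if_neg (Ne.symm hik)]
    simp

lemma Hyp.vb {a b : Fin 3 → U} (h : Rep Q R) (hH : Hyp Q a b) (i k : Fin 3) :
    Q (b i) (b k) • a k - Q (b i) (a k) • b k = (-(if k = i then (1 : ℂ) else 0)) • b i := by
  rw [hH.bb, hH.ba h]
  by_cases hik : k = i
  · subst hik
    simp
  · rw [if_neg hik, if_neg (Ne.symm hik)]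
    simp

/-- there is a nonzero vector with the weights `x₀, x₁, x₂` -/
def Wt (R : U →ₗ[ℂ] U →ₗ[ℂ] Module.End ℂ M) (a b : Fin 3 → U) (x0 x1 x2 : ℂ) : Prop :=
  ∃ v : M, v ≠ 0 ∧ R (b 0) (a 0) v = x0 • v ∧ R (b 1) (a 1) v = x1 • v ∧
    R (b 2) (a 2) v = x2 • v

variable [FiniteDimensional ℂ M]

/-- reflection in the root `ε i - ε j` -/
lemma Wt_swap (h : Rep Q R) {a b : Fin 3 → U} (hH : Hyp Q a b) (i j : Fin 3) (hij : i ≠ j)
    (x : Fin 3 → ℂ) (v : M) (hv : v ≠ 0) (hx : ∀ k, R (b k) (a k) v = x k • v) :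
    ∃ v' : M, v' ≠ 0 ∧ ∀ k, R (b k) (a k) v' =
      (x k - (x i - x j) * ((if k = i then 1 else 0) - (if k = j then 1 else 0))) • v' := by
  have hs : Sl2 (R (a i) (b j)) (R (a j) (b i)) (R (b i) (a i) - R (b j) (a j)) := by
    apply h.sl2 _ _ _ _ (hH.aa _ _) (hH.bb _ _) (hH.aa _ _) (hH.bb _ _) <;>
      simp [hH.aa, hH.bb, hH.ab, hH.ba h, hij, hij.symm]
  obtain ⟨-, v', hv', -, h2⟩ := hs.weyl (fun k => R (b k) (a k))
    (fun k => (if k = i then (1 : ℂ) else 0) - (if k = j then 1 else 0))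
    (fun k => by
      rw [h.cart (a k) (b k) (a i) (b j) _ _ (hH.va h i k) (hH.vb h j k), sub_eq_add_neg])
    (fun k => by
      rw [h.cart (a k) (b k) (a j) (b i) _ _ (hH.va h j k) (hH.vb h i k), ← neg_smul]
      congr 1
      ring)
    x v hv hx (x i - x j) (by rw [LinearMap.sub_apply, hx, hx, sub_smul])
  exact ⟨v', hv', h2⟩

/-- reflection in the root `ε i + ε j` -/
lemma Wt_neg (h : Rep Q R) {a b : Fin 3 → U} (hH : Hyp Q a b) (i j : Fin 3) (hij : i ≠ j)
    (x : Fin 3 → ℂ) (v : M) (hv : v ≠ 0) (hx : ∀ k, R (b k) (a k) v = x k • v) :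
    ∃ v' : M, v' ≠ 0 ∧ ∀ k, R (b k) (a k) v' =
      (x k - (x i + x j) * ((if k = i then 1 else 0) + (if k = j then 1 else 0))) • v' := by
  have hs : Sl2 (R (a i) (a j)) (R (b j) (b i)) (R (b i) (a i) - R (a j) (b j)) := by
    apply h.sl2 _ _ _ _ (hH.aa _ _) (hH.bb _ _) (hH.bb _ _) (hH.aa _ _) <;>
      simp [hH.aa, hH.bb, hH.ab, hH.ba h, hij, hij.symm]
  obtain ⟨-, v', hv', -, h2⟩ := hs.weyl (fun k => R (b k) (a k))
    (fun k => (if k = i then (1 : ℂ) else 0) + (if k = j then 1 else 0))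
    (fun k => by
      rw [h.cart (a k) (b k) (a i) (a j) _ _ (hH.va h i k) (hH.va h j k)])
    (fun k => by
      rw [h.cart (a k) (b k) (b j) (b i) _ _ (hH.vb h j k) (hH.vb h i k), ← neg_smul]
      congr 1
      ring)
    x v hv hx (x i + x j) (by
      rw [h.skew (a j) (b j), sub_neg_eq_add, LinearMap.add_apply, hx, hx, add_smul])
  exact ⟨v', hv', h2⟩

lemma Wt_vec {a b : Fin 3 → U} {x0 x1 x2 : ℂ} :
    Wt R a b x0 x1 x2 ↔ ∃ v : M, v ≠ 0 ∧ ∀ k, R (b k) (a k) v = (![x0, x1, x2] k) • v := by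
  constructor
  · rintro ⟨v, hv, h0, h1, h2⟩
    refine ⟨v, hv, fun k => ?_⟩
    fin_cases k
    · exact h0
    · exact h1
    · exact h2
  · rintro ⟨v, hv, hx⟩
    exact ⟨v, hv, hx 0, hx 1, hx 2⟩

lemma Wt_swap01 (h : Rep Q R) {a b : Fin 3 → U} (hH : Hyp Q a b) {x0 x1 x2 : ℂ}
    (hx : Wt R a b x0 x1 x2) : Wt R a b x1 x0 x2 := by
  obtain ⟨v, hv, hv'⟩ := Wt_vec.1 hx
  obtain ⟨w, hw, hw'⟩ := Wt_swap h hH 0 1 (by decide) _ v hv hv'
  exact ⟨w, hw, by simpa using hw' 0, by simpa using hw' 1, by simpa using hw' 2⟩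

lemma Wt_swap12 (h : Rep Q R) {a b : Fin 3 → U} (hH : Hyp Q a b) {x0 x1 x2 : ℂ}
    (hx : Wt R a b x0 x1 x2) : Wt R a b x0 x2 x1 := by
  obtain ⟨v, hv, hv'⟩ := Wt_vec.1 hx
  obtain ⟨w, hw, hw'⟩ := Wt_swap h hH 1 2 (by decide) _ v hv hv'
  exact ⟨w, hw, by simpa using hw' 0, by simpa using hw' 1, by simpa using hw' 2⟩

lemma Wt_neg02 (h : Rep Q R) {a b : Fin 3 → U} (hH : Hyp Q a b) {x0 x1 x2 : ℂ}
    (hx : Wt R a b x0 x1 x2) : Wt R a b (-x2) x1 (-x0) := by
  obtain ⟨v, hv, hv'⟩ := Wt_vec.1 hx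
  obtain ⟨w, hw, hw'⟩ := Wt_neg h hH 0 2 (by decide) _ v hv hv'
  exact ⟨w, hw, by simpa using hw' 0, by simpa using hw' 1, by simpa using hw' 2⟩

end Pool.Agent.MP_55e6de_ag
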