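import Mathlib
import Pool.Agent.Lib.MP_55e6de_ag.Rep

/-!
# MP_55e6de_ag NG, module Core: bounds for the nilpotency of a root element
-/

set_option autoImplicit false

noncomputable section

namespace Pool.Agent.MP_55e6de_ag

variable {U M : Type*} [AddCommGroup U] [Module ℂ U] [AddCommGroup M] [Module ℂ M]

/-- the consequences of the Hodge decomposition which are used, for the degree operator `W0` and
the Hodge operator `W1` -/
structure Dec (W0 W1 : Module.End ℂ M) (n : ℕ) : Prop where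
  num : ∀ (x0 x1 : ℂ) (v : M), v ≠ 0 → W0 v = x0 • v → W1 v = x1 • v →
    ∃ p r : ℕ, p ≤ 2 * n ∧ r ≤ 2 * n ∧ Even (p + r) ∧ x0 = ((p : ℂ) + r) / 2 - n ∧
      x1 = ((p : ℂ) - r) / 2
  line : ∀ k ≤ n, ∀ v v' : M, v ≠ 0 → W0 v = ((k : ℂ) - n) • v → W1 v = (k : ℂ) • v →
    W0 v' = ((k : ℂ) - n) • v' → W1 v' = (k : ℂ) • v' → ∃ c : ℂ, v' = c • v
  unit : ∃ v : M, v ≠ 0 ∧ W0 v = (-(n : ℂ)) • v ∧ W1 v = (0 : ℂ) • v

lemma Dec.conj {W0 W1 W1' : Module.End ℂ M} {n : ℕ} (h : Dec W0 W1 n) (G G' : Module.End ℂ M)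
    (h1 : G * G' = 1) (h2 : G' * G = 1) (h3 : G * W1 = W1' * G) (h4 : W0 * G = G * W0) :
    Dec W0 W1' n := by
  have k1 : ∀ v, G (G' v) = v := fun v => by
    rw [← Module.End.mul_apply, h1, Module.End.one_apply]
  have k2 : ∀ v, G' (G v) = v := fun v => by
    rw [← Module.End.mul_apply, h2, Module.End.one_apply]
  have k3 : ∀ v, G (W1 v) = W1' (G v) := fun v => by
    rw [← Module.End.mul_apply, h3, Module.End.mul_apply]
  have k4 : ∀ v, W0 (G v) = G (W0 v) := fun v => by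
    rw [← Module.End.mul_apply, h4, Module.End.mul_apply]
  have k5 : ∀ v, v ≠ 0 → G' v ≠ 0 := by
    intro v hv h0
    apply hv
    rw [← k1 v, h0, map_zero]
  have k6 : ∀ v (x : ℂ), W0 v = x • v → W0 (G' v) = x • G' v := by
    intro v x hv
    rw [← k2 (W0 (G' v)), ← k4, k1, hv, map_smul]
  have k7 : ∀ v (x : ℂ), W1' v = x • v → W1 (G' v) = x • G' v := by
    intro v x hv
    rw [← k2 (W1 (G' v)), k3, k1, hv, map_smul]
  refine ⟨?_, ?_, ?_⟩
  · intro x0 x1 v hv e0 e1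
    exact h.num x0 x1 (G' v) (k5 v hv) (k6 v _ e0) (k7 v _ e1)
  · intro k hk v v' hv e0 e1 e0' e1'
    obtain ⟨c, hc⟩ := h.line k hk (G' v) (G' v') (k5 v hv) (k6 v _ e0) (k7 v _ e1) (k6 v' _ e0')
      (k7 v' _ e1')
    refine ⟨c, ?_⟩
    rw [← k1 v', hc, map_smul, k1]
  · obtain ⟨v, hv, e0, e1⟩ := h.unit
    refine ⟨G v, ?_, ?_, ?_⟩
    · intro h0
      apply hv
      rw [← k2 v, h0, map_zero]
    · rw [k4, e0, map_smul]
    · rw [← k3, e1, map_smul]

variable {Q : LinearMap.BilinForm ℂ U} {R : U →ₗ[ℂ] U →ₗ[ℂ] Module.End ℂ M}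

/-- the third Cartan element acts by `0` on the line `H^{2k,0}` -/
lemma line_zero (h : Rep Q R) {a b : Fin 3 → U} (hH : Hyp Q a b) (u : U) (hu : Q u u ≠ 0)
    (hua : ∀ i, Q u (a i) = 0) (hub : ∀ i, Q u (b i) = 0) {n : ℕ}
    (hD : Dec (R (b 0) (a 0)) (R (b 1) (a 1)) n) (k : ℕ) (hk : k ≤ n) (v : M) (hv : v ≠ 0)
    (h0 : R (b 0) (a 0) v = ((k : ℂ) - n) • v) (h1 : R (b 1) (a 1) v = (k : ℂ) • v) :
    R (b 2) (a 2) v = 0 := by
  have hau : ∀ i, Q (a i) u = 0 := fun i => by rw [h.symm, hua]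
  have hbu : ∀ i, Q (b i) u = 0 := fun i => by rw [h.symm, hub]
  -- the two operators
  have c1 : ∀ i, i ≠ 2 → R (b i) (a i) * R (a 2) u - R (a 2) u * R (b i) (a i) = 0 := by
    intro i hi
    rw [h.cart (a i) (b i) (a 2) u 0 0 (by rw [hH.va h, if_neg hi]) (by simp [hua, hub])]
    simp
  have c2 : ∀ i, i ≠ 2 → R (b i) (a i) * R u (b 2) - R u (b 2) * R (b i) (a i) = 0 := by
    intro i hi
    rw [h.cart (a i) (b i) u (b 2) 0 0 (by simp [hua, hub])
      (by rw [hH.vb h, if_neg hi, neg_zero])]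
    simp
  have c3 : R (a 2) u * R u (b 2) - R u (b 2) * R (a 2) u = Q u u • R (b 2) (a 2) := by
    rw [h.br, hua, hH.ba h, hbu, h.self, h.skew (a 2) (b 2)]
    simp
  have d1 : ∀ (A : Module.End ℂ M), (∀ i, i ≠ 2 → R (b i) (a i) * A - A * R (b i) (a i) = 0) →
      ∃ c : ℂ, A v = c • v := by
    intro A hA
    have e : ∀ i, i ≠ 2 → ∀ x : ℂ, R (b i) (a i) v = x • v → R (b i) (a i) (A v) = x • A v := by
      intro i hi x hx
      have e1 : R (b i) (a i) * A = A * R (b i) (a i) := sub_eq_zero.1 (hA i hi)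
      rw [← Module.End.mul_apply, e1, Module.End.mul_apply, hx, map_smul]
    exact hD.line k hk v (A v) hv h0 h1 (e 0 (by decide) _ h0) (e 1 (by decide) _ h1)
  obtain ⟨s, hs⟩ := d1 _ c1
  obtain ⟨t, ht⟩ := d1 _ c2
  have e1 : (R (a 2) u * R u (b 2) - R u (b 2) * R (a 2) u) v = 0 := by
    rw [LinearMap.sub_apply, Module.End.mul_apply, Module.End.mul_apply, hs, ht, map_smul,
      map_smul, hs, ht, smul_comm, sub_self]
  rw [c3, LinearMap.smul_apply] at e1
  exact (smul_eq_zero.1 e1).resolve_left hu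

variable [FiniteDimensional ℂ M]

/-- the weights `x1 + x2` on `H^{2k}` -/
lemma weight_bound (h : Rep Q R) {a b : Fin 3 → U} (hH : Hyp Q a b) (u : U) (hu : Q u u ≠ 0)
    (hua : ∀ i, Q u (a i) = 0) (hub : ∀ i, Q u (b i) = 0) {n : ℕ}
    (hD : Dec (R (b 0) (a 0)) (R (b 1) (a 1)) n) (k : ℕ) (hk : k ≤ n) (x1 x2 : ℂ)
    (hx : Wt R a b ((k : ℂ) - n) x1 x2) (j : ℕ) (hj : x1 + x2 = j) (hkj : k < j) :
    j < n ∧ j + 1 < 2 * k := by
  have key : ∀ (k' : ℕ) (y : ℂ), k' ≤ n → Wt R a b ((k' : ℂ) - n) k' y → y = 0 := by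
    rintro k' y hk' ⟨v, hv, e0, e1, e2⟩
    have e3 := line_zero h hH u hu hua hub hD k' hk' v hv e0 e1
    rw [e3] at e2
    exact (smul_eq_zero.1 e2.symm).resolve_right hv
  -- first part
  have hA := Wt_swap12 h hH (Wt_swap01 h hH hx)
  have hB := Wt_neg02 h hH hx
  have hC := Wt_swap12 h hH hx
  have hX := hx
  have hCC := hC
  obtain ⟨v, hv, e0, e1, -⟩ := hA
  obtain ⟨p, r, hp, hr, hpr, f0, f1⟩ := hD.num _ _ v hv e0 e1
  obtain ⟨v', hv', e0', e1', -⟩ := hx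
  obtain ⟨p', r', hp', hr', -, f0', f1'⟩ := hD.num _ _ v' hv' e0' e1'
  obtain ⟨v'', hv'', e0'', e1'', -⟩ := hC
  obtain ⟨p'', r'', hp'', hr'', -, f0'', f1''⟩ := hD.num _ _ v'' hv'' e0'' e1''
  have g1 : p = j + n := by
    have : (p : ℂ) = (j : ℂ) + n := by
      rw [f0, f1] at hj
      linear_combination hj
    exact_mod_cast this
  have g2 : p' + r' = 2 * k := by
    have : (p' : ℂ) + r' = 2 * k := by linear_combination (-2) * f0'
    exact_mod_cast this
  have g3 : p'' + r'' = 2 * k := by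
    have : (p'' : ℂ) + r'' = 2 * k := by linear_combination (-2) * f0''
    exact_mod_cast this
  have g4 : j + r' + r'' = 2 * k := by
    have e3 : ((p' + r' : ℕ) : ℂ) = ((2 * k : ℕ) : ℂ) := by rw [g2]
    have e4 : ((p'' + r'' : ℕ) : ℂ) = ((2 * k : ℕ) : ℂ) := by rw [g3]
    push_cast at e3 e4
    have : (j : ℂ) + r' + r'' = 2 * k := by
      rw [← hj, f1', f1'']
      linear_combination (1 / 2) * e3 + (1 / 2) * e4
    exact_mod_cast this
  refine ⟨?_, ?_⟩
  · rcases Nat.lt_or_ge j n with hjn | hjn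
    · exact hjn
    exfalso
    have hjn' : j = n := by omega
    subst hjn'
    obtain ⟨r2, hr2⟩ := hpr
    have g5 : ∃ k', r = 2 * k' := ⟨r2 - j, by omega⟩
    obtain ⟨k', hk'⟩ := g5
    have hk'n : k' ≤ j := by omega
    have e5 : (p : ℂ) = (j : ℂ) + j := by exact_mod_cast g1
    have e6 : (r : ℂ) = 2 * k' := by exact_mod_cast hk'
    have e7 : -x2 = (k' : ℂ) - j := by
      rw [f1, e5, e6]
      ring
    have e8 : x1 = (k' : ℂ) := by
      rw [f0, e5, e6]
      ring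
    rw [e7, e8] at hB
    have e9 := key k' _ hk'n hB
    have e10 : (k : ℂ) = j := by linear_combination -e9
    have e11 : k = j := by exact_mod_cast e10
    omega
  · by_contra hcon
    have g6 : r' = 0 ∨ r'' = 0 := by omega
    rcases g6 with g6 | g6
    · subst g6
      have g7 : p' = 2 * k := by omega
      have e3 : x1 = (k : ℂ) := by
        rw [f1', g7]
        push_cast
        ring
      rw [e3] at hX
      have e4 := key k _ hk hX
      rw [e3, e4, add_zero] at hj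
      have e5 : k = j := by exact_mod_cast hj
      omega
    · subst g6
      have g7 : p'' = 2 * k := by omega
      have e3 : x2 = (k : ℂ) := by
        rw [f1'', g7]
        push_cast
        ring
      rw [e3] at hCC
      have e4 := key k _ hk hCC
      rw [e3, e4, zero_add] at hj
      have e5 : k = j := by exact_mod_cast hj
      omega

/-- a common eigenvector with a large weight -/
lemma exists_weight (h : Rep Q R) {a b : Fin 3 → U} (hH : Hyp Q a b) (x0 : ℂ) (m : ℕ) (v : M)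
    (hv : R (b 0) (a 0) v = x0 • v) (hm : (R (a 1) (a 2) ^ m) v ≠ 0) :
    ∃ j : ℕ, m ≤ j ∧ ∃ x1 x2 : ℂ, x1 + x2 = j ∧ Wt R a b x0 x1 x2 := by
  have hs : Sl2 (R (a 1) (a 2)) (R (b 2) (b 1)) (R (b 1) (a 1) - R (a 2) (b 2)) := by
    apply h.sl2 _ _ _ _ (hH.aa _ _) (hH.bb _ _) (hH.bb _ _) (hH.aa _ _) <;>
      simp [hH.aa, hH.bb, hH.ab, hH.ba h]
  have hK : R (b 1) (a 1) - R (a 2) (b 2) = R (b 1) (a 1) + R (b 2) (a 2) := by
    rw [h.skew (a 2) (b 2), sub_neg_eq_add]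
  rw [hK] at hs
  have cE : R (b 0) (a 0) * R (a 1) (a 2) = R (a 1) (a 2) * R (b 0) (a 0) := by
    have := h.cart (a 0) (b 0) (a 1) (a 2) _ _ (hH.va h 1 0) (hH.va h 2 0)
    simpa [sub_eq_zero] using this
  have cF : R (b 0) (a 0) * R (b 2) (b 1) = R (b 2) (b 1) * R (b 0) (a 0) := by
    have := h.cart (a 0) (b 0) (b 2) (b 1) _ _ (hH.vb h 2 0) (hH.vb h 1 0)
    simpa [sub_eq_zero] using this
  have c1 : R (b 0) (a 0) * R (b 1) (a 1) = R (b 1) (a 1) * R (b 0) (a 0) := by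
    have := h.cart (a 0) (b 0) (b 1) (a 1) _ _ (hH.vb h 1 0) (hH.va h 1 0)
    simpa [sub_eq_zero] using this
  have c2 : R (b 0) (a 0) * R (b 2) (a 2) = R (b 2) (a 2) * R (b 0) (a 0) := by
    have := h.cart (a 0) (b 0) (b 2) (a 2) _ _ (hH.vb h 2 0) (hH.va h 2 0)
    simpa [sub_eq_zero] using this
  have c12 : R (b 1) (a 1) * R (b 2) (a 2) = R (b 2) (a 2) * R (b 1) (a 1) := by
    have := h.cart (a 1) (b 1) (b 2) (a 2) _ _ (hH.vb h 2 1) (hH.va h 2 1)
    simpa [sub_eq_zero] using this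
  set E := R (a 1) (a 2) with hE
  set F := R (b 2) (b 1) with hF
  set W0 := R (b 0) (a 0) with hW0
  set W1 := R (b 1) (a 1) with hW1
  set W2 := R (b 2) (a 2) with hW2
  set S : Submodule ℂ M := Module.End.eigenspace W0 x0 with hS
  have stab : ∀ Z : Module.End ℂ M, W0 * Z = Z * W0 → ∀ y ∈ S, Z y ∈ S := by
    intro Z hZ y hy
    rw [hS, Module.End.mem_eigenspace_iff] at hy ⊢
    rw [← Module.End.mul_apply, hZ, Module.End.mul_apply, hy, map_smul]
  have sE := stab E cE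
  have sF := stab F cF
  have s1 := stab W1 c1
  have s2 := stab W2 c2
  have sK : ∀ y ∈ S, (W1 + W2) y ∈ S := fun y hy => S.add_mem (s1 y hy) (s2 y hy)
  have hs' : Sl2 (E.restrict sE) (F.restrict sF) ((W1 + W2).restrict sK) := by
    refine ⟨?_, ?_, ?_⟩
    · ext y
      exact LinearMap.congr_fun hs.ef y.1
    · ext y
      exact LinearMap.congr_fun hs.ke y.1
    · ext y
      exact LinearMap.congr_fun hs.kf y.1
  have hpow : ∀ i : ℕ, ∀ y : S, (((E.restrict sE) ^ i) y).1 = (E ^ i) y.1 := by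
    intro i
    induction i with
    | zero => intro y; rfl
    | succ i ih =>
      intro y
      rw [pow_succ, pow_succ, Module.End.mul_apply, Module.End.mul_apply, ih]
      rfl
  have hvS : v ∈ S := by
    rw [hS, Module.End.mem_eigenspace_iff]
    exact hv
  have hne : (E.restrict sE) ^ m ≠ 0 := by
    intro h0
    apply hm
    rw [← hpow m ⟨v, hvS⟩, h0]
    rfl
  obtain ⟨j, hmj, y, hy0, hy⟩ := hs'.big m hne
  refine ⟨j, hmj, ?_⟩
  have hyK : (W1 + W2) y.1 = (j : ℂ) • y.1 := congrArg Subtype.val hy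
  -- an eigenvector of `W1`
  set T : Submodule ℂ M := S ⊓ Module.End.eigenspace (W1 + W2) (j : ℂ) with hT
  have sT : ∀ z ∈ T, W1 z ∈ T := by
    intro z hz
    refine ⟨s1 z hz.1, ?_⟩
    have hz2 := hz.2
    rw [SetLike.mem_coe, Module.End.mem_eigenspace_iff] at hz2 ⊢
    have e1 : (W1 + W2) * W1 = W1 * (W1 + W2) := by rw [add_mul, mul_add, c12]
    rw [← Module.End.mul_apply, e1, Module.End.mul_apply, hz2, map_smul]
  have hyT : y.1 ∈ T := ⟨y.2, by
    rw [SetLike.mem_coe, Module.End.mem_eigenspace_iff]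
    exact hyK⟩
  have : Nontrivial T := by
    refine ⟨⟨⟨y.1, hyT⟩, 0, fun h0 => hy0 (Subtype.ext ?_)⟩⟩
    exact congrArg (fun t : T => t.1) h0
  obtain ⟨x1, hx1⟩ := Module.End.exists_eigenvalue (W1.restrict sT)
  obtain ⟨z, hz⟩ := hx1.exists_hasEigenvector
  have hz1 : W1 z.1 = x1 • z.1 := congrArg Subtype.val hz.apply_eq_smul
  have hz0 : z.1 ≠ 0 := fun h0 => hz.2 (Subtype.ext h0)
  have hzS := z.2.1
  have hzK := z.2.2
  rw [hS, SetLike.mem_coe, Module.End.mem_eigenspace_iff] at hzS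
  rw [SetLike.mem_coe, Module.End.mem_eigenspace_iff, LinearMap.add_apply, hz1] at hzK
  refine ⟨x1, (j : ℂ) - x1, by ring, z.1, hz0, hzS, hz1, ?_⟩
  rw [sub_smul, ← hzK]
  abel

/-- upper bound for the index of nilpotence of the root element `ε 1 + ε 2` on `H^{2k}` -/
theorem core_upper (h : Rep Q R) {a b : Fin 3 → U} (hH : Hyp Q a b) (u : U) (hu : Q u u ≠ 0)
    (hua : ∀ i, Q u (a i) = 0) (hub : ∀ i, Q u (b i) = 0) {n : ℕ}
    (hD : Dec (R (b 0) (a 0)) (R (b 1) (a 1)) n) (k : ℕ) (hk : k ≤ n) (m : ℕ) (hkm : k < m)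
    (hm : n ≤ m ∨ 2 * k ≤ m + 1) (v : M) (hv : R (b 0) (a 0) v = ((k : ℂ) - n) • v) :
    (R (a 1) (a 2) ^ m) v = 0 := by
  by_contra hcon
  obtain ⟨j, hmj, x1, x2, hx, hW⟩ := exists_weight h hH _ m v hv hcon
  have h1 := weight_bound h hH u hu hua hub hD k hk x1 x2 hW j hx (by omega)
  omega

lemma ring_pow {A : Type*} [Ring A] [Algebra ℂ A] (N X Y : A) (h1 : N * X - X * N = Y)
    (h2 : X * Y = Y * X) (k : ℕ) : N * X ^ (k + 1) = X ^ (k + 1) * N + ((k : ℂ) + 1) • (X ^ k * Y) := by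
  induction k with
  | zero =>
    rw [zero_add, pow_one, pow_zero, one_mul, Nat.cast_zero, zero_add, one_smul, ← h1]
    abel
  | succ k ih =>
    have e1 : N * X = X * N + Y := by rw [← h1]; abel
    have e2 : X * X ^ k = X ^ k * X := (pow_succ' X k).symm.trans (pow_succ X k)
    rw [pow_succ' X (k + 1), ← mul_assoc, e1, add_mul, mul_assoc, ih, mul_add, mul_smul_comm,
      ← mul_assoc, ← mul_assoc, ← pow_succ' X k]
    have e3 : Y * X ^ (k + 1) = X ^ (k + 1) * Y := by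
      have : Commute Y X := h2.symm
      exact (this.pow_right (k + 1)).eq
    rw [e3, add_assoc]
    congr 1
    push_cast
    module

/-- the index of nilpotence of the root element `ε 1 + ε 2` on `H^{2k}` is at least `k` -/
theorem core_lower (h : Rep Q R) {a b : Fin 3 → U} (hH : Hyp Q a b) (u : U) (hu : Q u u ≠ 0)
    (hua : ∀ i, Q u (a i) = 0) (hub : ∀ i, Q u (b i) = 0) {n : ℕ}
    (hD : Dec (R (b 0) (a 0)) (R (b 1) (a 1)) n) (k : ℕ) (hk : k ≤ n) :
    ∃ v : M, R (b 0) (a 0) v = ((k : ℂ) - n) • v ∧ (R (a 1) (a 2) ^ k) v ≠ 0 := by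
  obtain ⟨v, hv, e0, e1⟩ := hD.unit
  have e2 : R (b 2) (a 2) v = 0 :=
    line_zero h hH u hu hua hub hD 0 (Nat.zero_le n) v hv (by rw [e0]; simp) (by rw [e1]; simp)
  -- the operators
  have cN0 : R (b 0) (a 0) * R (a 1) (a 2) - R (a 1) (a 2) * R (b 0) (a 0) = 0 := by
    rw [h.cart (a 0) (b 0) (a 1) (a 2) _ _ (hH.va h 1 0) (hH.va h 2 0)]
    simp
  have cN1 : R (b 1) (a 1) * R (a 1) (a 2) - R (a 1) (a 2) * R (b 1) (a 1) = R (a 1) (a 2) := by
    rw [h.cart (a 1) (b 1) (a 1) (a 2) _ _ (hH.va h 1 1) (hH.va h 2 1)]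
    simp
  have cX0 : R (b 0) (a 0) * R (a 0) (b 1) - R (a 0) (b 1) * R (b 0) (a 0) = R (a 0) (b 1) := by
    rw [h.cart (a 0) (b 0) (a 0) (b 1) _ _ (hH.va h 0 0) (hH.vb h 1 0)]
    simp
  have cF0 : R (b 0) (a 0) * R (b 2) (b 0) - R (b 2) (b 0) * R (b 0) (a 0) =
      -R (b 2) (b 0) := by
    rw [h.cart (a 0) (b 0) (b 2) (b 0) _ _ (hH.vb h 2 0) (hH.vb h 0 0)]
    simp
  have cF1 : R (b 1) (a 1) * R (b 2) (b 0) - R (b 2) (b 0) * R (b 1) (a 1) = 0 := by
    rw [h.cart (a 1) (b 1) (b 2) (b 0) _ _ (hH.vb h 2 1) (hH.vb h 0 1)]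
    simp
  have cNX : R (a 1) (a 2) * R (a 0) (b 1) - R (a 0) (b 1) * R (a 1) (a 2) = R (a 0) (a 2) := by
    rw [h.br, hH.aa, hH.aa, hH.ba h, hH.ba h]
    simp
  have cXY : R (a 0) (b 1) * R (a 0) (a 2) - R (a 0) (a 2) * R (a 0) (b 1) = 0 := by
    rw [h.br, hH.aa, hH.ab, hH.aa, hH.ab]
    simp
  have cNY : R (a 1) (a 2) * R (a 0) (a 2) - R (a 0) (a 2) * R (a 1) (a 2) = 0 := by
    rw [h.br, hH.aa, hH.aa, hH.aa, hH.aa]
    simp
  have hs : Sl2 (R (a 0) (a 2)) (R (b 2) (b 0)) (R (b 0) (a 0) - R (a 2) (b 2)) := by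
    apply h.sl2 _ _ _ _ (hH.aa _ _) (hH.bb _ _) (hH.bb _ _) (hH.aa _ _) <;>
      simp [hH.aa, hH.bb, hH.ab, hH.ba h]
  -- `N v = 0` and `F v = 0`
  have hNv : R (a 1) (a 2) v = 0 := by
    by_contra hcon
    have k0 : R (b 0) (a 0) (R (a 1) (a 2) v) = (-(n : ℂ)) • R (a 1) (a 2) v := by
      rw [← Module.End.mul_apply, sub_eq_zero.1 cN0, Module.End.mul_apply, e0, map_smul]
    have k1 : R (b 1) (a 1) (R (a 1) (a 2) v) = (1 : ℂ) • R (a 1) (a 2) v := by
      rw [← Module.End.mul_apply, sub_eq_iff_eq_add.1 cN1, LinearMap.add_apply,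
        Module.End.mul_apply, e1, zero_smul, map_zero, add_zero, one_smul]
    obtain ⟨p, r, -, -, -, f0, f1⟩ := hD.num _ _ _ hcon k0 k1
    have g1 : ((p + r : ℕ) : ℂ) = 0 := by
      push_cast
      linear_combination (-2) * f0
    have g2 : p + r = 0 := by exact_mod_cast g1
    have g3 : p = 0 := by omega
    have g4 : r = 0 := by omega
    rw [g3, g4] at f1
    simp at f1
  have hFv : R (b 2) (b 0) v = 0 := by
    by_contra hcon
    have k0 : R (b 0) (a 0) (R (b 2) (b 0) v) = (-(n : ℂ) - 1) • R (b 2) (b 0) v := by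
      rw [← Module.End.mul_apply, sub_eq_iff_eq_add.1 cF0, LinearMap.add_apply,
        Module.End.mul_apply, e0, map_smul, LinearMap.neg_apply, sub_smul, one_smul]
      abel
    have k1 : R (b 1) (a 1) (R (b 2) (b 0) v) = (0 : ℂ) • R (b 2) (b 0) v := by
      rw [← Module.End.mul_apply, sub_eq_zero.1 cF1, Module.End.mul_apply, e1, zero_smul,
        map_zero, zero_smul]
    obtain ⟨p, r, -, -, -, f0, f1⟩ := hD.num _ _ _ hcon k0 k1
    have g1 : ((p + r + 2 : ℕ) : ℂ) = 0 := by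
      push_cast
      linear_combination (-2) * f0
    have g2 : p + r + 2 = 0 := by exact_mod_cast g1
    omega
  -- `Y^k v ≠ 0`
  have hYk : (R (a 0) (a 2) ^ k) v ≠ 0 := by
    obtain ⟨m, hm, hm'⟩ := hs.symm.prim v hv hFv (n : ℂ) (by
      rw [LinearMap.neg_apply, h.skew (a 2) (b 2), sub_neg_eq_add, LinearMap.add_apply, e0, e2,
        add_zero, neg_smul, neg_neg])
    have hmn : n = m := by exact_mod_cast hm
    exact hm' k (by omega)
  -- degree of `X^k v`
  have hX : ∀ i : ℕ, R (b 0) (a 0) ((R (a 0) (b 1) ^ i) v) =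
      ((i : ℂ) - n) • (R (a 0) (b 1) ^ i) v := by
    intro i
    induction i with
    | zero => simp [e0]
    | succ i ih =>
      rw [pow_succ', Module.End.mul_apply, ← Module.End.mul_apply (R (b 0) (a 0)),
        sub_eq_iff_eq_add.1 cX0, LinearMap.add_apply, Module.End.mul_apply, ih, map_smul]
      push_cast
      module
  -- `N^k X^k v = k! Y^k v`
  have hmain : ∀ i : ℕ, ∀ w : M, R (a 1) (a 2) w = 0 →
      (R (a 1) (a 2) ^ i) ((R (a 0) (b 1) ^ i) w) = (i.factorial : ℂ) • (R (a 0) (a 2) ^ i) w := by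
    intro i
    induction i with
    | zero => intro w _; simp
    | succ i ih =>
      intro w hw
      have k1 := congrArg (fun Z : Module.End ℂ M => Z w)
        (ring_pow _ _ _ cNX (sub_eq_zero.1 cXY) i)
      simp only [Module.End.mul_apply, LinearMap.add_apply, LinearMap.smul_apply, hw,
        map_zero, zero_add] at k1
      have k2 : R (a 1) (a 2) (R (a 0) (a 2) w) = 0 := by
        rw [← Module.End.mul_apply, sub_eq_zero.1 cNY, Module.End.mul_apply, hw, map_zero]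
      rw [pow_succ (R (a 1) (a 2)), Module.End.mul_apply, k1, map_smul, ih _ k2, smul_smul,
        ← Module.End.mul_apply (R (a 0) (a 2) ^ i), ← pow_succ, Nat.factorial_succ]
      push_cast
      rfl
  refine ⟨(R (a 0) (b 1) ^ k) v, hX k, ?_⟩
  rw [hmain k v hNv]
  exact smul_ne_zero (by exact_mod_cast k.factorial_ne_zero) hYk

end Pool.Agent.MP_55e6de_ag
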