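import Mathlib

/-!
# MP_55e6de_ag, project NG. Definitions

`V` is a complex vector space with a symmetric bilinear form `q` (for a hyperkaehler manifold `X`:
`H²(X, ℂ)` with the Beauville-Bogomolov form), `mukai q` is the form of the Mukai extension
`V ⊕ ℂ α ⊕ ℂ β` with `α = (0, 1, 0)`, `β = (0, 0, 1)`, `(α, β) = 1`, and `LLV q` is its
orthogonal Lie algebra, the Looijenga-Lunts-Verbitsky algebra.

The element `wedge q hq x y` of `LLV q` is `z ↦ (z, x) y - (z, y) x`.
-/

set_option autoImplicit false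

noncomputable section

namespace Pool.Agent.MP_55e6de_ag

attribute [local instance 100] LieRing.ofAssociativeRing

variable {V H : Type*} [AddCommGroup V] [Module ℂ V] [AddCommGroup H] [Module ℂ H]

/-- the form of the Mukai extension `V ⊕ ℂ ⊕ ℂ`:
`((v, a, b), (w, c, d)) = q(v, w) + a d + b c` -/
def mukai (q : LinearMap.BilinForm ℂ V) : LinearMap.BilinForm ℂ (V × ℂ × ℂ) :=
  LinearMap.mk₂ ℂ (fun x y => q x.1 y.1 + x.2.1 * y.2.2 + x.2.2 * y.2.1)
    (by intro x y z; simp; ring) (by intro c x y; simp; ring)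
    (by intro x y z; simp; ring) (by intro c x y; simp; ring)

lemma mukai_apply (q : LinearMap.BilinForm ℂ V) (x y : V × ℂ × ℂ) :
    mukai q x y = q x.1 y.1 + x.2.1 * y.2.2 + x.2.2 * y.2.1 := rfl

lemma mukai_symm (q : LinearMap.BilinForm ℂ V) (hq : ∀ x y, q x y = q y x)
    (x y : V × ℂ × ℂ) : mukai q x y = mukai q y x := by
  rw [mukai_apply, mukai_apply, hq]
  ring

/-- the Looijenga-Lunts-Verbitsky algebra: the orthogonal Lie algebra of the Mukai extension -/
abbrev LLV (q : LinearMap.BilinForm ℂ V) : LieSubalgebra ℂ (Module.End ℂ (V × ℂ × ℂ)) :=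
  skewAdjointLieSubalgebra (mukai q)

lemma mem_LLV (q : LinearMap.BilinForm ℂ V) (f : Module.End ℂ (V × ℂ × ℂ)) :
    f ∈ LLV q ↔ ∀ x y, mukai q (f x) y = - mukai q x (f y) := by
  have h1 : f ∈ LLV q ↔ (mukai q).IsSkewAdjoint f := LinearMap.mem_skewAdjointSubmodule _
  rw [h1]
  refine forall_congr' fun x => forall_congr' fun y => ?_
  simp

/-- the endomorphism `z ↦ (z, x) y - (z, y) x` of the Mukai extension -/
def wedgeEnd (q : LinearMap.BilinForm ℂ V) (x y : V × ℂ × ℂ) : Module.End ℂ (V × ℂ × ℂ) :=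
  ((mukai q).flip x).smulRight y - ((mukai q).flip y).smulRight x

lemma wedgeEnd_apply (q : LinearMap.BilinForm ℂ V) (x y z : V × ℂ × ℂ) :
    wedgeEnd q x y z = mukai q z x • y - mukai q z y • x := rfl

lemma wedgeEnd_mem (q : LinearMap.BilinForm ℂ V) (hq : ∀ x y, q x y = q y x)
    (x y : V × ℂ × ℂ) : wedgeEnd q x y ∈ LLV q := by
  rw [mem_LLV]
  intro z w
  simp only [wedgeEnd_apply, map_sub, map_smul, LinearMap.sub_apply, LinearMap.smul_apply,
    smul_eq_mul]
  rw [mukai_symm q hq y w, mukai_symm q hq x w]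
  ring

/-- the element `z ↦ (z, x) y - (z, y) x` of the LLV algebra -/
def wedge (q : LinearMap.BilinForm ℂ V) (hq : ∀ x y, q x y = q y x) (x y : V × ℂ × ℂ) : LLV q :=
  ⟨wedgeEnd q x y, wedgeEnd_mem q hq x y⟩

/-- the degree element: `-1` on `α`, `1` on `β`, `0` on `V`; on the cohomology of a hyperkaehler
manifold of dimension `2 n` it acts on `H^{2k}` by `k - n` -/
def degree (q : LinearMap.BilinForm ℂ V) (hq : ∀ x y, q x y = q y x) : LLV q :=
  wedge q hq (0, 1, 0) (0, 0, 1)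

/-- the Hodge element of an isotropic pair `s, s'`, `q(s, s') = 1` of `V`: `1` on `s`, `-1` on
`s'`, `0` on their orthogonal complement. If `s` spans `H^{2,0}` and `s'` spans `H^{0,2}`, then it
acts on `H^{p,r}` by `(p - r) / 2`. -/
def hodge (q : LinearMap.BilinForm ℂ V) (hq : ∀ x y, q x y = q y x) (s s' : V) : LLV q :=
  wedge q hq (s', 0, 0) (s, 0, 0)

/-- an endomorphism of `V`, extended by `0` to the Mukai extension -/
def extendEnd (N : Module.End ℂ V) : Module.End ℂ (V × ℂ × ℂ) :=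
  LinearMap.prodMap N (0 : Module.End ℂ (ℂ × ℂ))

lemma extendEnd_apply (N : Module.End ℂ V) (x : V × ℂ × ℂ) : extendEnd N x = (N x.1, 0) := rfl

lemma extendEnd_mem (q : LinearMap.BilinForm ℂ V) (N : Module.End ℂ V)
    (hN : ∀ x y, q (N x) y = - q x (N y)) : extendEnd N ∈ LLV q := by
  rw [mem_LLV]
  intro x y
  rw [mukai_apply, mukai_apply, extendEnd_apply, extendEnd_apply]
  simp [hN]

/-- the element of the LLV algebra given by an element `N` of `so(V, q)` -/
def extend (q : LinearMap.BilinForm ℂ V) (N : Module.End ℂ V)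
    (hN : ∀ x y, q (N x) y = - q x (N y)) : LLV q :=
  ⟨extendEnd N, extendEnd_mem q N hN⟩

/-- the piece `H^{2k}` of a representation of the LLV algebra -/
def coh (q : LinearMap.BilinForm ℂ V) (hq : ∀ x y, q x y = q y x)
    (ρ : LLV q →ₗ⁅ℂ⁆ Module.End ℂ H) (n k : ℕ) : Submodule ℂ H :=
  Module.End.eigenspace (ρ (degree q hq)) ((k : ℂ) - n)

/-- the piece `H^{p,r}` of a representation of the LLV algebra -/
def piece (q : LinearMap.BilinForm ℂ V) (hq : ∀ x y, q x y = q y x) (s s' : V)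
    (ρ : LLV q →ₗ⁅ℂ⁆ Module.End ℂ H) (n p r : ℕ) : Submodule ℂ H :=
  Module.End.eigenspace (ρ (degree q hq)) (((p : ℂ) + r) / 2 - n) ⊓
    Module.End.eigenspace (ρ (hodge q hq s s')) (((p : ℂ) - r) / 2)

/-- The properties of the even cohomology `H` of a hyperkaehler manifold of complex dimension `2 n`
as a module over the LLV algebra which are used: the Hodge decomposition `H = ⊕ H^{p,r}`,
`0 ≤ p, r ≤ 2 n`, `p + r` even, is given by the degree element and the Hodge element of an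
isotropic pair of `V = H²`; `h^{2k,0} ≤ 1` for `k ≤ n`; `H^{0,0} ≠ 0`. -/
structure IsHK (q : LinearMap.BilinForm ℂ V) (hq : ∀ x y, q x y = q y x) (s s' : V)
    (ρ : LLV q →ₗ⁅ℂ⁆ Module.End ℂ H) (n : ℕ) : Prop where
  nondeg : ∀ x, (∀ y, q x y = 0) → x = 0
  iso : q s s = 0
  iso' : q s' s' = 0
  pair : q s s' = 1
  hodge_decomposition : ⨆ (p : ℕ) (r : ℕ) (_ : p ≤ 2 * n ∧ r ≤ 2 * n ∧ Even (p + r)),
    piece q hq s s' ρ n p r = ⊤
  line : ∀ k ≤ n, Module.finrank ℂ (piece q hq s s' ρ n (2 * k) 0) ≤ 1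
  unit : piece q hq s s' ρ n 0 0 ≠ ⊥

/-- the index of nilpotence of (the element of the LLV algebra given by) `N` on `H^{2k}` -/
def nilp (q : LinearMap.BilinForm ℂ V) (hq : ∀ x y, q x y = q y x)
    (ρ : LLV q →ₗ⁅ℂ⁆ Module.End ℂ H) (n : ℕ) (N : Module.End ℂ V)
    (hN : ∀ x y, q (N x) y = - q x (N y)) (k : ℕ) : ℕ :=
  sSup {i : ℕ | ∃ x ∈ coh q hq ρ n k, (ρ (extend q N hN) ^ i) x ≠ 0}

end Pool.Agent.MP_55e6de_ag
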