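import Mathlib
import Pool.Agent.Lib.MP_55e6de_ag.Defs
import Pool.Agent.Lib.MP_55e6de_ag.Cj
import Pool.Agent.Lib.MP_55e6de_ag.Core

/-!
# MP_55e6de_ag NG, module Chain: from the Hodge operator to the operator of any isotropic pair
-/

set_option autoImplicit false

noncomputable section

namespace Pool.Agent.MP_55e6de_ag

attribute [local instance 100] LieRing.ofAssociativeRing

section abstract

variable {U M : Type*} [AddCommGroup U] [Module ℂ U] [AddCommGroup M] [Module ℂ M]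
  [FiniteDimensional ℂ M]
  {Q : LinearMap.BilinForm ℂ U} {R : U →ₗ[ℂ] U →ₗ[ℂ] Module.End ℂ M}

lemma move (h : Rep Q R) (u x y : U) (huu : Q u u = 0) (hx : Q x u = 1) (hy : Q y u = 1) :
    ∃ G G' : Module.End ℂ M, G * G' = 1 ∧ G' * G = 1 ∧ G * R u x = R u y * G ∧
      ∀ Z : Module.End ℂ M, Z * R u (y - x) = R u (y - x) * Z → Z * G = G * Z := by
  have h1 : R u (y - x) * R u x - R u x * R u (y - x) = R u (y - x) := by
    have e1 : Q u (y - x) = 0 := by
      rw [map_sub, h.symm u y, h.symm u x, hx, hy, sub_self]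
    rw [h.br, huu, e1, hx, h.self]
    simp
  obtain ⟨G, G', g1, g2, g3, g4⟩ := conj_of_comm _ _ h1
  refine ⟨G, G', g1, g2, ?_, g4⟩
  rw [g3, map_sub, add_sub_cancel]

lemma Dec.move1 (h : Rep Q R) {α β : U} {n : ℕ} (u x y : U) (huu : Q u u = 0) (hx : Q x u = 1)
    (hy : Q y u = 1) (hu : Q u α = 0 ∧ Q u β = 0) (hx' : Q x α = 0 ∧ Q x β = 0)
    (hy' : Q y α = 0 ∧ Q y β = 0) (hD : Dec (R α β) (R u x) n) : Dec (R α β) (R u y) n := by
  obtain ⟨G, G', g1, g2, g3, g4⟩ := move h u x y huu hx hy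
  refine hD.conj G G' g1 g2 g3 (g4 _ ?_)
  rw [← sub_eq_zero, h.cart β α u (y - x) 0 0 (by simp [hu.1, hu.2])
    (by simp [hx'.1, hx'.2, hy'.1, hy'.2])]
  simp

lemma Dec.move2 (h : Rep Q R) {α β : U} {n : ℕ} (u x y : U) (huu : Q u u = 0) (hx : Q x u = 1)
    (hy : Q y u = 1) (hu : Q u α = 0 ∧ Q u β = 0) (hx' : Q x α = 0 ∧ Q x β = 0)
    (hy' : Q y α = 0 ∧ Q y β = 0) (hD : Dec (R α β) (R x u) n) : Dec (R α β) (R y u) n := by
  obtain ⟨G, G', g1, g2, g3, g4⟩ := move h u x y huu hx hy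
  refine hD.conj G G' g1 g2 ?_ (g4 _ ?_)
  · rw [h.skew x u, h.skew y u, mul_neg, neg_mul, g3]
  rw [← sub_eq_zero, h.cart β α u (y - x) 0 0 (by simp [hu.1, hu.2])
    (by simp [hx'.1, hx'.2, hy'.1, hy'.2])]
  simp

lemma Dec.chain (h : Rep Q R) {α β : U} {n : ℕ} (s s' e e' t : U) (hss : Q s s = 0)
    (hs : Q s s' = 1) (hee : Q e e = 0) (he : Q e e' = 1) (htt : Q t t = 0) (hts : Q t s ≠ 0)
    (hte : Q t e ≠ 0) (h1 : Q s α = 0 ∧ Q s β = 0) (h2 : Q s' α = 0 ∧ Q s' β = 0)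
    (h3 : Q e α = 0 ∧ Q e β = 0) (h4 : Q e' α = 0 ∧ Q e' β = 0) (h5 : Q t α = 0 ∧ Q t β = 0)
    (hD : Dec (R α β) (R s' s) n) : Dec (R α β) (R e' e) n := by
  have hD1 : Dec (R α β) (R ((Q t s)⁻¹ • t) s) n := by
    refine hD.move2 h s s' ((Q t s)⁻¹ • t) hss (by rw [h.symm, hs]) ?_ h1 h2 (by simp [h5.1, h5.2])
    simp [hts]
  have e1 : R ((Q t s)⁻¹ • t) s = R t ((Q t s)⁻¹ • s) := by simp
  rw [e1] at hD1
  have hD2 : Dec (R α β) (R t ((Q t e)⁻¹ • e)) n := by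
    refine hD1.move1 h t _ _ htt ?_ ?_ h5 (by simp [h1.1, h1.2]) (by simp [h3.1, h3.2])
    · simp [h.symm s t, hts]
    · simp [h.symm e t, hte]
  have e2 : R t ((Q t e)⁻¹ • e) = R ((Q t e)⁻¹ • t) e := by simp
  rw [e2] at hD2
  refine hD2.move2 h e _ e' hee ?_ (by rw [h.symm, he]) h3 (by simp [h5.1, h5.2]) h4
  simp [hte]

end abstract

section concrete

variable {V H : Type*} [AddCommGroup V] [Module ℂ V] [AddCommGroup H] [Module ℂ H]
  (q : LinearMap.BilinForm ℂ V) (hq : ∀ x y, q x y = q y x)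
  (ρ : LLV q →ₗ⁅ℂ⁆ Module.End ℂ H)

private lemma LLV_ext {q : LinearMap.BilinForm ℂ V} (X Y : LLV q) (h : ∀ z, X.1 z = Y.1 z) :
    X = Y := Subtype.ext (LinearMap.ext h)

private lemma LLV_add {q : LinearMap.BilinForm ℂ V} (X Y : LLV q) (z : V × ℂ × ℂ) :
    (X + Y).1 z = X.1 z + Y.1 z := rfl

private lemma LLV_sub {q : LinearMap.BilinForm ℂ V} (X Y : LLV q) (z : V × ℂ × ℂ) :
    (X - Y).1 z = X.1 z - Y.1 z := rfl

private lemma LLV_neg {q : LinearMap.BilinForm ℂ V} (X : LLV q) (z : V × ℂ × ℂ) :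
    (-X).1 z = -X.1 z := rfl

private lemma LLV_smul {q : LinearMap.BilinForm ℂ V} (c : ℂ) (X : LLV q) (z : V × ℂ × ℂ) :
    (c • X).1 z = c • X.1 z := rfl

private lemma LLV_lie {q : LinearMap.BilinForm ℂ V} (X Y : LLV q) (z : V × ℂ × ℂ) :
    ⁅X, Y⁆.1 z = X.1 (Y.1 z) - Y.1 (X.1 z) := rfl

lemma wedge_coe (x y z : V × ℂ × ℂ) :
    (wedge q hq x y).1 z = mukai q z x • y - mukai q z y • x := rfl

/-- the operators of the elements `z ↦ (z, x) y - (z, y) x` -/
def repR : (V × ℂ × ℂ) →ₗ[ℂ] (V × ℂ × ℂ) →ₗ[ℂ] Module.End ℂ H :=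
  LinearMap.mk₂ ℂ (fun x y => ρ (wedge q hq x y))
    (by
      intro x x' y
      rw [← map_add]
      refine congrArg ρ (LLV_ext _ _ fun z => ?_)
      rw [LLV_add]
      simp only [wedge_coe, map_add, smul_add, add_smul]
      abel)
    (by
      intro c x y
      rw [← map_smul]
      refine congrArg ρ (LLV_ext _ _ fun z => ?_)
      rw [LLV_smul]
      simp only [wedge_coe, map_smul, smul_sub, smul_smul, smul_eq_mul, mul_comm c])
    (by
      intro x y y'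
      rw [← map_add]
      refine congrArg ρ (LLV_ext _ _ fun z => ?_)
      rw [LLV_add]
      simp only [wedge_coe, map_add, smul_add, add_smul]
      abel)
    (by
      intro c x y
      rw [← map_smul]
      refine congrArg ρ (LLV_ext _ _ fun z => ?_)
      rw [LLV_smul]
      simp only [wedge_coe, map_smul, smul_sub, smul_smul, smul_eq_mul, mul_comm c])

lemma repR_apply (x y : V × ℂ × ℂ) : repR q hq ρ x y = ρ (wedge q hq x y) := rfl

lemma repR_rep : Rep (mukai q) (repR q hq ρ) := by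
  refine ⟨mukai_symm q hq, ?_, ?_⟩
  · intro x y
    rw [repR_apply, repR_apply, ← map_neg]
    refine congrArg ρ (LLV_ext _ _ fun z => ?_)
    rw [LLV_neg]
    simp only [wedge_coe]
    abel
  · intro u w x y
    simp only [repR_apply]
    rw [← Ring.lie_def, ← LieHom.map_lie]
    simp only [← map_smul, ← map_sub, ← map_add]
    refine congrArg ρ (LLV_ext _ _ fun z => ?_)
    rw [LLV_lie]
    simp only [LLV_add, LLV_sub, LLV_smul, wedge_coe, map_sub, map_smul, smul_sub, smul_smul]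
    rw [mukai_symm q hq y u, mukai_symm q hq y w, mukai_symm q hq x u, mukai_symm q hq x w]
    module

end concrete

end Pool.Agent.MP_55e6de_ag
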