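import Mathlib
import Pool.Agent.Lib.MP_55e6de_ag.Chain

/-!
# MP_55e6de_ag NG, module HnA: two additions on representations of `sl₂` and of `so`

* `Sl2.fe`: if `F E z = 0` and `z ≠ 0` is an eigenvector of `K`, then the eigenvalue is a natural
  number (`E F^(i+1) z = (i+1) (μ - i) F^i z`).
* `Conj3`: the operators `W1` and `W1'` are conjugate by an operator which commutes with `W0`. Then
  the joint eigenspaces of `W0, W1` and of `W0, W1'` have the same dimensions.
* `Conj3.chain`: this holds for `R α β`, `R s' s`, `R e' e` for two isotropic pairs.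
-/

set_option autoImplicit false

noncomputable section

namespace Pool.Agent.MP_55e6de_ag

section sl2

variable {M : Type*} [AddCommGroup M] [Module ℂ M] [FiniteDimensional ℂ M]

theorem Sl2.fe {E F K : Module.End ℂ M} (h : Sl2 E F K) (v : M) (hv : v ≠ 0)
    (hFE : F (E v) = 0) (l : ℂ) (hK : K v = l • v) : ∃ m : ℕ, l = m := by
  have hKF : ∀ i : ℕ, K ((F ^ i) v) = (l - 2 * (i : ℂ)) • (F ^ i) v := by
    intro i
    induction i with
    | zero => simpa using hK
    | succ i ih =>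
      have h1 := LinearMap.congr_fun h.kf ((F ^ i) v)
      simp only [LinearMap.sub_apply, Module.End.mul_apply, LinearMap.neg_apply,
        LinearMap.smul_apply] at h1
      rw [sub_eq_iff_eq_add, ih, map_smul] at h1
      rw [pow_succ', Module.End.mul_apply, h1]
      push_cast
      module
  have hEF : ∀ i : ℕ, E ((F ^ (i + 1)) v) = (((i : ℂ) + 1) * (l - i)) • (F ^ i) v := by
    intro i
    induction i with
    | zero =>
      have h1 := LinearMap.congr_fun h.ef v
      simp only [LinearMap.sub_apply, Module.End.mul_apply] at h1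
      rw [hFE, sub_zero, hK] at h1
      simp [h1]
    | succ i ih =>
      have h1 := LinearMap.congr_fun h.ef ((F ^ (i + 1)) v)
      simp only [LinearMap.sub_apply, Module.End.mul_apply] at h1
      rw [sub_eq_iff_eq_add, ih, map_smul, hKF] at h1
      have h2 : F ((F ^ i) v) = (F ^ (i + 1)) v := by rw [pow_succ', Module.End.mul_apply]
      rw [h2] at h1
      have h3 : (F ^ (i + 1 + 1)) v = F ((F ^ (i + 1)) v) := by
        rw [pow_succ', Module.End.mul_apply]
      rw [h3, h1]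
      push_cast
      module
  obtain ⟨N, hN⟩ := nil_of_comm K F (-2) (by norm_num) (by rw [h.kf, neg_smul])
  have hex : ∃ n : ℕ, (F ^ n) v = 0 := ⟨N, by rw [hN, LinearMap.zero_apply]⟩
  classical
  have h0 := Nat.find_spec hex
  obtain ⟨m, hm⟩ : ∃ m, Nat.find hex = m + 1 := by
    refine Nat.exists_eq_succ_of_ne_zero fun h00 => ?_
    rw [h00] at h0
    exact hv (by simpa using h0)
  have hne : ∀ i ≤ m, (F ^ i) v ≠ 0 := fun i hi => Nat.find_min hex (by omega)
  refine ⟨m, ?_⟩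
  rw [hm] at h0
  have h1 := hEF m
  rw [h0, map_zero] at h1
  rcases smul_eq_zero.mp h1.symm with h2 | h2
  · rcases mul_eq_zero.mp h2 with h3 | h3
    · exfalso
      have : ((m + 1 : ℕ) : ℂ) = 0 := by exact_mod_cast h3
      exact Nat.cast_ne_zero.mpr (Nat.succ_ne_zero m) this
    · exact sub_eq_zero.mp h3
  · exact absurd h2 (hne m le_rfl)

end sl2

section conj

variable {U M : Type*} [AddCommGroup U] [Module ℂ U] [AddCommGroup M] [Module ℂ M]

/-- `W1` and `W1'` are conjugate by an operator which commutes with `W0` -/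
def Conj3 (W0 W1 W1' : Module.End ℂ M) : Prop :=
  ∃ G G' : Module.End ℂ M, G * G' = 1 ∧ G' * G = 1 ∧ G * W1 = W1' * G ∧ W0 * G = G * W0

lemma Conj3.trans {W0 W1 W1' W1'' : Module.End ℂ M} (h : Conj3 W0 W1 W1')
    (h' : Conj3 W0 W1' W1'') : Conj3 W0 W1 W1'' := by
  obtain ⟨G, G', a1, a2, a3, a4⟩ := h
  obtain ⟨L, L', b1, b2, b3, b4⟩ := h'
  refine ⟨L * G, G' * L', ?_, ?_, ?_, ?_⟩
  · rw [mul_assoc, ← mul_assoc G, a1, one_mul, b1]
  · rw [mul_assoc, ← mul_assoc L', b2, one_mul, a2]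
  · rw [mul_assoc, a3, ← mul_assoc, b3, mul_assoc]
  · rw [← mul_assoc, b4, mul_assoc, a4, mul_assoc]

/-- the joint eigenspaces have the same dimensions -/
lemma Conj3.finrank_eq {W0 W1 W1' : Module.End ℂ M} (h : Conj3 W0 W1 W1') (x y : ℂ) :
    Module.finrank ℂ (Module.End.eigenspace W0 x ⊓ Module.End.eigenspace W1 y : Submodule ℂ M) =
      Module.finrank ℂ
        (Module.End.eigenspace W0 x ⊓ Module.End.eigenspace W1' y : Submodule ℂ M) := by
  obtain ⟨G, G', h1, h2, h3, h4⟩ := h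
  have k1 : ∀ v, G (G' v) = v := fun v => by
    rw [← Module.End.mul_apply, h1, Module.End.one_apply]
  have k2 : ∀ v, G' (G v) = v := fun v => by
    rw [← Module.End.mul_apply, h2, Module.End.one_apply]
  have k3 : ∀ v, G (W1 v) = W1' (G v) := fun v => by
    rw [← Module.End.mul_apply, h3, Module.End.mul_apply]
  have k4 : ∀ v, W0 (G v) = G (W0 v) := fun v => by
    rw [← Module.End.mul_apply, h4, Module.End.mul_apply]
  let e : M ≃ₗ[ℂ] M := LinearEquiv.ofLinear G G' h1 h2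
  have he : ∀ v, e v = G v := fun v => rfl
  have hmap : (Module.End.eigenspace W0 x ⊓ Module.End.eigenspace W1 y : Submodule ℂ M).map
      (e : M →ₗ[ℂ] M) = Module.End.eigenspace W0 x ⊓ Module.End.eigenspace W1' y := by
    ext w
    rw [Submodule.mem_map]
    constructor
    · rintro ⟨v, hv, rfl⟩
      rw [Submodule.mem_inf, Module.End.mem_eigenspace_iff, Module.End.mem_eigenspace_iff] at hv ⊢
      change W0 (G v) = x • G v ∧ W1' (G v) = y • G v
      rw [k4, hv.1, map_smul, ← k3, hv.2, map_smul]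
      exact ⟨rfl, rfl⟩
    · intro hw
      rw [Submodule.mem_inf, Module.End.mem_eigenspace_iff, Module.End.mem_eigenspace_iff] at hw
      refine ⟨G' w, ?_, k1 w⟩
      rw [Submodule.mem_inf, Module.End.mem_eigenspace_iff, Module.End.mem_eigenspace_iff]
      constructor
      · rw [← k2 (W0 (G' w)), ← k4, k1, hw.1, map_smul]
      · rw [← k2 (W1 (G' w)), k3, k1, hw.2, map_smul]
  rw [← hmap]
  exact (LinearEquiv.finrank_map_eq e _).symm

variable [FiniteDimensional ℂ M]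
  {Q : LinearMap.BilinForm ℂ U} {R : U →ₗ[ℂ] U →ₗ[ℂ] Module.End ℂ M}

lemma Conj3.move1 (h : Rep Q R) {α β : U} (u x y : U) (huu : Q u u = 0) (hx : Q x u = 1)
    (hy : Q y u = 1) (hu : Q u α = 0 ∧ Q u β = 0) (hx' : Q x α = 0 ∧ Q x β = 0)
    (hy' : Q y α = 0 ∧ Q y β = 0) : Conj3 (R α β) (R u x) (R u y) := by
  obtain ⟨G, G', g1, g2, g3, g4⟩ := move h u x y huu hx hy
  refine ⟨G, G', g1, g2, g3, (g4 _ ?_)⟩
  rw [← sub_eq_zero, h.cart β α u (y - x) 0 0 (by simp [hu.1, hu.2])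
    (by simp [hx'.1, hx'.2, hy'.1, hy'.2])]
  simp

lemma Conj3.move2 (h : Rep Q R) {α β : U} (u x y : U) (huu : Q u u = 0) (hx : Q x u = 1)
    (hy : Q y u = 1) (hu : Q u α = 0 ∧ Q u β = 0) (hx' : Q x α = 0 ∧ Q x β = 0)
    (hy' : Q y α = 0 ∧ Q y β = 0) : Conj3 (R α β) (R x u) (R y u) := by
  obtain ⟨G, G', g1, g2, g3, g4⟩ := Conj3.move1 h u x y huu hx hy hu hx' hy'
  exact ⟨G, G', g1, g2, by rw [h.skew x u, h.skew y u, mul_neg, neg_mul, g3], g4⟩

lemma Conj3.chain (h : Rep Q R) {α β : U} (s s' e e' t : U) (hss : Q s s = 0)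
    (hs : Q s s' = 1) (hee : Q e e = 0) (he : Q e e' = 1) (htt : Q t t = 0) (hts : Q t s ≠ 0)
    (hte : Q t e ≠ 0) (h1 : Q s α = 0 ∧ Q s β = 0) (h2 : Q s' α = 0 ∧ Q s' β = 0)
    (h3 : Q e α = 0 ∧ Q e β = 0) (h4 : Q e' α = 0 ∧ Q e' β = 0) (h5 : Q t α = 0 ∧ Q t β = 0) :
    Conj3 (R α β) (R s' s) (R e' e) := by
  have hD1 : Conj3 (R α β) (R s' s) (R ((Q t s)⁻¹ • t) s) := by
    refine Conj3.move2 h s s' ((Q t s)⁻¹ • t) hss (by rw [h.symm, hs]) ?_ h1 h2
      (by simp [h5.1, h5.2])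
    simp [hts]
  have e1 : R ((Q t s)⁻¹ • t) s = R t ((Q t s)⁻¹ • s) := by simp
  rw [e1] at hD1
  have hD2 : Conj3 (R α β) (R t ((Q t s)⁻¹ • s)) (R t ((Q t e)⁻¹ • e)) := by
    refine Conj3.move1 h t _ _ htt ?_ ?_ h5 (by simp [h1.1, h1.2]) (by simp [h3.1, h3.2])
    · simp [h.symm s t, hts]
    · simp [h.symm e t, hte]
  have e2 : R t ((Q t e)⁻¹ • e) = R ((Q t e)⁻¹ • t) e := by simp
  rw [e2] at hD2
  refine (hD1.trans hD2).trans ?_
  refine Conj3.move2 h e _ e' hee ?_ (by rw [h.symm, he]) h3 (by simp [h5.1, h5.2]) h4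
  simp [hte]

end conj

end Pool.Agent.MP_55e6de_ag
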