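import Mathlib

/-!
# MP_55e6de_ag NG, module LinB: non-isotropic vectors in orthogonal complements

* `non_iso`: let `K` be the orthogonal complement of the `p i`, `p' i`. If `q` vanished on the
  diagonal of `K`, it would vanish on `K × K` (polarisation); `K ≠ 0` by dimension; for `z' ∈ K`,
  `z' ≠ 0` and any `z`: `q (z, z') = q (u, z')` with `u = z - ∑ (q (z, p' i) p i + q (z, p i) p' i)
  ∈ K`, so `q (z, z') = 0`: contradiction to nondegeneracy.
* `common`: if `q (e, s') ≠ 0` take `t = s'`; if `q (s, e') ≠ 0` take `t = e'`. Let both be `0`. If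
  `q (e, s) = 0` take `t = s' + e' - q (s', e') e`. If `q (e, s) ≠ 0` take `u` from `non_iso` for
  the pair `s, s'` and `t = s' - (q (u, u) / 2) s + u` or `t = s' - (q (u, u) / 2) s - u`.
-/

set_option autoImplicit false

noncomputable section

namespace Pool.Agent.MP_55e6de_ag

variable {V : Type*} [AddCommGroup V] [Module ℂ V] [FiniteDimensional ℂ V]
  (q : LinearMap.BilinForm ℂ V) (hq : ∀ x y, q x y = q y x)
  (hnd : ∀ x, (∀ y, q x y = 0) → x = 0)

include hq hnd

theorem non_iso {ι : Type*} [Fintype ι] [DecidableEq ι] (p p' : ι → V)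
    (hp : ∀ i j, q (p i) (p j) = 0) (hp' : ∀ i j, q (p' i) (p' j) = 0)
    (hpp : ∀ i j, q (p i) (p' j) = if i = j then 1 else 0)
    (hdim : 2 * Fintype.card ι < Module.finrank ℂ V) :
    ∃ u : V, (∀ i, q u (p i) = 0) ∧ (∀ i, q u (p' i) = 0) ∧ q u u ≠ 0 := by
  by_contra hcon
  push Not at hcon
  have hK : ∀ u v : V, (∀ i, q u (p i) = 0) → (∀ i, q u (p' i) = 0) → (∀ i, q v (p i) = 0) →
      (∀ i, q v (p' i) = 0) → q u v = 0 := by
    intro u v h1 h2 h3 h4
    have e1 := hcon u h1 h2
    have e2 := hcon v h3 h4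
    have e3 := hcon (u + v) (fun i => by rw [map_add, LinearMap.add_apply, h1, h3, add_zero])
      (fun i => by rw [map_add, LinearMap.add_apply, h2, h4, add_zero])
    simp only [map_add, LinearMap.add_apply] at e3
    have e4 := hq v u
    have e5 : 2 * q u v = 0 := by linear_combination e3 - e1 - e2 - e4
    simpa using e5
  let P : V → V := fun z => z - ∑ i, (q z (p' i) • p i + q z (p i) • p' i)
  have hP1 : ∀ z j, q (P z) (p j) = 0 := by
    intro z j
    simp only [P, map_sub, map_sum, map_add, map_smul, LinearMap.sub_apply,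
      LinearMap.sum_apply, LinearMap.add_apply, LinearMap.smul_apply, smul_eq_mul, hp]
    have h1 : ∀ i, q (p' i) (p j) = if j = i then 1 else 0 := fun i => by rw [hq, hpp]
    simp [h1]
  have hP2 : ∀ z j, q (P z) (p' j) = 0 := by
    intro z j
    simp only [P, map_sub, map_sum, map_add, map_smul, LinearMap.sub_apply,
      LinearMap.sum_apply, LinearMap.add_apply, LinearMap.smul_apply, smul_eq_mul, hp', hpp]
    simp
  have hzero : ∀ z' : V, (∀ i, q z' (p i) = 0) → (∀ i, q z' (p' i) = 0) → z' = 0 := by
    intro z' h1 h2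
    refine hnd z' fun z => ?_
    have h3 := hK z' (P z) h1 h2 (hP1 z) (hP2 z)
    simp only [P, map_sub, map_sum, map_add, map_smul, smul_eq_mul, h1, h2] at h3
    simpa using h3
  have hspan : Submodule.span ℂ (Set.range (Sum.elim p p')) = ⊤ := by
    rw [eq_top_iff]
    intro z _
    have h1 : P z = 0 := hzero (P z) (hP1 z) (hP2 z)
    have h2 : z = ∑ i, (q z (p' i) • p i + q z (p i) • p' i) := sub_eq_zero.1 h1
    rw [h2]
    refine Submodule.sum_mem _ fun i _ => Submodule.add_mem _ ?_ ?_
    · exact Submodule.smul_mem _ _ (Submodule.subset_span ⟨Sum.inl i, rfl⟩)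
    · exact Submodule.smul_mem _ _ (Submodule.subset_span ⟨Sum.inr i, rfl⟩)
  have hle := finrank_range_le_card (R := ℂ) (Sum.elim p p')
  rw [Set.finrank, hspan, finrank_top, Fintype.card_sum] at hle
  omega

theorem common (s s' e e' : V) (hss : q s s = 0) (hss' : q s' s' = 0) (h1 : q s s' = 1)
    (hee : q e e = 0) (hee' : q e' e' = 0) (h2 : q e e' = 1) (hdim : 2 < Module.finrank ℂ V) :
    ∃ t : V, q t t = 0 ∧ q t s ≠ 0 ∧ q t e ≠ 0 := by
  have h1' : q s' s = 1 := by rw [hq, h1]
  have h2' : q e' e = 1 := by rw [hq, h2]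
  by_cases ha : q s' e = 0
  swap
  · exact ⟨s', hss', by rw [h1']; exact one_ne_zero, ha⟩
  by_cases hb : q e' s = 0
  swap
  · exact ⟨e', hee', hb, by rw [h2']; exact one_ne_zero⟩
  have ha' : q e s' = 0 := by rw [hq, ha]
  have hb' : q s e' = 0 := by rw [hq, hb]
  by_cases hc : q s e = 0
  · have hc' : q e s = 0 := by rw [hq, hc]
    have hse : q e' s' = q s' e' := hq _ _
    refine ⟨s' + e' - q s' e' • e, ?_, ?_, ?_⟩
    · simp only [map_sub, map_add, map_smul, LinearMap.sub_apply, LinearMap.add_apply,
        LinearMap.smul_apply, smul_eq_mul, hss', hee', hee, h2, h2', ha, ha', hse]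
      ring
    · simp only [map_sub, map_add, map_smul, LinearMap.sub_apply, LinearMap.add_apply,
        LinearMap.smul_apply, smul_eq_mul, h1', hb, hc']
      norm_num
    · simp only [map_sub, map_add, map_smul, LinearMap.sub_apply, LinearMap.add_apply,
        LinearMap.smul_apply, smul_eq_mul, ha, h2', hee]
      norm_num
  · obtain ⟨u, hu1, hu2, hu3⟩ := non_iso q hq hnd (ι := Unit) (fun _ => s) (fun _ => s')
      (fun _ _ => hss) (fun _ _ => hss') (fun i j => by simp [h1]) (by simpa using hdim)
    have hus : q u s = 0 := hu1 ()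
    have hus' : q u s' = 0 := hu2 ()
    have hsu : q s u = 0 := by rw [hq, hus]
    have hsu' : q s' u = 0 := by rw [hq, hus']
    have key : ∀ c : ℂ, c ^ 2 = 1 →
        q (s' - (q u u / 2) • s + c • u) (s' - (q u u / 2) • s + c • u) = 0 := by
      intro c hc2
      simp only [map_sub, map_add, map_smul, LinearMap.sub_apply, LinearMap.add_apply,
        LinearMap.smul_apply, smul_eq_mul, hss', hss, h1, h1', hus, hus', hsu, hsu']
      linear_combination (q u u) * hc2
    have key2 : ∀ c : ℂ, q (s' - (q u u / 2) • s + c • u) s = 1 := by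
      intro c
      simp only [map_sub, map_add, map_smul, LinearMap.sub_apply, LinearMap.add_apply,
        LinearMap.smul_apply, smul_eq_mul, hss, h1', hus]
      ring
    have key3 : ∀ c : ℂ, q (s' - (q u u / 2) • s + c • u) e =
        -(q u u / 2) * q s e + c * q u e := by
      intro c
      simp only [map_sub, map_add, map_smul, LinearMap.sub_apply, LinearMap.add_apply,
        LinearMap.smul_apply, smul_eq_mul, ha]
      ring
    by_cases hd : q (s' - (q u u / 2) • s + (1 : ℂ) • u) e = 0
    · refine ⟨s' - (q u u / 2) • s + (-1 : ℂ) • u, key (-1) (by norm_num), ?_, ?_⟩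
      · rw [key2]
        exact one_ne_zero
      · intro hd'
        rw [key3] at hd hd'
        have h5 : q u u * q s e = 0 := by linear_combination (-1 : ℂ) * hd - hd'
        rcases mul_eq_zero.1 h5 with h | h
        · exact hu3 h
        · exact hc h
    · refine ⟨s' - (q u u / 2) • s + (1 : ℂ) • u, key 1 (by norm_num), ?_, hd⟩
      rw [key2]
      exact one_ne_zero

end Pool.Agent.MP_55e6de_ag
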