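import Mathlib
import Pool.Agent.Lib.MP_55e6de_ag.LinB

/-!
# MP_55e6de_ag NG, module HnB: more hyperbolic pairs

* `one_pair`: if `2 k + 2 ≤ dim V`, then there is one more hyperbolic pair orthogonal to `k` given
  orthogonal hyperbolic pairs. Let `C` be the orthogonal complement of the pairs; take a
  non-isotropic `u ∈ C` and `w ∈ C` which is not a multiple of `u`; for a root `t` of a quadratic
  equation `x = w + t u` is isotropic; the projection of a vector which is not orthogonal to `x`
  gives the second vector.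
* `more_pairs`: `l` more pairs.
-/

set_option autoImplicit false

noncomputable section

namespace Pool.Agent.MP_55e6de_ag

variable {V : Type*} [AddCommGroup V] [Module ℂ V] [FiniteDimensional ℂ V]
  (q : LinearMap.BilinForm ℂ V) (hq : ∀ x y, q x y = q y x)
  (hnd : ∀ x, (∀ y, q x y = 0) → x = 0)

include hq hnd

theorem one_pair {ι : Type*} [Fintype ι] [DecidableEq ι] (p p' : ι → V)
    (hp : ∀ i j, q (p i) (p j) = 0) (hp' : ∀ i j, q (p' i) (p' j) = 0)
    (hpp : ∀ i j, q (p i) (p' j) = if i = j then 1 else 0)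
    (hdim : 2 * Fintype.card ι + 1 < Module.finrank ℂ V) :
    ∃ x x' : V, q x x = 0 ∧ q x' x' = 0 ∧ q x x' = 1 ∧ (∀ i, q x (p i) = 0) ∧
      (∀ i, q x (p' i) = 0) ∧ (∀ i, q x' (p i) = 0) ∧ (∀ i, q x' (p' i) = 0) := by
  obtain ⟨u, hu1, hu2, hu⟩ := non_iso q hq hnd p p' hp hp' hpp (by omega)
  let P : V → V := fun z => z - ∑ i, (q z (p' i) • p i + q z (p i) • p' i)
  have hP1 : ∀ z j, q (P z) (p j) = 0 := by
    intro z j
    simp only [P, map_sub, map_sum, map_add, map_smul, LinearMap.sub_apply,
      LinearMap.sum_apply, LinearMap.add_apply, LinearMap.smul_apply, smul_eq_mul, hp]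
    have h1 : ∀ i, q (p' i) (p j) = if j = i then 1 else 0 := fun i => by rw [hq, hpp]
    simp [h1]
  have hP2 : ∀ z j, q (P z) (p' j) = 0 := by
    intro z j
    simp only [P, map_sub, map_sum, map_add, map_smul, LinearMap.sub_apply,
      LinearMap.sum_apply, LinearMap.add_apply, LinearMap.smul_apply, smul_eq_mul, hp', hpp]
    simp
  have hP3 : ∀ x z, (∀ i, q x (p i) = 0) → (∀ i, q x (p' i) = 0) → q x (P z) = q x z := by
    intro x z h1 h2
    simp [P, h1, h2]
  -- a second vector
  obtain ⟨w, hw1, hw2, hw⟩ : ∃ w : V, (∀ i, q w (p i) = 0) ∧ (∀ i, q w (p' i) = 0) ∧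
      ∀ t : ℂ, w + t • u ≠ 0 := by
    by_contra hcon
    push Not at hcon
    have hspan : Submodule.span ℂ (Set.range (Sum.elim (Sum.elim p p') (fun _ : Unit => u))) =
        ⊤ := by
      rw [eq_top_iff]
      intro z _
      obtain ⟨t, ht⟩ := hcon (P z) (hP1 z) (hP2 z)
      have h2 : z = ∑ i, (q z (p' i) • p i + q z (p i) • p' i) + (-t) • u := by
        have h3 : P z = z - ∑ i, (q z (p' i) • p i + q z (p i) • p' i) := rfl
        rw [h3] at ht
        rw [neg_smul, ← sub_eq_add_neg, eq_sub_iff_add_eq]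
        have h4 := eq_neg_of_add_eq_zero_left ht
        rw [sub_eq_iff_eq_add] at h4
        nth_rewrite 1 [h4]
        abel
      rw [h2]
      refine Submodule.add_mem _ (Submodule.sum_mem _ fun i _ => Submodule.add_mem _ ?_ ?_) ?_
      · exact Submodule.smul_mem _ _ (Submodule.subset_span ⟨Sum.inl (Sum.inl i), rfl⟩)
      · exact Submodule.smul_mem _ _ (Submodule.subset_span ⟨Sum.inl (Sum.inr i), rfl⟩)
      · exact Submodule.smul_mem _ _ (Submodule.subset_span ⟨Sum.inr (), rfl⟩)
    have hle := finrank_range_le_card (R := ℂ) (Sum.elim (Sum.elim p p') (fun _ : Unit => u))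
    rw [Set.finrank, hspan, finrank_top, Fintype.card_sum, Fintype.card_sum,
      Fintype.card_unit] at hle
    omega
  -- an isotropic combination
  obtain ⟨s, hs⟩ := IsAlgClosed.exists_pow_nat_eq ((q w u) ^ 2 - q w w * q u u)
    (show 0 < 2 by norm_num)
  obtain ⟨t, ht⟩ : ∃ t : ℂ, t * q u u = - q w u + s := ⟨(- q w u + s) / q u u, by
    rw [div_mul_cancel₀ _ hu]⟩
  obtain ⟨x, hx⟩ : ∃ x, x = w + t • u := ⟨_, rfl⟩
  have hx0 : x ≠ 0 := by rw [hx]; exact hw t
  have hxx : q x x = 0 := by
    have h1 : q x x = q w w + 2 * t * q w u + t ^ 2 * q u u := by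
      rw [hx]
      simp only [map_add, map_smul, LinearMap.add_apply, LinearMap.smul_apply, smul_eq_mul,
        hq u w]
      ring
    have h2 : q u u * q x x = 0 := by
      rw [h1]
      linear_combination (t * q u u + q w u + s) * ht + hs
    exact (mul_eq_zero.1 h2).resolve_left hu
  have hx1 : ∀ i, q x (p i) = 0 := fun i => by
    rw [hx, map_add, map_smul, LinearMap.add_apply, LinearMap.smul_apply, hw1, hu1, smul_zero,
      add_zero]
  have hx2 : ∀ i, q x (p' i) = 0 := fun i => by
    rw [hx, map_add, map_smul, LinearMap.add_apply, LinearMap.smul_apply, hw2, hu2, smul_zero,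
      add_zero]
  -- its partner
  obtain ⟨z, hz⟩ : ∃ z, q x z ≠ 0 := by
    by_contra hcon
    push Not at hcon
    exact hx0 (hnd _ hcon)
  obtain ⟨y, hy⟩ : ∃ y, y = (q x z)⁻¹ • P z := ⟨_, rfl⟩
  have hxy : q x y = 1 := by
    rw [hy, map_smul, smul_eq_mul, hP3 x z hx1 hx2, inv_mul_cancel₀ hz]
  have hy1 : ∀ i, q y (p i) = 0 := fun i => by
    rw [hy, map_smul, LinearMap.smul_apply, hP1, smul_zero]
  have hy2 : ∀ i, q y (p' i) = 0 := fun i => by
    rw [hy, map_smul, LinearMap.smul_apply, hP2, smul_zero]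
  refine ⟨x, y - (q y y / 2) • x, hxx, ?_, ?_, hx1, hx2, ?_, ?_⟩
  · simp only [map_sub, map_smul, LinearMap.sub_apply, LinearMap.smul_apply, smul_eq_mul, hxx,
      hq y x, hxy]
    ring
  · simp only [map_sub, map_smul, smul_eq_mul, hxx, hxy]
    ring
  · intro i
    simp [hy1, hx1]
  · intro i
    simp [hy2, hx2]

theorem more_pairs (k l : ℕ) (p p' : ℕ → V)
    (hp : ∀ i < k, ∀ j < k, q (p i) (p j) = 0) (hp' : ∀ i < k, ∀ j < k, q (p' i) (p' j) = 0)
    (hpp : ∀ i < k, ∀ j < k, q (p i) (p' j) = if i = j then 1 else 0)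
    (hdim : 2 * (k + l) ≤ Module.finrank ℂ V) :
    ∃ P P' : ℕ → V, (∀ i < k + l, ∀ j < k + l, q (P i) (P j) = 0) ∧
      (∀ i < k + l, ∀ j < k + l, q (P' i) (P' j) = 0) ∧
      (∀ i < k + l, ∀ j < k + l, q (P i) (P' j) = if i = j then 1 else 0) ∧
      ∀ i < k, P i = p i ∧ P' i = p' i := by
  induction l with
  | zero => exact ⟨p, p', hp, hp', hpp, fun i _ => ⟨rfl, rfl⟩⟩
  | succ l ih =>
    obtain ⟨P, P', h1, h2, h3, h4⟩ := ih (by omega)
    obtain ⟨x, x', a1, a2, a3, a4, a5, a6, a7⟩ := one_pair q hq hnd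
      (fun i : Fin (k + l) => P i) (fun i : Fin (k + l) => P' i)
      (fun i j => h1 i i.2 j j.2) (fun i j => h2 i i.2 j j.2)
      (fun i j => by rw [h3 i i.2 j j.2]; simp only [Fin.ext_iff])
      (by rw [Fintype.card_fin]; omega)
    have b4 : ∀ i < k + l, q x (P i) = 0 := fun i hi => a4 ⟨i, hi⟩
    have b5 : ∀ i < k + l, q x (P' i) = 0 := fun i hi => a5 ⟨i, hi⟩
    have b6 : ∀ i < k + l, q x' (P i) = 0 := fun i hi => a6 ⟨i, hi⟩
    have b7 : ∀ i < k + l, q x' (P' i) = 0 := fun i hi => a7 ⟨i, hi⟩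
    refine ⟨fun i => if i = k + l then x else P i, fun i => if i = k + l then x' else P' i,
      ?_, ?_, ?_, ?_⟩
    · intro i hi j hj
      by_cases h5 : i = k + l <;> by_cases h6 : j = k + l
      · simp only [h5, h6, if_true, a1]
      · simp only [h5, h6, if_true, if_false]
        exact b4 j (by omega)
      · simp only [h5, h6, if_true, if_false]
        rw [hq]
        exact b4 i (by omega)
      · simp only [h5, h6, if_false]
        exact h1 i (by omega) j (by omega)
    · intro i hi j hj
      by_cases h5 : i = k + l <;> by_cases h6 : j = k + l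
      · simp only [h5, h6, if_true, a2]
      · simp only [h5, h6, if_true, if_false]
        exact b7 j (by omega)
      · simp only [h5, h6, if_true, if_false]
        rw [hq]
        exact b7 i (by omega)
      · simp only [h5, h6, if_false]
        exact h2 i (by omega) j (by omega)
    · intro i hi j hj
      by_cases h5 : i = k + l <;> by_cases h6 : j = k + l
      · simp only [h5, h6, if_true, a3]
      · have h7 : ¬ (k + l = j) := fun h => h6 h.symm
        simp only [h5, h6, h7, if_true, if_false]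
        exact b5 j (by omega)
      · simp only [h5, h6, if_true, if_false]
        rw [hq]
        exact b6 i (by omega)
      · simp only [h5, h6, if_false]
        exact h3 i (by omega) j (by omega)
    · intro i hi
      have h5 : i ≠ k + l := by omega
      simp only [h5, if_false]
      exact h4 i hi

end Pool.Agent.MP_55e6de_ag
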