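import Mathlib

/-!
# MP_55e6de_ag NG, module Lin: linear algebra of a nondegenerate symmetric form over `ℂ`

* `rank_two`: take `x₀` with `N x₀ ≠ 0`, `e := N x₀`; `q (e, x₀) = q (N x₀, x₀) = 0` by skewness.
  `e ≠ 0` and `q` is nondegenerate: there is `y` with `q (e, y) = 1`; `f := N y`. `q (f, y) = 0`,
  `q (f, x₀) = q (N y, x₀) = - q (y, e) = -1`. So `e, f` are independent and span the range of `N`.
  For any `x` write `N x = a e + b f`; pairing with `x₀`: `- b = q (N x, x₀) = - q (x, e)`; pairing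
  with `y`: `a = q (N x, y) = - q (x, f)`. As `N e = 0 = N f`, the plane is isotropic. Take `y` and
  `y' := - x₀`.
* `hyperbolic`: `e' := y - (q (y, y) / 2) e`, `f' := y' - q (y', e') e - (q (y', y') / 2) f`.
-/

set_option autoImplicit false

noncomputable section

namespace Pool.Agent.MP_55e6de_ag

variable {V : Type*} [AddCommGroup V] [Module ℂ V] [FiniteDimensional ℂ V]
  (q : LinearMap.BilinForm ℂ V) (hq : ∀ x y, q x y = q y x)
  (hnd : ∀ x, (∀ y, q x y = 0) → x = 0)

include hq hnd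

theorem rank_two (N : Module.End ℂ V) (hN : ∀ x y, q (N x) y = - q x (N y))
    (hN2 : ∀ x, N (N x) = 0) (hr : Module.finrank ℂ (LinearMap.range N) = 2) :
    ∃ e f y y' : V, q e e = 0 ∧ q f f = 0 ∧ q e f = 0 ∧ q e y = 1 ∧ q f y = 0 ∧ q e y' = 0 ∧
      q f y' = 1 ∧ ∀ x, N x = q x e • f - q x f • e := by
  have hne : ∃ x₀, N x₀ ≠ 0 := by
    by_contra hcon
    push Not at hcon
    have h1 : LinearMap.range N = ⊥ := by
      rw [LinearMap.range_eq_bot]
      exact LinearMap.ext hcon
    rw [h1, finrank_bot] at hr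
    norm_num at hr
  obtain ⟨x₀, hx₀⟩ := hne
  obtain ⟨z, hz⟩ : ∃ z, q (N x₀) z ≠ 0 := by
    by_contra hcon
    push Not at hcon
    exact hx₀ (hnd _ hcon)
  obtain ⟨e, he⟩ : ∃ e, e = N x₀ := ⟨_, rfl⟩
  rw [← he] at hx₀ hz
  obtain ⟨y, hey⟩ : ∃ y, q e y = 1 := ⟨(q e z)⁻¹ • z, by
    rw [map_smul, smul_eq_mul]
    exact inv_mul_cancel₀ hz⟩
  obtain ⟨f, hf⟩ : ∃ f, f = N y := ⟨_, rfl⟩
  have hskew : ∀ x, q (N x) x = 0 := by
    intro x
    have h1 := hN x x
    rw [hq x (N x)] at h1
    have h2 : (2 : ℂ) * q (N x) x = 0 := by linear_combination h1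
    rcases mul_eq_zero.1 h2 with h3 | h3
    · norm_num at h3
    · exact h3
  have hex : q e x₀ = 0 := by
    rw [he]
    exact hskew x₀
  have hfy : q f y = 0 := by
    rw [hf]
    exact hskew y
  have hfx : q f x₀ = -1 := by
    rw [hf, hN y x₀, ← he, hq y e, hey]
  have hli : LinearIndependent ℂ ![e, f] := by
    rw [LinearIndependent.pair_iff]
    intro s t hst
    have h1 : q (s • e + t • f) x₀ = 0 := by
      rw [hst, map_zero, LinearMap.zero_apply]
    have h2 : q (s • e + t • f) y = 0 := by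
      rw [hst, map_zero, LinearMap.zero_apply]
    rw [map_add, map_smul, map_smul, LinearMap.add_apply, LinearMap.smul_apply,
      LinearMap.smul_apply, hex, hfx] at h1
    rw [map_add, map_smul, map_smul, LinearMap.add_apply, LinearMap.smul_apply,
      LinearMap.smul_apply, hey, hfy] at h2
    simp only [smul_eq_mul, mul_zero, zero_add, add_zero, mul_one] at h1 h2
    exact ⟨h2, by linear_combination -h1⟩
  have hspan : LinearMap.range N = Submodule.span ℂ (Set.range ![e, f]) := by
    symm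
    apply Submodule.eq_of_le_of_finrank_eq
    · rw [Submodule.span_le]
      rintro _ ⟨i, rfl⟩
      fin_cases i
      · exact ⟨x₀, he.symm⟩
      · exact ⟨y, hf.symm⟩
    · rw [hr, finrank_span_eq_card hli, Fintype.card_fin]
  have hform : ∀ x, N x = q x e • f - q x f • e := by
    intro x
    have h1 : N x ∈ Submodule.span ℂ (Set.range ![e, f]) := by
      rw [← hspan]
      exact ⟨x, rfl⟩
    have h1' : N x ∈ Submodule.span ℂ {e, f} := by
      have h0 : Set.range ![e, f] = {e, f} := by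
        simp [Matrix.range_cons, Matrix.range_empty, Set.pair_comm]
      rwa [h0] at h1
    obtain ⟨a, b, hab⟩ := Submodule.mem_span_pair.1 h1'
    have h2 : q (N x) x₀ = - q x e := by rw [hN x x₀, ← he]
    have h3 : q (N x) y = - q x f := by rw [hN x y, ← hf]
    rw [← hab, map_add, map_smul, map_smul, LinearMap.add_apply, LinearMap.smul_apply,
      LinearMap.smul_apply, hex, hfx] at h2
    rw [← hab, map_add, map_smul, map_smul, LinearMap.add_apply, LinearMap.smul_apply,
      LinearMap.smul_apply, hey, hfy] at h3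
    simp only [smul_eq_mul, mul_zero, zero_add, add_zero, mul_one, mul_neg] at h2 h3
    have h4 : b = q x e := neg_injective h2
    rw [← hab, h4, h3]
    module
  have hNe : N e = 0 := by rw [he, hN2]
  have hNf : N f = 0 := by rw [hf, hN2]
  have hee0 : q e e = 0 ∧ - q e f = 0 := by
    have h1 := hform e
    rw [hNe] at h1
    have h2 := LinearIndependent.pair_iff.1 hli (- q e f) (q e e) (by rw [h1]; module)
    exact ⟨h2.2, h2.1⟩
  have hff0 : q f f = 0 := by
    have h1 := hform f
    rw [hNf] at h1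
    have h2 := LinearIndependent.pair_iff.1 hli (- q f f) (q f e) (by rw [h1]; module)
    exact neg_eq_zero.1 h2.1
  refine ⟨e, f, y, - x₀, hee0.1, hff0, neg_eq_zero.1 hee0.2, hey, hfy, ?_, ?_, ?_⟩
  · rw [map_neg, hex, neg_zero]
  · rw [map_neg, hfx, neg_neg]
  · intro x
    rw [hform x, hq x e, hq x f]

omit hnd in
theorem hyperbolic (e f y y' : V) (hee : q e e = 0) (hff : q f f = 0) (hef : q e f = 0)
    (h1 : q e y = 1) (h2 : q f y = 0) (h3 : q e y' = 0) (h4 : q f y' = 1) :
    ∃ e' f' : V, q e' e' = 0 ∧ q f' f' = 0 ∧ q e' f' = 0 ∧ q e e' = 1 ∧ q f e' = 0 ∧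
      q e f' = 0 ∧ q f f' = 1 := by
  refine ⟨y - (q y y / 2) • e, y' - q y' (y - (q y y / 2) • e) • e - (q y' y' / 2) • f,
    ?_, ?_, ?_, ?_, ?_, ?_, ?_⟩ <;>
  simp only [map_sub, map_smul, LinearMap.sub_apply, LinearMap.smul_apply, smul_eq_mul, hee, hff,
    hef, h1, h2, h3, h4, hq y e, hq y f, hq y' e, hq y' f, hq f e, hq y y'] <;> ring

end Pool.Agent.MP_55e6de_ag
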