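import Mathlib
import Pool.Agent.Lib.MP_55e6de_ag.Chain
import Pool.Agent.Lib.MP_55e6de_ag.Lin
import Pool.Agent.Lib.MP_55e6de_ag.LinB

/-!
# MP_55e6de_ag NG, module Main
-/

set_option autoImplicit false

noncomputable section

namespace Pool.Agent.MP_55e6de_ag

attribute [local instance 100] LieRing.ofAssociativeRing

variable {V H : Type*} [AddCommGroup V] [Module ℂ V] [AddCommGroup H] [Module ℂ H]

lemma separate (W0 W1 : Module.End ℂ H) (x0 x1 : ℂ) (v : H) (e0 : W0 v = x0 • v)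
    (e1 : W1 v = x1 • v) (I : Finset (ℂ × ℂ)) (hI : (x0, x1) ∉ I) :
    ∃ T : Module.End ℂ H, T v = v ∧ ∀ c ∈ I, ∀ w, W0 w = c.1 • w → W1 w = c.2 • w → T w = 0 := by
  induction I using Finset.induction_on with
  | empty => exact ⟨1, rfl, by simp⟩
  | insert c I hc ih =>
    rw [Finset.mem_insert, not_or] at hI
    obtain ⟨T, hT, hT'⟩ := ih hI.2
    by_cases h0 : x0 = c.1
    · have h1 : x1 - c.2 ≠ 0 := fun h => hI.1 (Prod.ext h0 (sub_eq_zero.1 h))
      refine ⟨T * ((x1 - c.2)⁻¹ • (W1 - c.2 • 1)), ?_, ?_⟩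
      · simp only [Module.End.mul_apply, LinearMap.smul_apply, LinearMap.sub_apply,
          Module.End.one_apply, e1]
        rw [← sub_smul, smul_smul, inv_mul_cancel₀ h1, one_smul, hT]
      · intro d hd w hw0 hw1
        simp only [Module.End.mul_apply, LinearMap.smul_apply, LinearMap.sub_apply,
          Module.End.one_apply, hw1]
        rw [← sub_smul, map_smul, map_smul]
        rcases Finset.mem_insert.1 hd with rfl | hd
        · simp
        · rw [hT' d hd w hw0 hw1]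
          simp
    · have h1 : x0 - c.1 ≠ 0 := fun h => h0 (sub_eq_zero.1 h)
      refine ⟨T * ((x0 - c.1)⁻¹ • (W0 - c.1 • 1)), ?_, ?_⟩
      · simp only [Module.End.mul_apply, LinearMap.smul_apply, LinearMap.sub_apply,
          Module.End.one_apply, e0]
        rw [← sub_smul, smul_smul, inv_mul_cancel₀ h1, one_smul, hT]
      · intro d hd w hw0 hw1
        simp only [Module.End.mul_apply, LinearMap.smul_apply, LinearMap.sub_apply,
          Module.End.one_apply, hw0]
        rw [← sub_smul, map_smul, map_smul]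
        rcases Finset.mem_insert.1 hd with rfl | hd
        · simp
        · rw [hT' d hd w hw0 hw1]
          simp

variable {q : LinearMap.BilinForm ℂ V} {hq : ∀ x y, q x y = q y x} {s s' : V}
  {ρ : LLV q →ₗ⁅ℂ⁆ Module.End ℂ H} {n : ℕ}

lemma IsHK.dec [FiniteDimensional ℂ H] (h : IsHK q hq s s' ρ n) :
    Dec (ρ (degree q hq)) (ρ (hodge q hq s s')) n := by
  refine ⟨?_, ?_, ?_⟩
  · intro x0 x1 v hv e0 e1
    by_contra hcon
    set I : Finset (ℂ × ℂ) := ((Finset.range (2 * n + 1) ×ˢ Finset.range (2 * n + 1)).filter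
      (fun c => Even (c.1 + c.2))).image
      (fun c => (((c.1 : ℂ) + c.2) / 2 - n, ((c.1 : ℂ) - c.2) / 2)) with hI
    have hx : (x0, x1) ∉ I := by
      intro hx
      rw [hI, Finset.mem_image] at hx
      obtain ⟨c, hc, hc'⟩ := hx
      rw [Finset.mem_filter, Finset.mem_product, Finset.mem_range, Finset.mem_range] at hc
      exact hcon ⟨c.1, c.2, by omega, by omega, hc.2, (congrArg Prod.fst hc').symm,
        (congrArg Prod.snd hc').symm⟩
    obtain ⟨T, hT, hT'⟩ := separate _ _ x0 x1 v e0 e1 I hx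
    have h1 : (⊤ : Submodule ℂ H) ≤ LinearMap.ker T := by
      rw [← h.hodge_decomposition]
      refine iSup_le fun p => iSup_le fun r => iSup_le fun hpr => ?_
      intro w hw
      rw [piece, Submodule.mem_inf, Module.End.mem_eigenspace_iff,
        Module.End.mem_eigenspace_iff] at hw
      rw [LinearMap.mem_ker]
      refine hT' (((p : ℂ) + r) / 2 - n, ((p : ℂ) - r) / 2) ?_ w hw.1 hw.2
      rw [hI, Finset.mem_image]
      refine ⟨(p, r), ?_, rfl⟩
      rw [Finset.mem_filter, Finset.mem_product, Finset.mem_range, Finset.mem_range]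
      exact ⟨⟨by omega, by omega⟩, hpr.2.2⟩
    have h2 : T v = 0 := h1 (Submodule.mem_top)
    exact hv (by rw [← hT, h2])
  · intro k hk v v' hv e0 e1 e0' e1'
    have hm : ∀ w : H, ρ (degree q hq) w = ((k : ℂ) - n) • w →
        ρ (hodge q hq s s') w = (k : ℂ) • w → w ∈ piece q hq s s' ρ n (2 * k) 0 := by
      intro w hw0 hw1
      rw [piece, Submodule.mem_inf, Module.End.mem_eigenspace_iff,
        Module.End.mem_eigenspace_iff, hw0, hw1]
      constructor
      · congr 1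
        push_cast
        ring
      · congr 1
        push_cast
        ring
    obtain ⟨w, hw⟩ := finrank_le_one_iff.1 (h.line k hk)
    obtain ⟨c, hc⟩ := hw ⟨v, hm v e0 e1⟩
    obtain ⟨c', hc'⟩ := hw ⟨v', hm v' e0' e1'⟩
    have e2 : c • w.1 = v := congrArg Subtype.val hc
    have e3 : c' • w.1 = v' := congrArg Subtype.val hc'
    have hc0 : c ≠ 0 := by
      rintro rfl
      exact hv (by rw [← e2, zero_smul])
    refine ⟨c' * c⁻¹, ?_⟩
    rw [← e2, ← e3, smul_smul, mul_assoc, inv_mul_cancel₀ hc0, mul_one]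
  · obtain ⟨v, hv, hv0⟩ := (Submodule.ne_bot_iff _).1 h.unit
    rw [piece, Submodule.mem_inf, Module.End.mem_eigenspace_iff,
      Module.End.mem_eigenspace_iff] at hv
    refine ⟨v, hv0, ?_, ?_⟩
    · rw [hv.1]
      congr 1
      push_cast
      ring
    · rw [hv.2]
      congr 1
      push_cast
      ring

lemma mukai_V (q : LinearMap.BilinForm ℂ V) (x y : V) :
    mukai q (x, 0, 0) (y, 0, 0) = q x y := by simp [mukai_apply]

theorem main_bounds [FiniteDimensional ℂ V] [FiniteDimensional ℂ H] (h : IsHK q hq s s' ρ n)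
    (hV : 5 ≤ Module.finrank ℂ V) (N : Module.End ℂ V) (hN : ∀ x y, q (N x) y = - q x (N y))
    (hN2 : ∀ x, N (N x) = 0) (hr : Module.finrank ℂ (LinearMap.range N) = 2) (k : ℕ)
    (hk : k ≤ n) :
    (∃ v ∈ coh q hq ρ n k, (ρ (extend q N hN) ^ k) v ≠ 0) ∧
    ∀ m, k < m → (n ≤ m ∨ 2 * k ≤ m + 1) → ∀ v ∈ coh q hq ρ n k,
      (ρ (extend q N hN) ^ m) v = 0 := by
  obtain ⟨e, f, y, y', hee, hff, hef, h1, h2, h3, h4, hNe⟩ :=
    rank_two q hq h.nondeg N hN hN2 hr
  obtain ⟨e', f', hee', hff', hef', k1, k2, k3, k4⟩ :=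
    hyperbolic q hq e f y y' hee hff hef h1 h2 h3 h4
  obtain ⟨u, hu1, hu2, hu⟩ := non_iso q hq h.nondeg ![e, f] ![e', f']
    (by intro i j; fin_cases i <;> fin_cases j <;> simp [hee, hff, hef, hq f e])
    (by intro i j; fin_cases i <;> fin_cases j <;> simp [hee', hff', hef', hq f' e'])
    (by intro i j; fin_cases i <;> fin_cases j <;> simp [k1, k2, k3, k4])
    (by rw [Fintype.card_fin]; omega)
  obtain ⟨t, ht, hts, hte⟩ := common q hq h.nondeg s s' e e' h.iso h.iso' h.pair hee hee' k1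
    (by omega)
  have hR := repR_rep q hq ρ
  set a : Fin 3 → V × ℂ × ℂ := ![(0, 0, 1), (e, 0, 0), (f, 0, 0)] with ha
  set b : Fin 3 → V × ℂ × ℂ := ![(0, 1, 0), (e', 0, 0), (f', 0, 0)] with hb
  have hH : Hyp (mukai q) a b := by
    refine ⟨?_, ?_, ?_⟩
    · intro i j
      fin_cases i <;> fin_cases j <;> simp [ha, mukai_apply, hee, hff, hef, hq f e]
    · intro i j
      fin_cases i <;> fin_cases j <;> simp [hb, mukai_apply, hee', hff', hef', hq f' e']
    · intro i j
      fin_cases i <;> fin_cases j <;> simp [ha, hb, mukai_apply, k1, k2, k3, k4]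
  have hU : mukai q (u, 0, 0) (u, 0, 0) ≠ 0 := by
    rw [mukai_V]
    exact hu
  have hua : ∀ i, mukai q (u, 0, 0) (a i) = 0 := by
    intro i
    have e1 := hu1 0
    have e2 := hu1 1
    simp only [Matrix.cons_val_zero, Matrix.cons_val_one] at e1 e2
    fin_cases i <;> simp [ha, mukai_apply, e1, e2]
  have hub : ∀ i, mukai q (u, 0, 0) (b i) = 0 := by
    intro i
    have e1 := hu2 0
    have e2 := hu2 1
    simp only [Matrix.cons_val_zero, Matrix.cons_val_one] at e1 e2
    fin_cases i <;> simp [hb, mukai_apply, e1, e2]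
  have hD0 : Dec (repR q hq ρ (0, 1, 0) (0, 0, 1)) (repR q hq ρ (s', 0, 0) (s, 0, 0)) n := h.dec
  have hD : Dec (repR q hq ρ (b 0) (a 0)) (repR q hq ρ (b 1) (a 1)) n := by
    refine hD0.chain hR (s, 0, 0) (s', 0, 0) (e, 0, 0) (e', 0, 0) (t, 0, 0) ?_ ?_ ?_ ?_ ?_ ?_ ?_
      ?_ ?_ ?_ ?_ ?_
    · rw [mukai_V, h.iso]
    · rw [mukai_V, h.pair]
    · rw [mukai_V, hee]
    · rw [mukai_V, k1]
    · rw [mukai_V, ht]
    · rw [mukai_V]; exact hts
    · rw [mukai_V]; exact hte
    all_goals simp [ha, hb, mukai_apply]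
  have hext : ρ (extend q N hN) = repR q hq ρ (a 1) (a 2) := by
    refine congrArg ρ (Subtype.ext (LinearMap.ext fun z => ?_))
    change extendEnd N z = wedgeEnd q (a 1) (a 2) z
    rw [extendEnd_apply, wedgeEnd_apply, hNe]
    simp [ha, mukai_apply]
  refine ⟨?_, ?_⟩
  · obtain ⟨v, hv, hv'⟩ := core_lower hR hH _ hU hua hub hD k hk
    refine ⟨v, ?_, ?_⟩
    · rw [coh, Module.End.mem_eigenspace_iff]
      exact hv
    · rw [hext]
      exact hv'
  · intro m hkm hm v hv
    rw [coh, Module.End.mem_eigenspace_iff] at hv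
    rw [hext]
    exact core_upper hR hH _ hU hua hub hD k hk m hkm hm v hv

theorem main_nilp [FiniteDimensional ℂ V] [FiniteDimensional ℂ H] (h : IsHK q hq s s' ρ n)
    (hV : 5 ≤ Module.finrank ℂ V) (N : Module.End ℂ V) (hN : ∀ x y, q (N x) y = - q x (N y))
    (hN2 : ∀ x, N (N x) = 0) (hr : Module.finrank ℂ (LinearMap.range N) = 2) (k : ℕ)
    (hk1 : 1 ≤ k) (hk : k ≤ n) :
    k ≤ nilp q hq ρ n N hN k ∧ nilp q hq ρ n N hN k ≤ max k (min (2 * k - 2) (n - 1)) := by
  obtain ⟨⟨v, hv, hv'⟩, h2⟩ := main_bounds h hV N hN hN2 hr k hk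
  have h3 : ∀ i ∈ {i : ℕ | ∃ x ∈ coh q hq ρ n k, (ρ (extend q N hN) ^ i) x ≠ 0},
      i ≤ max k (min (2 * k - 2) (n - 1)) := by
    rintro i ⟨x, hx, hx'⟩
    by_contra hcon
    have h4 : k < i := by omega
    exact hx' (h2 i h4 (by omega) x hx)
  exact ⟨le_csSup ⟨_, h3⟩ ⟨v, hv, hv'⟩, csSup_le ⟨k, v, hv, hv'⟩ h3⟩

end Pool.Agent.MP_55e6de_ag
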