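import Mathlib
import Pool.Agent.Lib.MP_55e6de_ag.Main

/-!
# MP_55e6de_ag NG, module One: one degree suffices

Let `W0, W1, W2` be the three Cartan operators of a frame. `TT A x y` says that there is a common
eigenvector with the eigenvalues `-A, x, y`. This is symmetric in `A, x, y`. If `N ^ (k + 1)` is not
`0` on `H^{2k}`, then there is such a vector with `A = n - k` and `n + 1 ≤ A + x + y`, and
conversely. Two moves: `TT p x q` gives `TT (p - 1) x (q + 1)` for `q < p` (the total is the same),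
and `TT x y z` gives `TT (x - 1) y z` for `0 < x`. With them the set of the `k` with
`N ^ (k + 1) ≠ 0` on `H^{2k}` is an interval which contains `(2 n - 1) / 3` rounded up and down.
-/

set_option autoImplicit false

noncomputable section

namespace Pool.Agent.MP_55e6de_ag

attribute [local instance 100] LieRing.ofAssociativeRing

section moves

variable {U M : Type*} [AddCommGroup U] [Module ℂ U] [AddCommGroup M] [Module ℂ M]
variable {Q : LinearMap.BilinForm ℂ U} {R : U →ₗ[ℂ] U →ₗ[ℂ] Module.End ℂ M}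

lemma Rep.cart_apply (h : Rep Q R) (a b x y : U) (s t c : ℂ)
    (hs : Q x b • a - Q x a • b = s • x) (ht : Q y b • a - Q y a • b = t • y) (v : M)
    (hv : R b a v = c • v) : R b a (R x y v) = (c + (s + t)) • R x y v := by
  have h1 := LinearMap.congr_fun (h.cart a b x y s t hs ht) v
  simp only [LinearMap.sub_apply, Module.End.mul_apply, LinearMap.smul_apply, hv, map_smul] at h1
  rw [sub_eq_iff_eq_add] at h1
  rw [h1, ← add_smul, add_comm]

variable [FiniteDimensional ℂ M]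

/-- the first move -/
lemma Wt_move (h : Rep Q R) {a b : Fin 3 → U} (hH : Hyp Q a b) {x0 x1 x2 : ℂ}
    (hx : Wt R a b x0 x1 x2) (hne : ∀ m : ℕ, x0 + x2 ≠ m) : Wt R a b (x0 + 1) x1 (x2 + 1) := by
  obtain ⟨v, hv, e0, e1, e2⟩ := hx
  have hs : Sl2 (R (a 0) (a 2)) (R (b 2) (b 0)) (R (b 0) (a 0) - R (a 2) (b 2)) := by
    apply h.sl2 _ _ _ _ (hH.aa _ _) (hH.bb _ _) (hH.bb _ _) (hH.aa _ _) <;>
      simp [hH.aa, hH.bb, hH.ab, hH.ba h]
  have hE : R (a 0) (a 2) v ≠ 0 := by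
    intro h0
    obtain ⟨m, hm, -⟩ := hs.prim v hv h0 (x0 + x2) (by
      rw [h.skew (a 2) (b 2), sub_neg_eq_add, LinearMap.add_apply, e0, e2, add_smul])
    exact hne m hm
  refine ⟨R (a 0) (a 2) v, hE, ?_, ?_, ?_⟩
  · have := h.cart_apply (a 0) (b 0) (a 0) (a 2) _ _ _ (hH.va h 0 0) (hH.va h 2 0) v e0
    simpa using this
  · have := h.cart_apply (a 1) (b 1) (a 0) (a 2) _ _ _ (hH.va h 0 1) (hH.va h 2 1) v e1
    simpa using this
  · have := h.cart_apply (a 2) (b 2) (a 0) (a 2) _ _ _ (hH.va h 0 2) (hH.va h 2 2) v e2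
    simpa using this

/-- the second move -/
lemma Wt_dec (h : Rep Q R) {a b : Fin 3 → U} (hH : Hyp Q a b) (u : U) (hu : Q u u ≠ 0)
    (hua : ∀ i, Q u (a i) = 0) (hub : ∀ i, Q u (b i) = 0) {x0 x1 x2 : ℂ}
    (hx : Wt R a b x0 x1 x2) (hne : ∀ m : ℕ, 2 * x0 ≠ m) : Wt R a b (x0 + 1) x1 x2 := by
  obtain ⟨v, hv, e0, e1, e2⟩ := hx
  have hau : ∀ i, Q (a i) u = 0 := fun i => by rw [h.symm, hua]
  have hbu : ∀ i, Q (b i) u = 0 := fun i => by rw [h.symm, hub]
  have hu0 : ∀ k, Q u (b k) • a k - Q u (a k) • b k = (0 : ℂ) • u := fun k => by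
    simp [hua, hub]
  have hs : Sl2 (R (a 0) u) ((-2 / Q u u) • R (b 0) u) ((2 : ℂ) • R (b 0) (a 0)) := by
    have k1 := h.br (a 0) u (b 0) u
    rw [hbu, hua, h.self, hH.ba h] at k1
    simp only [if_true, smul_zero, zero_smul, sub_zero, zero_sub, add_zero] at k1
    have k2 := h.cart (a 0) (b 0) (a 0) u _ _ (hH.va h 0 0) (hu0 0)
    have k3 := h.cart (a 0) (b 0) (b 0) u _ _ (hH.vb h 0 0) (hu0 0)
    simp only [if_true, add_zero] at k2 k3
    refine ⟨?_, ?_, ?_⟩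
    · rw [mul_smul_comm, smul_mul_assoc, ← smul_sub, k1, ← smul_neg, smul_smul]
      rw [div_mul_cancel₀ _ hu, smul_neg, neg_smul, neg_neg]
    · rw [mul_smul_comm, smul_mul_assoc, ← smul_sub, k2, one_smul]
    · rw [smul_mul_smul_comm, smul_mul_smul_comm, mul_comm (-2 / Q u u), ← smul_sub, k3, neg_smul,
        one_smul, smul_neg, mul_smul]
  have hE : R (a 0) u v ≠ 0 := by
    intro h0
    obtain ⟨m, hm, -⟩ := hs.prim v hv h0 (2 * x0) (by
      rw [LinearMap.smul_apply, e0, smul_smul])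
    exact hne m hm
  refine ⟨R (a 0) u v, hE, ?_, ?_, ?_⟩
  · have := h.cart_apply (a 0) (b 0) (a 0) u _ _ _ (hH.va h 0 0) (hu0 0) v e0
    simpa using this
  · have := h.cart_apply (a 1) (b 1) (a 0) u _ _ _ (hH.va h 0 1) (hu0 1) v e1
    simpa using this
  · have := h.cart_apply (a 2) (b 2) (a 0) u _ _ _ (hH.va h 0 2) (hu0 2) v e2
    simpa using this

omit [FiniteDimensional ℂ M] in
/-- the last nonzero vector `A ^ i v` -/
lemma exists_last (A : Module.End ℂ M) (hA : IsNilpotent A) (v : M) (hv : v ≠ 0) :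
    ∃ i : ℕ, (A ^ i) v ≠ 0 ∧ A ((A ^ i) v) = 0 := by
  obtain ⟨N, hN⟩ := hA
  have hex : ∃ n : ℕ, (A ^ n) v = 0 := ⟨N, by rw [hN, LinearMap.zero_apply]⟩
  classical
  have h0 := Nat.find_spec hex
  obtain ⟨m, hm⟩ : ∃ m, Nat.find hex = m + 1 := by
    refine Nat.exists_eq_succ_of_ne_zero fun h00 => ?_
    rw [h00] at h0
    exact hv (by simpa using h0)
  refine ⟨m, Nat.find_min hex (by omega), ?_⟩
  rw [← Module.End.mul_apply, ← pow_succ', ← hm]
  exact h0

omit [FiniteDimensional ℂ M] in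
/-- `K` and the powers -/
lemma pow_eigen (K A : Module.End ℂ M) (c l : ℂ) (h : K * A - A * K = c • A) (v : M)
    (hv : K v = l • v) (i : ℕ) : K ((A ^ i) v) = (l + i * c) • (A ^ i) v := by
  induction i with
  | zero => simpa using hv
  | succ i ih =>
    have h1 := LinearMap.congr_fun h ((A ^ i) v)
    simp only [LinearMap.sub_apply, Module.End.mul_apply, LinearMap.smul_apply] at h1
    rw [sub_eq_iff_eq_add, ih, map_smul] at h1
    rw [pow_succ', Module.End.mul_apply, h1]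
    push_cast
    module

/-- an eigenvector of `K` with the eigenvalue `m` gives a vector with `E ^ m w ≠ 0` -/
lemma Sl2.pow_ne {E F K : Module.End ℂ M} (hs : Sl2 E F K) (W : Module.End ℂ M)
    (hE : W * E - E * W = 0) (hF : W * F - F * W = 0) (v : M) (hv : v ≠ 0) (m : ℕ)
    (hK : K v = (m : ℂ) • v) (x : ℂ) (hW : W v = x • v) :
    ∃ w : M, W w = x • w ∧ (E ^ m) w ≠ 0 := by
  have nE : IsNilpotent E := nil_of_comm K E 2 two_ne_zero hs.ke
  have nF : IsNilpotent F := nil_of_comm K F (-2) (by norm_num) (by rw [hs.kf, neg_smul])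
  obtain ⟨i, hi, hi'⟩ := exists_last E nE v hv
  have k1 : K ((E ^ i) v) = ((m : ℂ) + i * 2) • (E ^ i) v := pow_eigen K E 2 _ hs.ke v hK i
  have w1 : W ((E ^ i) v) = x • (E ^ i) v := by
    have := pow_eigen W E 0 x (by rw [hE, zero_smul]) v hW i
    simpa using this
  obtain ⟨M', hM', hne⟩ := hs.prim _ hi hi' _ k1
  have hM : M' = m + i * 2 := by exact_mod_cast hM'.symm
  obtain ⟨j, hj, hj'⟩ := exists_last F nF ((E ^ i) v) hi
  have k2 : K ((F ^ j) ((E ^ i) v)) = (((m : ℂ) + i * 2) + j * (-2)) • (F ^ j) ((E ^ i) v) :=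
    pow_eigen K F (-2) _ (by rw [hs.kf, neg_smul]) _ k1 j
  have w2 : W ((F ^ j) ((E ^ i) v)) = x • (F ^ j) ((E ^ i) v) := by
    have := pow_eigen W F 0 x (by rw [hF, zero_smul]) _ w1 j
    simpa using this
  have hjM : M' ≤ j := by
    by_contra hcon
    have h1 := hne (j + 1) (by omega)
    rw [pow_succ', Module.End.mul_apply] at h1
    exact h1 hj'
  obtain ⟨m', hm', hne'⟩ := hs.symm.prim _ hj hj' (-(((m : ℂ) + i * 2) + j * (-2))) (by
    rw [LinearMap.neg_apply, k2, neg_smul])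
  have h2 : (2 * j : ℂ) = ((m' + (m + i * 2) : ℕ) : ℂ) := by
    push_cast
    linear_combination hm'
  have h3 : 2 * j = m' + (m + i * 2) := by exact_mod_cast h2
  exact ⟨(F ^ j) ((E ^ i) v), w2, hne' m (by omega)⟩

/-- conversely to `exists_weight` -/
lemma exists_pow (h : Rep Q R) {a b : Fin 3 → U} (hH : Hyp Q a b) {x0 x1 x2 : ℂ}
    (hx : Wt R a b x0 x1 x2) (m : ℕ) (hm : x1 + x2 = m) :
    ∃ w : M, R (b 0) (a 0) w = x0 • w ∧ (R (a 1) (a 2) ^ m) w ≠ 0 := by
  obtain ⟨v, hv, e0, e1, e2⟩ := hx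
  have hs : Sl2 (R (a 1) (a 2)) (R (b 2) (b 1)) (R (b 1) (a 1) - R (a 2) (b 2)) := by
    apply h.sl2 _ _ _ _ (hH.aa _ _) (hH.bb _ _) (hH.bb _ _) (hH.aa _ _) <;>
      simp [hH.aa, hH.bb, hH.ab, hH.ba h]
  have cE : R (b 0) (a 0) * R (a 1) (a 2) - R (a 1) (a 2) * R (b 0) (a 0) = 0 := by
    have := h.cart (a 0) (b 0) (a 1) (a 2) _ _ (hH.va h 1 0) (hH.va h 2 0)
    simpa using this
  have cF : R (b 0) (a 0) * R (b 2) (b 1) - R (b 2) (b 1) * R (b 0) (a 0) = 0 := by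
    have := h.cart (a 0) (b 0) (b 2) (b 1) _ _ (hH.vb h 2 0) (hH.vb h 1 0)
    simpa using this
  refine hs.pow_ne _ cE cF v hv m ?_ x0 e0
  rw [h.skew (a 2) (b 2), sub_neg_eq_add, LinearMap.add_apply, e1, e2, ← add_smul, hm]

/-- there is a common eigenvector with the eigenvalues `-A, x, y` -/
def TT (R : U →ₗ[ℂ] U →ₗ[ℂ] Module.End ℂ M) (a b : Fin 3 → U) (A x y : ℕ) : Prop :=
  Wt R a b (-(A : ℂ)) x y

variable {a b : Fin 3 → U}

lemma TT.swap12 (h : Rep Q R) (hH : Hyp Q a b) {A x y : ℕ} (hT : TT R a b A x y) :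
    TT R a b A y x := Wt_swap12 h hH hT

lemma TT.swap02 (h : Rep Q R) (hH : Hyp Q a b) {A x y : ℕ} (hT : TT R a b A x y) :
    TT R a b y x A := by
  have := Wt_neg02 h hH hT
  rwa [neg_neg] at this

lemma TT.down (h : Rep Q R) (hH : Hyp Q a b) {p x q : ℕ} (hT : TT R a b (p + 1) x q)
    (hqp : q ≤ p) : TT R a b p x (q + 1) := by
  have := Wt_move h hH hT (fun m hm => by
    have h1 : (q : ℂ) = ((m + p + 1 : ℕ) : ℂ) := by
      push_cast at hm ⊢
      linear_combination hm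
    have h2 : q = m + p + 1 := by exact_mod_cast h1
    omega)
  have e1 : -((p + 1 : ℕ) : ℂ) + 1 = -(p : ℂ) := by
    push_cast
    ring
  rw [e1] at this
  have e2 : (q : ℂ) + 1 = ((q + 1 : ℕ) : ℂ) := by
    push_cast
    ring
  rw [e2] at this
  exact this

lemma TT.key (h : Rep Q R) (hH : Hyp Q a b) {p x q : ℕ} (hT : TT R a b p x q) (i : ℕ)
    (hi : q + 2 * i ≤ p + 1) (hip : i ≤ p) : TT R a b (p - i) x (q + i) := by
  induction i with
  | zero => simpa using hT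
  | succ i ih =>
    have h1 := ih (by omega) (by omega)
    have e1 : p - i = (p - (i + 1)) + 1 := by omega
    rw [e1] at h1
    exact h1.down h hH (by omega)

lemma TT.line (h : Rep Q R) (hH : Hyp Q a b) {p x q : ℕ} (hT : TT R a b p x q) (t : ℕ)
    (hqt : q ≤ t) (htp : t ≤ p) : TT R a b t x (p + q - t) := by
  rcases Nat.lt_or_ge (2 * t + 1) (p + q) with h1 | h1
  · have h2 := hT.key h hH (t - q) (by omega) (by omega)
    have e1 : p - (t - q) = p + q - t := by omega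
    have e2 : q + (t - q) = t := by omega
    rw [e1, e2] at h2
    exact h2.swap02 h hH
  · have h2 := hT.key h hH (p - t) (by omega) (by omega)
    have e1 : p - (p - t) = t := by omega
    have e2 : q + (p - t) = p + q - t := by omega
    rwa [e1, e2] at h2

lemma TT.dec (h : Rep Q R) (hH : Hyp Q a b) (u : U) (hu : Q u u ≠ 0)
    (hua : ∀ i, Q u (a i) = 0) (hub : ∀ i, Q u (b i) = 0) {t x y : ℕ} (i : ℕ)
    (hT : TT R a b (t + i) x y) : TT R a b t x y := by
  induction i with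
  | zero => exact hT
  | succ i ih =>
    apply ih
    have := Wt_dec h hH u hu hua hub hT (fun m hm => by
      have h1 : ((m + 2 * (t + (i + 1)) : ℕ) : ℂ) = ((0 : ℕ) : ℂ) := by
        push_cast at hm ⊢
        linear_combination -hm
      have h2 : m + 2 * (t + (i + 1)) = 0 := by exact_mod_cast h1
      omega)
    have e1 : -((t + (i + 1) : ℕ) : ℂ) + 1 = -((t + i : ℕ) : ℂ) := by
      push_cast
      ring
    rw [e1] at this
    exact this

/-- a weight with total at least `n + 1` can be moved to the middle -/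
lemma TT.bad (h : Rep Q R) (hH : Hyp Q a b) (u : U) (hu : Q u u ≠ 0)
    (hua : ∀ i, Q u (a i) = 0) (hub : ∀ i, Q u (b i) = 0) {A x y n t t0 : ℕ}
    (hT : TT R a b A x y) (hS : n + 1 ≤ A + x + y) (h1 : n ≤ 3 * t0 + 1) (h2 : 3 * t0 ≤ n + 3)
    (ht : (t0 ≤ t ∧ t ≤ A) ∨ (A ≤ t ∧ t ≤ t0)) :
    ∃ x' y', TT R a b t x' y' ∧ n + 1 ≤ t + x' + y' := by
  rcases ht with ⟨k1, k2⟩ | ⟨k1, k2⟩
  · rcases Nat.lt_or_ge t x with k3 | k3
    · rcases Nat.lt_or_ge t y with k4 | k4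
      · refine ⟨x, y, ?_, by omega⟩
        refine TT.dec h hH u hu hua hub (A - t) ?_
        rwa [show t + (A - t) = A by omega]
      · exact ⟨x, A + y - t, hT.line h hH t k4 k2, by omega⟩
    · exact ⟨y, A + x - t, (hT.swap12 h hH).line h hH t k3 k2, by omega⟩
  · rcases Nat.lt_or_ge x t with k3 | k3
    · rcases Nat.lt_or_ge y t with k4 | k4
      · have : A = t := by omega
        subst this
        exact ⟨x, y, hT, hS⟩
      · exact ⟨x, y + A - t, (hT.swap02 h hH).line h hH t k1 k4, by omega⟩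
    · exact ⟨y, x + A - t, ((hT.swap12 h hH).swap02 h hH).line h hH t k1 k3, by omega⟩

/-- from a large power of `N` to a weight with total at least `n + 1` -/
lemma exists_TT (h : Rep Q R) (hH : Hyp Q a b) (u : U) (hu : Q u u ≠ 0)
    (hua : ∀ i, Q u (a i) = 0) (hub : ∀ i, Q u (b i) = 0) {n : ℕ}
    (hD : Dec (R (b 0) (a 0)) (R (b 1) (a 1)) n) (k : ℕ) (hk : k ≤ n) (m : ℕ) (hkm : k < m) (v : M)
    (hv : R (b 0) (a 0) v = ((k : ℂ) - n) • v) (hm : (R (a 1) (a 2) ^ m) v ≠ 0) :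
    3 ≤ k ∧ k + 2 ≤ n ∧ ∃ x y, TT R a b (n - k) x y ∧ n + 1 ≤ (n - k) + x + y := by
  obtain ⟨j, hmj, x1, x2, hx, hW⟩ := exists_weight h hH _ m v hv hm
  have hb := weight_bound h hH u hu hua hub hD k hk x1 x2 hW j hx (by omega)
  refine ⟨by omega, by omega, ?_⟩
  have hC := Wt_swap12 h hH hW
  have hW' := hW
  obtain ⟨v', hv', e0', e1', -⟩ := hW'
  obtain ⟨p', r', hp', hr', -, f0', f1'⟩ := hD.num _ _ v' hv' e0' e1'
  obtain ⟨v'', hv'', e0'', e1'', -⟩ := hC
  obtain ⟨p'', r'', hp'', hr'', -, f0'', f1''⟩ := hD.num _ _ v'' hv'' e0'' e1''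
  have g2 : p' + r' = 2 * k := by
    have : (p' : ℂ) + r' = 2 * k := by linear_combination (-2) * f0'
    exact_mod_cast this
  have g3 : p'' + r'' = 2 * k := by
    have : (p'' : ℂ) + r'' = 2 * k := by linear_combination (-2) * f0''
    exact_mod_cast this
  have e3 : ((p' + r' : ℕ) : ℂ) = ((2 * k : ℕ) : ℂ) := by rw [g2]
  have e4 : ((p'' + r'' : ℕ) : ℂ) = ((2 * k : ℕ) : ℂ) := by rw [g3]
  push_cast at e3 e4
  have g4 : j + r' + r'' = 2 * k := by
    have : (j : ℂ) + r' + r'' = 2 * k := by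
      rw [← hx, f1', f1'']
      linear_combination (1 / 2) * e3 + (1 / 2) * e4
    exact_mod_cast this
  have c1 : x1 = ((k - r' : ℕ) : ℂ) := by
    rw [Nat.cast_sub (by omega), f1']
    linear_combination (1 / 2) * e3
  have c2 : x2 = ((k - r'' : ℕ) : ℂ) := by
    rw [Nat.cast_sub (by omega), f1'']
    linear_combination (1 / 2) * e4
  refine ⟨k - r', k - r'', ?_, by omega⟩
  rw [TT, ← c1, ← c2, Nat.cast_sub hk, neg_sub]
  exact hW

/-- from a weight with total at least `n + 1` to a large power of `N` -/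
lemma TT.pow (h : Rep Q R) (hH : Hyp Q a b) {n k x y : ℕ} (hk : k ≤ n)
    (hT : TT R a b (n - k) x y) (hS : n + 1 ≤ (n - k) + x + y) :
    ∃ v : M, R (b 0) (a 0) v = ((k : ℂ) - n) • v ∧ (R (a 1) (a 2) ^ (k + 1)) v ≠ 0 := by
  obtain ⟨w, hw, hw'⟩ := exists_pow h hH hT (x + y) (by push_cast; ring)
  rw [Nat.cast_sub hk, neg_sub] at hw
  refine ⟨w, hw, fun h0 => hw' ?_⟩
  have e1 : x + y = (x + y - (k + 1)) + (k + 1) := by omega
  rw [e1, pow_add, Module.End.mul_apply, h0, map_zero]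

end moves

variable {V H : Type*} [AddCommGroup V] [Module ℂ V] [AddCommGroup H] [Module ℂ H]
variable {q : LinearMap.BilinForm ℂ V} {hq : ∀ x y, q x y = q y x} {s s' : V}
  {ρ : LLV q →ₗ⁅ℂ⁆ Module.End ℂ H} {n : ℕ}

/-- the frame of a type II element -/
theorem exists_frame [FiniteDimensional ℂ V] [FiniteDimensional ℂ H] (h : IsHK q hq s s' ρ n)
    (hV : 5 ≤ Module.finrank ℂ V) (N : Module.End ℂ V) (hN : ∀ x y, q (N x) y = - q x (N y))
    (hN2 : ∀ x, N (N x) = 0) (hr : Module.finrank ℂ (LinearMap.range N) = 2) :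
    ∃ (a b : Fin 3 → V × ℂ × ℂ) (u : V × ℂ × ℂ), Hyp (mukai q) a b ∧ mukai q u u ≠ 0 ∧
      (∀ i, mukai q u (a i) = 0) ∧ (∀ i, mukai q u (b i) = 0) ∧
      Dec (repR q hq ρ (b 0) (a 0)) (repR q hq ρ (b 1) (a 1)) n ∧
      ρ (extend q N hN) = repR q hq ρ (a 1) (a 2) ∧ ρ (degree q hq) = repR q hq ρ (b 0) (a 0) := by
  obtain ⟨e, f, y, y', hee, hff, hef, h1, h2, h3, h4, hNe⟩ :=
    rank_two q hq h.nondeg N hN hN2 hr
  obtain ⟨e', f', hee', hff', hef', k1, k2, k3, k4⟩ :=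
    hyperbolic q hq e f y y' hee hff hef h1 h2 h3 h4
  obtain ⟨u, hu1, hu2, hu⟩ := non_iso q hq h.nondeg ![e, f] ![e', f']
    (by intro i j; fin_cases i <;> fin_cases j <;> simp [hee, hff, hef, hq f e])
    (by intro i j; fin_cases i <;> fin_cases j <;> simp [hee', hff', hef', hq f' e'])
    (by intro i j; fin_cases i <;> fin_cases j <;> simp [k1, k2, k3, k4])
    (by rw [Fintype.card_fin]; omega)
  obtain ⟨t, ht, hts, hte⟩ := common q hq h.nondeg s s' e e' h.iso h.iso' h.pair hee hee' k1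
    (by omega)
  have hR := repR_rep q hq ρ
  set a : Fin 3 → V × ℂ × ℂ := ![(0, 0, 1), (e, 0, 0), (f, 0, 0)] with ha
  set b : Fin 3 → V × ℂ × ℂ := ![(0, 1, 0), (e', 0, 0), (f', 0, 0)] with hb
  have hH : Hyp (mukai q) a b := by
    refine ⟨?_, ?_, ?_⟩
    · intro i j
      fin_cases i <;> fin_cases j <;> simp [ha, mukai_apply, hee, hff, hef, hq f e]
    · intro i j
      fin_cases i <;> fin_cases j <;> simp [hb, mukai_apply, hee', hff', hef', hq f' e']
    · intro i j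
      fin_cases i <;> fin_cases j <;> simp [ha, hb, mukai_apply, k1, k2, k3, k4]
  refine ⟨a, b, (u, 0, 0), hH, ?_, ?_, ?_, ?_, ?_, rfl⟩
  · rw [mukai_V]
    exact hu
  · intro i
    have e1 := hu1 0
    have e2 := hu1 1
    simp only [Matrix.cons_val_zero, Matrix.cons_val_one] at e1 e2
    fin_cases i <;> simp [ha, mukai_apply, e1, e2]
  · intro i
    have e1 := hu2 0
    have e2 := hu2 1
    simp only [Matrix.cons_val_zero, Matrix.cons_val_one] at e1 e2
    fin_cases i <;> simp [hb, mukai_apply, e1, e2]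
  · have hD0 : Dec (repR q hq ρ (0, 1, 0) (0, 0, 1)) (repR q hq ρ (s', 0, 0) (s, 0, 0)) n := h.dec
    refine hD0.chain hR (s, 0, 0) (s', 0, 0) (e, 0, 0) (e', 0, 0) (t, 0, 0) ?_ ?_ ?_ ?_ ?_ ?_ ?_
      ?_ ?_ ?_ ?_ ?_
    · rw [mukai_V, h.iso]
    · rw [mukai_V, h.pair]
    · rw [mukai_V, hee]
    · rw [mukai_V, k1]
    · rw [mukai_V, ht]
    · rw [mukai_V]; exact hts
    · rw [mukai_V]; exact hte
    all_goals simp [ha, hb, mukai_apply]
  · refine congrArg ρ (Subtype.ext (LinearMap.ext fun z => ?_))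
    change extendEnd N z = wedgeEnd q (a 1) (a 2) z
    rw [extendEnd_apply, wedgeEnd_apply, hNe]
    simp [ha, mukai_apply]

/-- If Nagai's equality fails in degree `2 k`, then it fails in all degrees `2 k'` with `k'` between
`k` and `k0`, where `k0` is `(2 n - 1) / 3` rounded up or down. -/
theorem one_fail [FiniteDimensional ℂ V] [FiniteDimensional ℂ H] (h : IsHK q hq s s' ρ n)
    (hV : 5 ≤ Module.finrank ℂ V) (N : Module.End ℂ V) (hN : ∀ x y, q (N x) y = - q x (N y))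
    (hN2 : ∀ x, N (N x) = 0) (hr : Module.finrank ℂ (LinearMap.range N) = 2) (k0 k : ℕ)
    (h1 : 2 * n ≤ 3 * k0 + 3) (h2 : 3 * k0 ≤ 2 * n + 1) (hk1 : 1 ≤ k) (hk : k ≤ n)
    (hf : nilp q hq ρ n N hN k ≠ k) :
    3 ≤ k ∧ k + 2 ≤ n ∧ ∀ k', (k ≤ k' ∧ k' ≤ k0) ∨ (k0 ≤ k' ∧ k' ≤ k) →
      nilp q hq ρ n N hN k' ≠ k' := by
  obtain ⟨a, b, u, hH, hu, hua, hub, hD, hext, hdeg⟩ := exists_frame h hV N hN hN2 hr
  have hR := repR_rep q hq ρ
  have hb := main_nilp h hV N hN hN2 hr k hk1 hk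
  have hlt : k < nilp q hq ρ n N hN k := lt_of_le_of_ne hb.1 (Ne.symm hf)
  -- a vector with a large power of `N`
  obtain ⟨m, ⟨v, hv, hv'⟩, hkm⟩ : ∃ m, (∃ x ∈ coh q hq ρ n k, (ρ (extend q N hN) ^ m) x ≠ 0) ∧
      k < m := by
    by_contra hcon
    push Not at hcon
    have h3 : nilp q hq ρ n N hN k ≤ k := by
      refine csSup_le' fun i hi => ?_
      exact hcon i hi
    omega
  rw [coh, Module.End.mem_eigenspace_iff, hdeg] at hv
  rw [hext] at hv'
  obtain ⟨c1, c2, x, y, hT, hS⟩ := exists_TT hR hH u hu hua hub hD k hk m hkm v hv hv'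
  refine ⟨c1, c2, fun k' hk' => ?_⟩
  have hk'1 : 1 ≤ k' := by omega
  have hk'n : k' ≤ n := by omega
  obtain ⟨x', y', hT', hS'⟩ := hT.bad hR hH u hu hua hub (n := n) (t := n - k') (t0 := n - k0)
    hS (by omega) (by omega) (by omega)
  obtain ⟨w, hw, hw'⟩ := hT'.pow hR hH hk'n hS'
  have hw2 : w ∈ coh q hq ρ n k' := by
    rw [coh, Module.End.mem_eigenspace_iff, hdeg]
    exact hw
  have h3 := main_nilp h hV N hN hN2 hr k' hk'1 hk'n
  have h4 : k' + 1 ≤ nilp q hq ρ n N hN k' := by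
    refine le_csSup ⟨max k' (min (2 * k' - 2) (n - 1)), ?_⟩ ⟨w, hw2, by rw [hext]; exact hw'⟩
    rintro i ⟨z, hz, hz'⟩
    by_contra hcon
    have h5 := (main_bounds h hV N hN hN2 hr k' hk'n).2 i (by omega) (by omega) z hz
    exact hz' h5
  omega

end Pool.Agent.MP_55e6de_ag
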