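import Mathlib
import Pool.Agent.Lib.MP_55e6de_ag.One

/-!
# MP_55e6de_ag NG, module HnC: integral weights for any number of hyperbolic pairs

`WtI R a b ν`: there is a common eigenvector of the operators `R (b k) (a k)` with the eigenvalues
`ν k`. If there is a non-isotropic vector `u` which is orthogonal to all pairs, then the set of the
weights `ν` is stable under changes of sign of one coordinate (`sign`) and permutations (`swap`), a
positive coordinate can be lowered by one (`lower`), and `1` can be moved from a coordinate to a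
smaller one (`move`).
-/

set_option autoImplicit false

noncomputable section

namespace Pool.Agent.MP_55e6de_ag

variable {U M ι : Type*} [AddCommGroup U] [Module ℂ U] [AddCommGroup M] [Module ℂ M]
  [DecidableEq ι]

/-- orthogonal hyperbolic pairs -/
structure HypI (Q : LinearMap.BilinForm ℂ U) (a b : ι → U) : Prop where
  aa : ∀ i j, Q (a i) (a j) = 0
  bb : ∀ i j, Q (b i) (b j) = 0
  ab : ∀ i j, Q (a i) (b j) = if i = j then 1 else 0

variable {Q : LinearMap.BilinForm ℂ U} {R : U →ₗ[ℂ] U →ₗ[ℂ] Module.End ℂ M}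

lemma HypI.ba {a b : ι → U} (h : Rep Q R) (hH : HypI Q a b) (i j : ι) :
    Q (b i) (a j) = if i = j then 1 else 0 := by
  rw [h.symm, hH.ab]
  simp only [eq_comm]

lemma HypI.va {a b : ι → U} (h : Rep Q R) (hH : HypI Q a b) (i k : ι) :
    Q (a i) (b k) • a k - Q (a i) (a k) • b k = (if k = i then (1 : ℂ) else 0) • a i := by
  rw [hH.aa, hH.ab]
  by_cases hik : k = i
  · subst hik
    simp
  · rw [if_neg hik, if_neg (Ne.symm hik)]
    simp

lemma HypI.vb {a b : ι → U} (h : Rep Q R) (hH : HypI Q a b) (i k : ι) :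
    Q (b i) (b k) • a k - Q (b i) (a k) • b k = (-(if k = i then (1 : ℂ) else 0)) • b i := by
  rw [hH.bb, hH.ba h]
  by_cases hik : k = i
  · subst hik
    simp
  · rw [if_neg hik, if_neg (Ne.symm hik)]
    simp

/-- there is a common eigenvector with the eigenvalues `ν k` -/
def WtI (R : U →ₗ[ℂ] U →ₗ[ℂ] Module.End ℂ M) (a b : ι → U) (ν : ι → ℤ) : Prop :=
  ∃ v : M, v ≠ 0 ∧ ∀ k, R (b k) (a k) v = (ν k : ℂ) • v

variable [FiniteDimensional ℂ M]

lemma Sl2.F_ne {E F K : Module.End ℂ M} (h : Sl2 E F K) (v : M) (hv : v ≠ 0) (z : ℤ)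
    (hz : 0 < z) (hK : K v = (z : ℂ) • v) : F v ≠ 0 := by
  intro h0
  obtain ⟨m, hm, -⟩ := h.symm.prim v hv h0 (-(z : ℂ)) (by rw [LinearMap.neg_apply, hK, neg_smul])
  have h1 : -z = (m : ℤ) := by exact_mod_cast hm
  omega

variable {a b : ι → U}

lemma sl2_long (h : Rep Q R) (hH : HypI Q a b) (i j : ι) (hij : i ≠ j) :
    Sl2 (R (a i) (b j)) (R (a j) (b i)) (R (b i) (a i) - R (b j) (a j)) := by
  apply h.sl2 _ _ _ _ (hH.aa _ _) (hH.bb _ _) (hH.aa _ _) (hH.bb _ _) <;>
    simp [hH.aa, hH.bb, hH.ab, hH.ba h, hij, hij.symm]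

lemma sl2_short (h : Rep Q R) (hH : HypI Q a b) (u : U) (hu : Q u u ≠ 0)
    (hua : ∀ i, Q u (a i) = 0) (hub : ∀ i, Q u (b i) = 0) (i : ι) :
    Sl2 (R (a i) u) ((-2 / Q u u) • R (b i) u) ((2 : ℂ) • R (b i) (a i)) := by
  have hau : ∀ i, Q (a i) u = 0 := fun i => by rw [h.symm, hua]
  have hbu : ∀ i, Q (b i) u = 0 := fun i => by rw [h.symm, hub]
  have hu0 : ∀ k, Q u (b k) • a k - Q u (a k) • b k = (0 : ℂ) • u := fun k => by
    simp [hua, hub]
  have k1 := h.br (a i) u (b i) u
  rw [hbu, hua, h.self, hH.ba h] at k1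
  simp only [if_true, smul_zero, zero_smul, sub_zero, zero_sub, add_zero] at k1
  have k2 := h.cart (a i) (b i) (a i) u _ _ (hH.va h i i) (hu0 i)
  have k3 := h.cart (a i) (b i) (b i) u _ _ (hH.vb h i i) (hu0 i)
  simp only [if_true, add_zero] at k2 k3
  refine ⟨?_, ?_, ?_⟩
  · rw [mul_smul_comm, smul_mul_assoc, ← smul_sub, k1, ← smul_neg, smul_smul]
    rw [div_mul_cancel₀ _ hu, smul_neg, neg_smul, neg_neg]
  · rw [mul_smul_comm, smul_mul_assoc, ← smul_sub, k2, one_smul]
  · rw [smul_mul_smul_comm, smul_mul_smul_comm, mul_comm (-2 / Q u u), ← smul_sub, k3, neg_smul,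
      one_smul, smul_neg, mul_smul]

/-- permutation of two coordinates -/
lemma WtI.swap (h : Rep Q R) (hH : HypI Q a b) (i j : ι) (hij : i ≠ j) {ν : ι → ℤ}
    (hν : WtI R a b ν) : WtI R a b (fun k => ν (Equiv.swap i j k)) := by
  obtain ⟨v, hv, hx⟩ := hν
  obtain ⟨-, v', hv', -, h2⟩ := (sl2_long h hH i j hij).weyl (fun k => R (b k) (a k))
    (fun k => (if k = i then (1 : ℂ) else 0) - (if k = j then 1 else 0))
    (fun k => by
      rw [h.cart (a k) (b k) (a i) (b j) _ _ (hH.va h i k) (hH.vb h j k), sub_eq_add_neg])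
    (fun k => by
      rw [h.cart (a k) (b k) (a j) (b i) _ _ (hH.va h j k) (hH.vb h i k), ← neg_smul]
      congr 1
      ring)
    (fun k => (ν k : ℂ)) v hv hx ((ν i : ℂ) - ν j) (by rw [LinearMap.sub_apply, hx, hx, sub_smul])
  refine ⟨v', hv', fun k => ?_⟩
  rw [h2 k]
  congr 1
  change _ = ((ν (Equiv.swap i j k) : ℤ) : ℂ)
  by_cases h3 : k = i
  · subst h3
    rw [Equiv.swap_apply_left, if_pos rfl, if_neg hij]
    ring
  · by_cases h4 : k = j
    · subst h4
      rw [Equiv.swap_apply_right, if_pos rfl, if_neg hij.symm]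
      ring
    · rw [Equiv.swap_apply_of_ne_of_ne h3 h4, if_neg h3, if_neg h4]
      ring

/-- change of the sign of one coordinate -/
lemma WtI.sign (h : Rep Q R) (hH : HypI Q a b) (u : U) (hu : Q u u ≠ 0)
    (hua : ∀ i, Q u (a i) = 0) (hub : ∀ i, Q u (b i) = 0) (i : ι) {ν : ι → ℤ}
    (hν : WtI R a b ν) : WtI R a b (Function.update ν i (- ν i)) := by
  have hu0 : ∀ k, Q u (b k) • a k - Q u (a k) • b k = (0 : ℂ) • u := fun k => by
    simp [hua, hub]
  obtain ⟨v, hv, hx⟩ := hν
  obtain ⟨-, v', hv', -, h2⟩ := (sl2_short h hH u hu hua hub i).weyl (fun k => R (b k) (a k))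
    (fun k => if k = i then (1 : ℂ) else 0)
    (fun k => by
      rw [h.cart (a k) (b k) (a i) u _ _ (hH.va h i k) (hu0 k), add_zero])
    (fun k => by
      rw [mul_smul_comm, smul_mul_assoc, ← smul_sub,
        h.cart (a k) (b k) (b i) u _ _ (hH.vb h i k) (hu0 k), add_zero, smul_comm, neg_smul])
    (fun k => (ν k : ℂ)) v hv hx (2 * (ν i : ℂ)) (by
      rw [LinearMap.smul_apply, hx, smul_smul])
  refine ⟨v', hv', fun k => ?_⟩
  rw [h2 k]
  congr 1
  by_cases h3 : k = i
  · subst h3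
    rw [Function.update_self, if_pos rfl]
    push_cast
    ring
  · rw [Function.update_of_ne h3, if_neg h3]
    ring

/-- lower a positive coordinate -/
lemma WtI.lower (h : Rep Q R) (hH : HypI Q a b) (u : U) (hu : Q u u ≠ 0)
    (hua : ∀ i, Q u (a i) = 0) (hub : ∀ i, Q u (b i) = 0) (i : ι) {ν : ι → ℤ}
    (hν : WtI R a b ν) (hi : 0 < ν i) : WtI R a b (Function.update ν i (ν i - 1)) := by
  have hu0 : ∀ k, Q u (b k) • a k - Q u (a k) • b k = (0 : ℂ) • u := fun k => by
    simp [hua, hub]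
  obtain ⟨v, hv, hx⟩ := hν
  have h1 := (sl2_short h hH u hu hua hub i).F_ne v hv (2 * ν i) (by omega) (by
    rw [LinearMap.smul_apply, hx, smul_smul]
    push_cast
    rfl)
  refine ⟨R (b i) u v, fun h0 => h1 (by rw [LinearMap.smul_apply, h0, smul_zero]), fun k => ?_⟩
  have := h.cart_apply (a k) (b k) (b i) u _ _ _ (hH.vb h i k) (hu0 k) v (hx k)
  rw [this]
  congr 1
  by_cases h3 : k = i
  · subst h3
    rw [Function.update_self, if_pos rfl]
    push_cast
    ring
  · rw [Function.update_of_ne h3, if_neg h3]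
    ring

/-- move `1` to a smaller coordinate -/
lemma WtI.move (h : Rep Q R) (hH : HypI Q a b) (i j : ι) (hij : i ≠ j) {ν : ι → ℤ}
    (hν : WtI R a b ν) (hlt : ν j < ν i) :
    WtI R a b (Function.update (Function.update ν i (ν i - 1)) j (ν j + 1)) := by
  obtain ⟨v, hv, hx⟩ := hν
  have h1 := (sl2_long h hH i j hij).F_ne v hv (ν i - ν j) (by omega) (by
    rw [LinearMap.sub_apply, hx, hx, ← sub_smul]
    push_cast
    rfl)
  refine ⟨R (a j) (b i) v, h1, fun k => ?_⟩
  have := h.cart_apply (a k) (b k) (a j) (b i) _ _ _ (hH.va h j k) (hH.vb h i k) v (hx k)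
  rw [this]
  congr 1
  by_cases h3 : k = j
  · subst h3
    rw [Function.update_self, if_pos rfl, if_neg hij.symm]
    push_cast
    ring
  · rw [Function.update_of_ne h3, if_neg h3]
    by_cases h4 : k = i
    · subst h4
      rw [Function.update_self, if_pos rfl]
      push_cast
      ring
    · rw [Function.update_of_ne h4, if_neg h4]
      ring

end Pool.Agent.MP_55e6de_ag
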