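import Mathlib
import Pool.Agent.Lib.MP_55e6de_ag.HnC

/-!
# MP_55e6de_ag NG, module HnD: the weights in an octahedron

If the first Cartan operator has an eigenvector with the eigenvalue `y`, a natural number with
`m ≤ y`, then all `ν : ι → ℤ` with `∑ |ν k| ≤ m` are weights (`WtI.ball`), and so the dimension is
at least the number `octa ι m` of such `ν`.
-/

set_option autoImplicit false

noncomputable section

namespace Pool.Agent.MP_55e6de_ag

open Finset

/-- the number of the integral points `ν` with `∑ |ν k| ≤ m` -/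
def octa (ι : Type*) [Fintype ι] (m : ℕ) : ℕ := Nat.card {ν : ι → ℤ // ∑ i, |ν i| ≤ m}

variable {U M ι : Type*} [AddCommGroup U] [Module ℂ U] [AddCommGroup M] [Module ℂ M]
  [FiniteDimensional ℂ M] [DecidableEq ι]
  {Q : LinearMap.BilinForm ℂ U} {R : U →ₗ[ℂ] U →ₗ[ℂ] Module.End ℂ M} {a b : ι → U}

lemma WtI.lowerTo (h : Rep Q R) (hH : HypI Q a b) (u : U) (hu : Q u u ≠ 0)
    (hua : ∀ i, Q u (a i) = 0) (hub : ∀ i, Q u (b i) = 0) (i : ι) (c : ℤ) (hc : 0 ≤ c) (d : ℕ) :
    ∀ ν : ι → ℤ, WtI R a b ν → ν i = c + d → WtI R a b (Function.update ν i c) := by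
  induction d with
  | zero =>
    intro ν hν hi
    have h1 : Function.update ν i c = ν := by
      rw [← show ν i = c by simpa using hi, Function.update_eq_self]
    rw [h1]
    exact hν
  | succ d ih =>
    intro ν hν hi
    have h1 := ih _ (hν.lower h hH u hu hua hub i (by push_cast at hi; omega)) (by
      rw [Function.update_self, hi]
      push_cast
      ring)
    rwa [Function.update_idem] at h1

lemma WtI.setAbs (h : Rep Q R) (hH : HypI Q a b) (u : U) (hu : Q u u ≠ 0)
    (hua : ∀ i, Q u (a i) = 0) (hub : ∀ i, Q u (b i) = 0) (i : ι) (c : ℤ) (ν : ι → ℤ)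
    (hν : WtI R a b ν) (hc : |c| ≤ |ν i|) : WtI R a b (Function.update ν i c) := by
  -- first with a nonnegative coordinate
  have h1 : WtI R a b (Function.update ν i |ν i|) := by
    rcases le_or_gt 0 (ν i) with h2 | h2
    · rw [abs_of_nonneg h2, Function.update_eq_self]
      exact hν
    · rw [abs_of_neg h2]
      exact hν.sign h hH u hu hua hub i
  have h2 := WtI.lowerTo h hH u hu hua hub i |c| (abs_nonneg c) (|ν i| - |c|).toNat _ h1 (by
    rw [Function.update_self, Int.toNat_of_nonneg (by omega)]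
    ring)
  rw [Function.update_idem] at h2
  rcases le_or_gt 0 c with h3 | h3
  · rwa [abs_of_nonneg h3] at h2
  · have h4 := h2.sign h hH u hu hua hub i
    rw [Function.update_self, Function.update_idem, abs_of_neg h3, neg_neg] at h4
    exact h4

lemma WtI.down [Fintype ι] (h : Rep Q R) (hH : HypI Q a b) (u : U) (hu : Q u u ≠ 0)
    (hua : ∀ i, Q u (a i) = 0) (hub : ∀ i, Q u (b i) = 0) (ν τ : ι → ℤ)
    (hν : WtI R a b ν) (hτ : ∀ k, |τ k| ≤ |ν k|) : WtI R a b τ := by
  have key : ∀ s : Finset ι, WtI R a b (fun k => if k ∈ s then τ k else ν k) := by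
    intro s
    induction s using Finset.induction_on with
    | empty => simpa using hν
    | insert i s hi ih =>
      have h1 := ih.setAbs h hH u hu hua hub i (τ i) _ (by
        rw [if_neg hi]
        exact hτ i)
      have h2 : Function.update (fun k => if k ∈ s then τ k else ν k) i (τ i) =
          fun k => if k ∈ insert i s then τ k else ν k := by
        funext k
        by_cases h3 : k = i
        · subst h3
          rw [Function.update_self, if_pos (mem_insert_self k s)]
        · rw [Function.update_of_ne h3]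
          simp only [mem_insert, h3, false_or]
      rwa [h2] at h1
  have h1 := key univ
  simpa using h1

lemma WtI.ballNat [Fintype ι] (h : Rep Q R) (hH : HypI Q a b) (u : U) (hu : Q u u ≠ 0)
    (hua : ∀ i, Q u (a i) = 0) (hub : ∀ i, Q u (b i) = 0) (i0 : ι) (m : ℕ)
    (hm : WtI R a b (fun k => if k = i0 then (m : ℤ) else 0)) (N : ℕ) :
    ∀ τ : ι → ℕ, ∑ k ∈ univ.erase i0, τ k = N → ∑ k, τ k ≤ m →
      WtI R a b (fun k => (τ k : ℤ)) := by
  induction N using Nat.strong_induction_on with
  | _ N ih =>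
    intro τ hN hτ
    have key0 : ∀ σ : ι → ℕ, ∑ k, σ k = σ i0 + ∑ k ∈ univ.erase i0, σ k := fun σ =>
      (Finset.add_sum_erase _ _ (mem_univ i0)).symm
    by_cases hz : ∀ k, k ≠ i0 → τ k = 0
    · refine hm.down h hH u hu hua hub _ _ fun k => ?_
      by_cases h1 : k = i0
      · subst h1
        have h2 := key0 τ
        rw [if_pos rfl]
        have h3 : τ k ≤ m := by omega
        rw [abs_of_nonneg (by positivity), abs_of_nonneg (by positivity)]
        exact_mod_cast h3
      · rw [hz k h1]
        simp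
    · push Not at hz
      obtain ⟨j, hj, hj0⟩ := hz
      have key1 : ∀ σ : ι → ℕ, ∑ k ∈ univ.erase i0, σ k =
          σ j + ∑ k ∈ (univ.erase i0).erase j, σ k := fun σ =>
        (Finset.add_sum_erase _ _ (mem_erase.2 ⟨hj, mem_univ j⟩)).symm
      have e0 := key0 τ
      have e1 := key1 τ
      rcases Nat.lt_or_ge (τ i0 + 1) (τ j) with hlt | hge
      · -- exchange the two coordinates
        set σ : ι → ℕ := fun k => τ (Equiv.swap i0 j k) with hσ
        have f0 := key0 σ
        have f1 := key1 σ
        have g0 : σ i0 = τ j := by rw [hσ]; simp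
        have g1 : σ j = τ i0 := by rw [hσ]; simp
        have g2 : ∑ k ∈ (univ.erase i0).erase j, σ k = ∑ k ∈ (univ.erase i0).erase j, τ k := by
          refine Finset.sum_congr rfl fun k hk => ?_
          rw [mem_erase, mem_erase] at hk
          change τ (Equiv.swap i0 j k) = τ k
          rw [Equiv.swap_apply_of_ne_of_ne hk.2.1 hk.1]
        have h1 := ih (∑ k ∈ univ.erase i0, σ k) (by omega) σ rfl (by omega)
        have h2 := h1.swap h hH i0 j hj.symm
        refine Eq.mp (congrArg (WtI R a b) ?_) h2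
        funext k
        change ((τ (Equiv.swap i0 j (Equiv.swap i0 j k)) : ℕ) : ℤ) = τ k
        rw [Equiv.swap_apply_self]
      · -- move one
        set σ : ι → ℕ := Function.update (Function.update τ i0 (τ i0 + 1)) j (τ j - 1) with hσ
        have f0 := key0 σ
        have f1 := key1 σ
        have g0 : σ i0 = τ i0 + 1 := by
          rw [hσ, Function.update_of_ne hj.symm, Function.update_self]
        have g1 : σ j = τ j - 1 := by rw [hσ, Function.update_self]
        have g3 : ∀ k, k ≠ i0 → k ≠ j → σ k = τ k := by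
          intro k h1 h2
          rw [hσ, Function.update_of_ne h2, Function.update_of_ne h1]
        have g2 : ∑ k ∈ (univ.erase i0).erase j, σ k = ∑ k ∈ (univ.erase i0).erase j, τ k := by
          refine Finset.sum_congr rfl fun k hk => ?_
          rw [mem_erase, mem_erase] at hk
          exact g3 k hk.2.1 hk.1
        have h1 := ih (∑ k ∈ univ.erase i0, σ k) (by omega) σ rfl (by omega)
        have h2 := h1.move h hH i0 j hj.symm (by
          change ((σ j : ℕ) : ℤ) < ((σ i0 : ℕ) : ℤ)
          rw [g0, g1]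
          omega)
        refine Eq.mp (congrArg (WtI R a b) ?_) h2
        funext k
        by_cases h3 : k = j
        · subst h3
          rw [Function.update_self, g1]
          omega
        · rw [Function.update_of_ne h3]
          by_cases h4 : k = i0
          · subst h4
            rw [Function.update_self, g0]
            push_cast
            ring
          · rw [Function.update_of_ne h4, g3 k h4 h3]

lemma WtI.ball [Fintype ι] (h : Rep Q R) (hH : HypI Q a b) (u : U) (hu : Q u u ≠ 0)
    (hua : ∀ i, Q u (a i) = 0) (hub : ∀ i, Q u (b i) = 0) (i0 : ι) (m : ℕ)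
    (hm : WtI R a b (fun k => if k = i0 then (m : ℤ) else 0)) (τ : ι → ℤ)
    (hτ : ∑ k, |τ k| ≤ m) : WtI R a b τ := by
  have h1 := WtI.ballNat h hH u hu hua hub i0 m hm _ (fun k => (τ k).natAbs) rfl (by
    have h2 : ((∑ k, (τ k).natAbs : ℕ) : ℤ) = ∑ k, |τ k| := by
      push_cast
      rfl
    have h3 : ((∑ k, (τ k).natAbs : ℕ) : ℤ) ≤ (m : ℤ) := by
      rw [h2]
      exact hτ
    exact_mod_cast h3)
  refine h1.down h hH u hu hua hub _ _ fun k => ?_
  simp

lemma comm_cart (h : Rep Q R) (hH : HypI Q a b) (i j : ι) :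
    R (b i) (a i) * R (b j) (a j) = R (b j) (a j) * R (b i) (a i) := by
  have h1 := h.cart (a i) (b i) (b j) (a j) _ _ (hH.vb h j i) (hH.va h j i)
  rw [neg_add_cancel, zero_smul] at h1
  exact sub_eq_zero.1 h1

/-- a common eigenvector with an integral weight -/
lemma exists_WtI [Fintype ι] (h : Rep Q R) (hH : HypI Q a b) (i0 : ι) (y : ℤ) (v : M)
    (hv : v ≠ 0) (hy : R (b i0) (a i0) v = (y : ℂ) • v) :
    ∃ ν : ι → ℤ, ν i0 = y ∧ WtI R a b ν := by
  have key : ∀ s : Finset ι, ∃ (χ : ι → ℂ) (w : M), w ≠ 0 ∧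
      R (b i0) (a i0) w = (y : ℂ) • w ∧ ∀ k ∈ s, R (b k) (a k) w = χ k • w := by
    intro s
    induction s using Finset.induction_on with
    | empty => exact ⟨fun _ => 0, v, hv, hy, by simp⟩
    | insert i s hi ih =>
      obtain ⟨χ, w, hw, hw0, hw1⟩ := ih
      set T : Submodule ℂ M := Module.End.eigenspace (R (b i0) (a i0)) (y : ℂ) ⊓
        ⨅ k ∈ s, Module.End.eigenspace (R (b k) (a k)) (χ k) with hT
      have hmem : ∀ z, z ∈ T ↔ R (b i0) (a i0) z = (y : ℂ) • z ∧
          ∀ k ∈ s, R (b k) (a k) z = χ k • z := by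
        intro z
        rw [hT, Submodule.mem_inf, Module.End.mem_eigenspace_iff]
        simp only [Submodule.mem_iInf, Module.End.mem_eigenspace_iff]
      have st : ∀ z ∈ T, R (b i) (a i) z ∈ T := by
        intro z hz
        rw [hmem] at hz ⊢
        refine ⟨?_, fun k hk => ?_⟩
        · rw [← Module.End.mul_apply, comm_cart h hH, Module.End.mul_apply, hz.1, map_smul]
        · rw [← Module.End.mul_apply, comm_cart h hH, Module.End.mul_apply, hz.2 k hk, map_smul]
      have : Nontrivial T := ⟨⟨⟨w, (hmem w).2 ⟨hw0, hw1⟩⟩, 0, fun h0 =>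
        hw (congrArg (fun t : T => t.1) h0)⟩⟩
      obtain ⟨c, hc⟩ := Module.End.exists_eigenvalue ((R (b i) (a i)).restrict st)
      obtain ⟨z, hz⟩ := hc.exists_hasEigenvector
      have hz1 : R (b i) (a i) z.1 = c • z.1 := congrArg Subtype.val hz.apply_eq_smul
      have hz0 : z.1 ≠ 0 := fun h0 => hz.2 (Subtype.ext h0)
      have hz2 := (hmem z.1).1 z.2
      refine ⟨Function.update χ i c, z.1, hz0, hz2.1, fun k hk => ?_⟩
      by_cases h3 : k = i
      · subst h3
        rw [Function.update_self]
        exact hz1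
      · rw [Function.update_of_ne h3]
        exact hz2.2 k ((mem_insert.1 hk).resolve_left h3)
  obtain ⟨χ, w, hw, hw0, hw1⟩ := key univ
  have hint : ∀ k, ∃ z : ℤ, χ k = z := by
    intro k
    by_cases h3 : k = i0
    · subst h3
      have h4 := hw1 k (mem_univ k)
      rw [hw0] at h4
      exact ⟨y, (smul_left_injective ℂ hw h4).symm⟩
    · obtain ⟨⟨z, hz⟩, -⟩ := (sl2_long h hH i0 k (Ne.symm h3)).weyl
        (fun i : Empty => i.elim) (fun i : Empty => i.elim) (fun i => i.elim) (fun i => i.elim)
        (fun i : Empty => i.elim) w hw (fun i => i.elim) ((y : ℂ) - χ k) (by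
          rw [LinearMap.sub_apply, hw0, hw1 k (mem_univ k), sub_smul])
      refine ⟨y - z, ?_⟩
      push_cast
      rw [← hz]
      ring
  choose ν hν using hint
  refine ⟨ν, ?_, w, hw, fun k => by rw [hw1 k (mem_univ k), hν]⟩
  have h4 := hw1 i0 (mem_univ i0)
  rw [hw0, hν] at h4
  have h5 := smul_left_injective ℂ hw h4
  exact_mod_cast h5.symm

/-- the number of different weights is at most the dimension -/
lemma card_le [Fintype ι] (h : Rep Q R) (hH : HypI Q a b) (m : ℕ)
    (hall : ∀ τ : ι → ℤ, ∑ k, |τ k| ≤ m → WtI R a b τ) : octa ι m ≤ Module.finrank ℂ M := by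
  have h1 : ∀ τ : {ν : ι → ℤ // ∑ i, |ν i| ≤ m}, WtI R a b τ.1 := fun τ => hall τ.1 τ.2
  choose v hv0 hv using h1
  have h2 := Module.End.independent_iInf_maxGenEigenspace_of_forall_mapsTo
    (fun k : ι => R (b k) (a k)) (fun i j φ =>
      Module.End.mapsTo_maxGenEigenspace_of_comm (comm_cart h hH j i) φ)
  have hinj : Function.Injective
      (fun (τ : {ν : ι → ℤ // ∑ i, |ν i| ≤ m}) (k : ι) => ((τ.1 k : ℤ) : ℂ)) := by
    intro τ τ' hττ
    refine Subtype.ext (funext fun k => ?_)
    have h3 : ((τ.1 k : ℤ) : ℂ) = ((τ'.1 k : ℤ) : ℂ) := congrFun hττ k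
    exact_mod_cast h3
  have h3 := (h2.comp hinj).linearIndependent (v := v) _ (fun τ => ?_) hv0
  · have : Finite {ν : ι → ℤ // ∑ i, |ν i| ≤ m} := h3.finite_of_isNoetherian
    have := Fintype.ofFinite {ν : ι → ℤ // ∑ i, |ν i| ≤ m}
    rw [octa, Nat.card_eq_fintype_card]
    exact h3.fintype_card_le_finrank
  · simp only [Function.comp_apply, Submodule.mem_iInf]
    intro k
    exact Module.End.mem_maxGenEigenspace _ _ _ |>.2 ⟨1, by
      rw [pow_one, LinearMap.sub_apply, hv τ k]
      simp⟩

/-- the dimension of a representation with a large eigenvalue of a Cartan operator -/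
theorem octa_le [Fintype ι] (h : Rep Q R) (hH : HypI Q a b) (u : U) (hu : Q u u ≠ 0)
    (hua : ∀ i, Q u (a i) = 0) (hub : ∀ i, Q u (b i) = 0) (i0 : ι) (m y : ℕ) (hmy : m ≤ y)
    (v : M) (hv : v ≠ 0) (hy : R (b i0) (a i0) v = (y : ℂ) • v) :
    octa ι m ≤ Module.finrank ℂ M := by
  obtain ⟨ν, hν, hW⟩ := exists_WtI h hH i0 (y : ℤ) v hv (by exact_mod_cast hy)
  have h1 : WtI R a b (fun k => if k = i0 then (m : ℤ) else 0) := by
    refine hW.down h hH u hu hua hub _ _ fun k => ?_
    by_cases h3 : k = i0
    · subst h3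
      rw [if_pos rfl, hν, abs_of_nonneg (by positivity), abs_of_nonneg (by positivity)]
      exact_mod_cast hmy
    · rw [if_neg h3]
      simp
  exact card_le h hH m fun τ hτ => WtI.ball h hH u hu hua hub i0 m h1 τ hτ

end Pool.Agent.MP_55e6de_ag
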