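import Mathlib
import Pool.Agent.Lib.MP_55e6de_ag.HnA
import Pool.Agent.Lib.MP_55e6de_ag.HnD

/-!
# MP_55e6de_ag NG, module HnE: the jump of the dimensions

Let `a0, b0` and `a1, b1` be two orthogonal hyperbolic pairs, `W0 = R b0 a0`, `W1 = R b1 a1` and
`S x0 x1` the joint eigenspaces of `W0` and `W1`. `F = R b1 b0` maps `S x0 x1` to
`S (x0 - 1) (x1 - 1)` and `E = R a0 a1` maps back. The kernel `T` of `F` on `S x0 x1` has dimension
at most `dim S x0 x1 - dim S (x0 - 1) (x1 - 1)` if `x0 + x1 - 2` is not a natural number (`jump`),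
and it is a representation of the orthogonal Lie algebra of the complement of the two pairs
(`repT`). So if `T` has a weight at least `m`, then the difference is at least `octa ι m`
(`jump_octa`).
-/

set_option autoImplicit false

noncomputable section

namespace Pool.Agent.MP_55e6de_ag

variable {U M : Type*} [AddCommGroup U] [Module ℂ U] [AddCommGroup M] [Module ℂ M]
  {Q : LinearMap.BilinForm ℂ U} {R : U →ₗ[ℂ] U →ₗ[ℂ] Module.End ℂ M}

/-- the joint eigenspaces of `R b0 a0` and `R b1 a1` -/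
def SS (R : U →ₗ[ℂ] U →ₗ[ℂ] Module.End ℂ M) (a0 b0 a1 b1 : U) (x0 x1 : ℂ) : Submodule ℂ M :=
  Module.End.eigenspace (R b0 a0) x0 ⊓ Module.End.eigenspace (R b1 a1) x1

lemma mem_SS (a0 b0 a1 b1 : U) (x0 x1 : ℂ) (v : M) : v ∈ SS R a0 b0 a1 b1 x0 x1 ↔
    R b0 a0 v = x0 • v ∧ R b1 a1 v = x1 • v := by
  rw [SS, Submodule.mem_inf, Module.End.mem_eigenspace_iff, Module.End.mem_eigenspace_iff]

/-- the kernel of `F = R b1 b0` on the joint eigenspace -/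
def TK (R : U →ₗ[ℂ] U →ₗ[ℂ] Module.End ℂ M) (a0 b0 a1 b1 : U) (x0 x1 : ℂ) : Submodule ℂ M :=
  SS R a0 b0 a1 b1 x0 x1 ⊓ LinearMap.ker (R b1 b0)

/-- two orthogonal hyperbolic pairs -/
structure Two (Q : LinearMap.BilinForm ℂ U) (a0 b0 a1 b1 : U) : Prop where
  a0a0 : Q a0 a0 = 0
  b0b0 : Q b0 b0 = 0
  a1a1 : Q a1 a1 = 0
  b1b1 : Q b1 b1 = 0
  a0b0 : Q a0 b0 = 1
  a1b1 : Q a1 b1 = 1
  a0a1 : Q a0 a1 = 0
  a0b1 : Q a0 b1 = 0
  b0a1 : Q b0 a1 = 0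
  b0b1 : Q b0 b1 = 0

lemma Two.sl2 (h : Rep Q R) {a0 b0 a1 b1 : U} (t : Two Q a0 b0 a1 b1) :
    Sl2 (R a0 a1) (R b1 b0) (R b0 a0 - R a1 b1) :=
  h.sl2 a0 b0 b1 a1 t.a0a0 t.b0b0 t.b1b1 t.a1a1 t.a0b0 (by rw [h.symm]; exact t.a1b1)
    t.a0b1 t.a0a1 t.b0b1 t.b0a1

variable [FiniteDimensional ℂ M]

theorem jump (h : Rep Q R) {a0 b0 a1 b1 : U} (t : Two Q a0 b0 a1 b1) (x0 x1 : ℂ)
    (hx : ∀ m : ℕ, (x0 - 1) + (x1 - 1) ≠ m) :
    Module.finrank ℂ (TK R a0 b0 a1 b1 x0 x1) +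
      Module.finrank ℂ (SS R a0 b0 a1 b1 (x0 - 1) (x1 - 1)) ≤
      Module.finrank ℂ (SS R a0 b0 a1 b1 x0 x1) := by
  have hs := t.sl2 h
  set S := SS R a0 b0 a1 b1 x0 x1 with hS
  set S' := SS R a0 b0 a1 b1 (x0 - 1) (x1 - 1) with hS'
  set T := TK R a0 b0 a1 b1 x0 x1 with hT
  have key : ∀ z ∈ S', R b1 b0 (R a0 a1 z) = 0 → z = 0 := by
    intro z hz h0
    by_contra hz0
    rw [hS', mem_SS] at hz
    obtain ⟨m, hm⟩ := hs.fe z hz0 h0 ((x0 - 1) + (x1 - 1)) (by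
      rw [h.skew a1 b1, sub_neg_eq_add, LinearMap.add_apply, hz.1, hz.2, ← add_smul])
    exact hx m hm
  have hmaps : ∀ z ∈ S', R a0 a1 z ∈ S := by
    intro z hz
    rw [hS', mem_SS] at hz
    rw [hS, mem_SS]
    constructor
    · have := h.cart_apply a0 b0 a0 a1 1 0 _ (by simp [t.a0a0, t.a0b0])
        (by simp [h.symm a1 a0, h.symm a1 b0, t.a0a1, t.b0a1]) z hz.1
      rw [this]
      congr 1
      ring
    · have := h.cart_apply a1 b1 a0 a1 0 1 _ (by simp [t.a0b1, t.a0a1])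
        (by simp [t.a1a1, t.a1b1]) z hz.2
      rw [this]
      congr 1
      ring
  have hinj : Function.Injective ((R a0 a1).domRestrict S') := by
    rw [← LinearMap.ker_eq_bot, LinearMap.ker_eq_bot']
    intro z hz
    refine Subtype.ext (key z.1 z.2 ?_)
    have hz' : R a0 a1 z.1 = 0 := hz
    rw [hz', map_zero]
  have h1 : Module.finrank ℂ (LinearMap.range ((R a0 a1).domRestrict S')) =
      Module.finrank ℂ S' := LinearMap.finrank_range_of_inj hinj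
  have h2 : T ⊓ LinearMap.range ((R a0 a1).domRestrict S') = ⊥ := by
    rw [eq_bot_iff]
    rintro w ⟨hw, ⟨z, hz⟩⟩
    have hz' : R a0 a1 z.1 = w := hz
    have hw' : R b1 b0 w = 0 := hw.2
    rw [← hz'] at hw'
    have h3 := key z.1 z.2 hw'
    rw [Submodule.mem_bot, ← hz', h3, map_zero]
  have h3 : T ⊔ LinearMap.range ((R a0 a1).domRestrict S') ≤ S := by
    refine sup_le inf_le_left ?_
    rintro w ⟨z, rfl⟩
    exact hmaps z.1 z.2
  have h4 := Submodule.finrank_sup_add_finrank_inf_eq T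
    (LinearMap.range ((R a0 a1).domRestrict S'))
  rw [h2, finrank_bot, add_zero, h1] at h4
  rw [← h4]
  exact Submodule.finrank_mono h3

/-- the vectors which are orthogonal to the two pairs -/
def Perp (Q : LinearMap.BilinForm ℂ U) (a0 b0 a1 b1 : U) : Submodule ℂ U :=
  LinearMap.ker (Q.flip a0) ⊓ LinearMap.ker (Q.flip b0) ⊓ LinearMap.ker (Q.flip a1) ⊓
    LinearMap.ker (Q.flip b1)

omit [FiniteDimensional ℂ M] in
lemma mem_Perp (a0 b0 a1 b1 x : U) : x ∈ Perp Q a0 b0 a1 b1 ↔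
    Q x a0 = 0 ∧ Q x b0 = 0 ∧ Q x a1 = 0 ∧ Q x b1 = 0 := by
  simp only [Perp, Submodule.mem_inf, LinearMap.mem_ker, and_assoc]
  exact Iff.rfl

omit [FiniteDimensional ℂ M] in
lemma TK_stable (h : Rep Q R) (a0 b0 a1 b1 : U) (x0 x1 : ℂ) (x y : U)
    (hx : x ∈ Perp Q a0 b0 a1 b1) (hy : y ∈ Perp Q a0 b0 a1 b1) :
    ∀ v ∈ TK R a0 b0 a1 b1 x0 x1, R x y v ∈ TK R a0 b0 a1 b1 x0 x1 := by
  rw [mem_Perp] at hx hy
  intro v hv
  have hv1 := (mem_SS _ _ _ _ _ _ _).1 hv.1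
  have hv2 : R b1 b0 v = 0 := hv.2
  refine ⟨(mem_SS _ _ _ _ _ _ _).2 ⟨?_, ?_⟩, ?_⟩
  · have := h.cart_apply a0 b0 x y 0 0 _ (by simp [hx.1, hx.2.1]) (by simp [hy.1, hy.2.1]) v hv1.1
    rw [this]
    congr 1
    ring
  · have := h.cart_apply a1 b1 x y 0 0 _ (by simp [hx.2.2.1, hx.2.2.2])
      (by simp [hy.2.2.1, hy.2.2.2]) v hv1.2
    rw [this]
    congr 1
    ring
  · have h1 := h.br b1 b0 x y
    rw [hx.2.2.2, hx.2.1, hy.2.2.2, hy.2.1] at h1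
    simp only [zero_smul, sub_zero, add_zero] at h1
    change R b1 b0 (R x y v) = 0
    rw [← Module.End.mul_apply, sub_eq_zero.1 h1, Module.End.mul_apply, hv2, map_zero]

/-- the representation on the kernel of `F` -/
def repT (h : Rep Q R) (a0 b0 a1 b1 : U) (x0 x1 : ℂ) :
    Perp Q a0 b0 a1 b1 →ₗ[ℂ] Perp Q a0 b0 a1 b1 →ₗ[ℂ]
      Module.End ℂ (TK R a0 b0 a1 b1 x0 x1) :=
  LinearMap.mk₂ ℂ (fun x y => (R x.1 y.1).restrict (TK_stable h a0 b0 a1 b1 x0 x1 _ _ x.2 y.2))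
    (by
      intro x x' y
      ext v
      simp)
    (by
      intro c x y
      ext v
      simp)
    (by
      intro x y y'
      ext v
      simp)
    (by
      intro c x y
      ext v
      simp)

omit [FiniteDimensional ℂ M] in
lemma repT_apply (h : Rep Q R) (a0 b0 a1 b1 : U) (x0 x1 : ℂ) (x y : Perp Q a0 b0 a1 b1)
    (v : TK R a0 b0 a1 b1 x0 x1) :
    ((repT h a0 b0 a1 b1 x0 x1 x y v : TK R a0 b0 a1 b1 x0 x1) : M) = R x.1 y.1 v.1 := rfl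

omit [FiniteDimensional ℂ M] in
lemma repT_rep (h : Rep Q R) (a0 b0 a1 b1 : U) (x0 x1 : ℂ) :
    Rep (Q.domRestrict₁₂ (Perp Q a0 b0 a1 b1) (Perp Q a0 b0 a1 b1))
      (repT h a0 b0 a1 b1 x0 x1) := by
  refine ⟨fun x y => h.symm x.1 y.1, ?_, ?_⟩
  · intro x y
    ext v
    change R x.1 y.1 v.1 = ((-(repT h a0 b0 a1 b1 x0 x1 y x)) v).1
    rw [LinearMap.neg_apply, Submodule.coe_neg, repT_apply, h.skew x.1 y.1, LinearMap.neg_apply]
  · intro u w x y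
    ext v
    have h1 := LinearMap.congr_fun (h.br u.1 w.1 x.1 y.1) v.1
    simp only [LinearMap.sub_apply, LinearMap.add_apply, LinearMap.smul_apply,
      Module.End.mul_apply] at h1
    simp only [LinearMap.sub_apply, LinearMap.add_apply, LinearMap.smul_apply,
      Module.End.mul_apply, Submodule.coe_sub, Submodule.coe_add, Submodule.coe_smul, repT_apply,
      LinearMap.domRestrict₁₂_apply]
    exact h1

theorem jump_octa {ι : Type*} [Fintype ι] [DecidableEq ι] (h : Rep Q R) {a0 b0 a1 b1 : U}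
    (t : Two Q a0 b0 a1 b1) (x0 x1 : ℂ) (hx : ∀ m : ℕ, (x0 - 1) + (x1 - 1) ≠ m)
    {c d : ι → U} (hH : HypI Q c d) (u : U) (hu : Q u u ≠ 0)
    (huc : ∀ i, Q u (c i) = 0) (hud : ∀ i, Q u (d i) = 0)
    (hc : ∀ i, c i ∈ Perp Q a0 b0 a1 b1) (hd : ∀ i, d i ∈ Perp Q a0 b0 a1 b1)
    (hup : u ∈ Perp Q a0 b0 a1 b1) (i0 : ι) (m y : ℕ) (hmy : m ≤ y)
    (v : M) (hv0 : v ≠ 0) (hv : v ∈ TK R a0 b0 a1 b1 x0 x1)
    (hy : R (d i0) (c i0) v = (y : ℂ) • v) :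
    octa ι m + Module.finrank ℂ (SS R a0 b0 a1 b1 (x0 - 1) (x1 - 1)) ≤
      Module.finrank ℂ (SS R a0 b0 a1 b1 x0 x1) := by
  have h1 := octa_le (repT_rep h a0 b0 a1 b1 x0 x1)
    (a := fun i => (⟨c i, hc i⟩ : Perp Q a0 b0 a1 b1)) (b := fun i => ⟨d i, hd i⟩)
    ⟨fun i j => hH.aa i j, fun i j => hH.bb i j, fun i j => hH.ab i j⟩ ⟨u, hup⟩ hu huc hud i0 m y
    hmy ⟨v, hv⟩ (fun h0 => hv0 (congrArg Subtype.val h0)) (Subtype.ext hy)
  have h2 := jump h t x0 x1 hx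
  omega

end Pool.Agent.MP_55e6de_ag
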