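import Mathlib
import Pool.Agent.Lib.MP_55e6de_ag.HnB
import Pool.Agent.Lib.MP_55e6de_ag.HnE

/-!
# MP_55e6de_ag NG, module HnF: Nagai's equality and the jumps of the Hodge numbers

Suppose that Nagai's equality fails in some degree. Then there is a weight `-A, x, y` with
`n + 1 ≤ A + x + y`; take it with `A` maximal and `y ≤ x ≤ A`. It is a weight of `H^{r,p}`,
`p = n - A - x`, `r = n - A + x`, and `1 ≤ p`, `p + 1 ≤ y`, so `3 p + 2 ≤ r ≤ n`. The vector lies in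
the kernel of `H^{r,p} → H^{r-2,p}`, otherwise `-(A + 1), x - 1, y` is a weight. So by `jump_octa`
`h^{r,p} - h^{r-2,p}` is at least the number of the integral points of an octahedron. If the
equality fails for `H^{2k}`, then `n - k ≤ A`, so `p + r ≤ 2 k`.
-/

set_option autoImplicit false

noncomputable section

namespace Pool.Agent.MP_55e6de_ag

attribute [local instance 100] LieRing.ofAssociativeRing

variable {V H : Type*} [AddCommGroup V] [Module ℂ V] [AddCommGroup H] [Module ℂ H]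
variable {q : LinearMap.BilinForm ℂ V} {hq : ∀ x y, q x y = q y x} {s s' : V}
  {ρ : LLV q →ₗ⁅ℂ⁆ Module.End ℂ H} {n : ℕ}

/-- the frame of a type II element with further hyperbolic pairs -/
theorem exists_frame2 [FiniteDimensional ℂ V] [FiniteDimensional ℂ H] (h : IsHK q hq s s' ρ n)
    (t : ℕ) (hV : 2 * t + 5 ≤ Module.finrank ℂ V) (N : Module.End ℂ V)
    (hN : ∀ x y, q (N x) y = - q x (N y))
    (hN2 : ∀ x, N (N x) = 0) (hr : Module.finrank ℂ (LinearMap.range N) = 2) :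
    ∃ (a b : Fin 3 → V × ℂ × ℂ) (c d : Fin (t + 1) → V × ℂ × ℂ) (u : V × ℂ × ℂ),
      Hyp (mukai q) a b ∧ mukai q u u ≠ 0 ∧
      (∀ i, mukai q u (a i) = 0) ∧ (∀ i, mukai q u (b i) = 0) ∧
      Dec (repR q hq ρ (b 0) (a 0)) (repR q hq ρ (b 1) (a 1)) n ∧
      ρ (extend q N hN) = repR q hq ρ (a 1) (a 2) ∧ ρ (degree q hq) = repR q hq ρ (b 0) (a 0) ∧
      Conj3 (repR q hq ρ (b 0) (a 0)) (ρ (hodge q hq s s')) (repR q hq ρ (b 1) (a 1)) ∧
      HypI (mukai q) c d ∧ (∀ i, mukai q u (c i) = 0) ∧ (∀ i, mukai q u (d i) = 0) ∧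
      (∀ i, c i ∈ Perp (mukai q) (a 0) (b 0) (a 1) (b 1)) ∧
      (∀ i, d i ∈ Perp (mukai q) (a 0) (b 0) (a 1) (b 1)) ∧
      u ∈ Perp (mukai q) (a 0) (b 0) (a 1) (b 1) ∧ c 0 = a 2 ∧ d 0 = b 2 := by
  obtain ⟨e, f, y, y', hee, hff, hef, h1, h2, h3, h4, hNe⟩ :=
    rank_two q hq h.nondeg N hN hN2 hr
  obtain ⟨e', f', hee', hff', hef', k1, k2, k3, k4⟩ :=
    hyperbolic q hq e f y y' hee hff hef h1 h2 h3 h4
  -- more pairs
  obtain ⟨P, P', p1, p2, p3, p4⟩ := more_pairs q hq h.nondeg 2 t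
    (fun i => if i = 0 then e else f) (fun i => if i = 0 then e' else f')
    (by
      intro i hi j hj
      interval_cases i <;> interval_cases j <;> simp [hee, hff, hef, hq f e])
    (by
      intro i hi j hj
      interval_cases i <;> interval_cases j <;> simp [hee', hff', hef', hq f' e'])
    (by
      intro i hi j hj
      interval_cases i <;> interval_cases j <;> simp [k1, k2, k3, k4])
    (by omega)
  obtain ⟨u, hu1, hu2, hu⟩ := non_iso q hq h.nondeg (fun i : Fin (2 + t) => P i)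
    (fun i : Fin (2 + t) => P' i) (fun i j => p1 i i.2 j j.2) (fun i j => p2 i i.2 j j.2)
    (fun i j => by rw [p3 i i.2 j j.2]; simp only [Fin.ext_iff]) (by rw [Fintype.card_fin]; omega)
  have v1 : ∀ i < 2 + t, q u (P i) = 0 := fun i hi => hu1 ⟨i, hi⟩
  have v2 : ∀ i < 2 + t, q u (P' i) = 0 := fun i hi => hu2 ⟨i, hi⟩
  have P0 : P 0 = e := by simpa using (p4 0 (by norm_num)).1
  have P1 : P 1 = f := by simpa using (p4 1 (by norm_num)).1
  have P0' : P' 0 = e' := by simpa using (p4 0 (by norm_num)).2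
  have P1' : P' 1 = f' := by simpa using (p4 1 (by norm_num)).2
  obtain ⟨w, ht, hts, hte⟩ := common q hq h.nondeg s s' e e' h.iso h.iso' h.pair hee hee' k1
    (by omega)
  have hR := repR_rep q hq ρ
  set a : Fin 3 → V × ℂ × ℂ := ![(0, 0, 1), (e, 0, 0), (f, 0, 0)] with ha
  set b : Fin 3 → V × ℂ × ℂ := ![(0, 1, 0), (e', 0, 0), (f', 0, 0)] with hb
  have hH : Hyp (mukai q) a b := by
    refine ⟨?_, ?_, ?_⟩
    · intro i j
      fin_cases i <;> fin_cases j <;> simp [ha, mukai_apply, hee, hff, hef, hq f e]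
    · intro i j
      fin_cases i <;> fin_cases j <;> simp [hb, mukai_apply, hee', hff', hef', hq f' e']
    · intro i j
      fin_cases i <;> fin_cases j <;> simp [ha, hb, mukai_apply, k1, k2, k3, k4]
  have hperp : ∀ z : V, q z e = 0 → q z e' = 0 →
      ((z, 0, 0) : V × ℂ × ℂ) ∈ Perp (mukai q) (a 0) (b 0) (a 1) (b 1) := by
    intro z hz1 hz2
    rw [mem_Perp]
    simp [ha, hb, mukai_apply, hz1, hz2]
  refine ⟨a, b, fun i => (P (i + 1), 0, 0), fun i => (P' (i + 1), 0, 0), (u, 0, 0), hH, ?_, ?_, ?_,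
    ?_, ?_, rfl, ?_, ⟨?_, ?_, ?_⟩, ?_, ?_, ?_, ?_, ?_, ?_, ?_⟩
  · rw [mukai_V]
    exact hu
  · intro i
    have e1 := v1 0 (by omega)
    have e2 := v1 1 (by omega)
    rw [P0] at e1
    rw [P1] at e2
    fin_cases i <;> simp [ha, mukai_apply, e1, e2]
  · intro i
    have e1 := v2 0 (by omega)
    have e2 := v2 1 (by omega)
    rw [P0'] at e1
    rw [P1'] at e2
    fin_cases i <;> simp [hb, mukai_apply, e1, e2]
  · have hD0 : Dec (repR q hq ρ (0, 1, 0) (0, 0, 1)) (repR q hq ρ (s', 0, 0) (s, 0, 0)) n := h.dec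
    refine hD0.chain hR (s, 0, 0) (s', 0, 0) (e, 0, 0) (e', 0, 0) (w, 0, 0) ?_ ?_ ?_ ?_ ?_ ?_ ?_
      ?_ ?_ ?_ ?_ ?_
    · rw [mukai_V, h.iso]
    · rw [mukai_V, h.pair]
    · rw [mukai_V, hee]
    · rw [mukai_V, k1]
    · rw [mukai_V, ht]
    · rw [mukai_V]; exact hts
    · rw [mukai_V]; exact hte
    all_goals simp [ha, hb, mukai_apply]
  · refine congrArg ρ (Subtype.ext (LinearMap.ext fun z => ?_))
    change extendEnd N z = wedgeEnd q (a 1) (a 2) z
    rw [extendEnd_apply, wedgeEnd_apply, hNe]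
    simp [ha, mukai_apply]
  · change Conj3 (repR q hq ρ (0, 1, 0) (0, 0, 1)) (repR q hq ρ (s', 0, 0) (s, 0, 0))
      (repR q hq ρ (e', 0, 0) (e, 0, 0))
    refine Conj3.chain hR (s, 0, 0) (s', 0, 0) (e, 0, 0) (e', 0, 0) (w, 0, 0) ?_ ?_ ?_ ?_ ?_ ?_
      ?_ ?_ ?_ ?_ ?_ ?_
    · rw [mukai_V, h.iso]
    · rw [mukai_V, h.pair]
    · rw [mukai_V, hee]
    · rw [mukai_V, k1]
    · rw [mukai_V, ht]
    · rw [mukai_V]; exact hts
    · rw [mukai_V]; exact hte
    all_goals simp [mukai_apply]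
  · intro i j
    rw [mukai_V]
    exact p1 _ (by omega) _ (by omega)
  · intro i j
    rw [mukai_V]
    exact p2 _ (by omega) _ (by omega)
  · intro i j
    rw [mukai_V, p3 _ (by omega) _ (by omega)]
    simp only [add_left_inj, Fin.ext_iff]
  · intro i
    rw [mukai_V]
    exact v1 _ (by omega)
  · intro i
    rw [mukai_V]
    exact v2 _ (by omega)
  · intro i
    refine hperp _ ?_ ?_
    · rw [← P0]
      exact p1 _ (by omega) _ (by omega)
    · rw [← P0', p3 _ (by omega) _ (by omega), if_neg (by omega)]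
  · intro i
    refine hperp _ ?_ ?_
    · rw [hq, ← P0, p3 _ (by omega) _ (by omega), if_neg (by omega)]
    · rw [← P0']
      exact p2 _ (by omega) _ (by omega)
  · refine hperp _ ?_ ?_
    · rw [← P0]
      exact v1 _ (by omega)
    · rw [← P0']
      exact v2 _ (by omega)
  · simp [ha, P1]
  · simp [hb, P1']

/-- Nagai's equality in all degrees follows from bounds for the jumps of the Hodge numbers. -/
theorem hodge_jump [FiniteDimensional ℂ V] [FiniteDimensional ℂ H] (h : IsHK q hq s s' ρ n)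
    (t : ℕ) (hV : 2 * t + 5 ≤ Module.finrank ℂ V) (N : Module.End ℂ V)
    (hN : ∀ x y, q (N x) y = - q x (N y))
    (hN2 : ∀ x, N (N x) = 0) (hr : Module.finrank ℂ (LinearMap.range N) = 2) (k : ℕ)
    (hk1 : 1 ≤ k) (hk : k ≤ n) (hf : nilp q hq ρ n N hN k ≠ k) :
    ∃ p r : ℕ, 1 ≤ p ∧ 3 * p + 2 ≤ r ∧ r ≤ n ∧ p + r ≤ 2 * k ∧ Even (p + r) ∧
      Module.finrank ℂ (piece q hq s s' ρ n (r - 2) p) + octa (Fin (t + 1)) (p + 1) ≤
        Module.finrank ℂ (piece q hq s s' ρ n r p) := by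
  obtain ⟨a, b, c, d, u, hH, hu, hua, hub, hD, hext, hdeg, hcj, hI, huc, hud, hc, hd, hup, hc0,
    hd0⟩ := exists_frame2 h t hV N hN hN2 hr
  have hR := repR_rep q hq ρ
  have hb := main_nilp h (by omega) N hN hN2 hr k hk1 hk
  have hlt : k < nilp q hq ρ n N hN k := lt_of_le_of_ne hb.1 (Ne.symm hf)
  -- a vector with a large power of `N`
  obtain ⟨m, ⟨v, hv, hv'⟩, hkm⟩ : ∃ m, (∃ x ∈ coh q hq ρ n k, (ρ (extend q N hN) ^ m) x ≠ 0) ∧
      k < m := by
    by_contra hcon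
    push Not at hcon
    have h3 : nilp q hq ρ n N hN k ≤ k := by
      refine csSup_le' fun i hi => ?_
      exact hcon i hi
    omega
  rw [coh, Module.End.mem_eigenspace_iff, hdeg] at hv
  rw [hext] at hv'
  obtain ⟨-, -, x₀, y₀, hT₀, hS₀⟩ := exists_TT hR hH u hu hua hub hD k hk m hkm v hv hv'
  -- the maximal first coordinate
  have hbound : ∀ A x y : ℕ, TT (repR q hq ρ) a b A x y → A ≤ n := by
    rintro A x y ⟨w, hw, e0, e1, -⟩
    obtain ⟨p, r, -, -, -, f0, -⟩ := hD.num _ _ w hw e0 e1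
    have g1 : ((p + r + 2 * A : ℕ) : ℂ) = ((2 * n : ℕ) : ℂ) := by
      push_cast
      linear_combination (-2) * f0
    have g2 : p + r + 2 * A = 2 * n := by exact_mod_cast g1
    omega
  classical
  set PP : ℕ → Prop := fun A => ∃ x y, TT (repR q hq ρ) a b A x y ∧ n + 1 ≤ A + x + y with hPP
  have hP0 : PP (n - k) := ⟨x₀, y₀, hT₀, hS₀⟩
  obtain ⟨A, hkA, hA, hmax⟩ : ∃ A, n - k ≤ A ∧ PP A ∧ ∀ A', A < A' → ¬ PP A' := by
    refine ⟨Nat.findGreatest PP n, Nat.le_findGreatest (Nat.sub_le n k) hP0,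
      Nat.findGreatest_spec (Nat.sub_le n k) hP0, fun A' hA' hP' => ?_⟩
    obtain ⟨x, y, hT, -⟩ := id hP'
    exact Nat.findGreatest_is_greatest hA' (hbound _ _ _ hT) hP'
  obtain ⟨x, y, hT, hS, hxy⟩ : ∃ x y, TT (repR q hq ρ) a b A x y ∧ n + 1 ≤ A + x + y ∧ y ≤ x := by
    obtain ⟨x, y, hT, hS⟩ := hA
    rcases le_total y x with h1 | h1
    · exact ⟨x, y, hT, hS, h1⟩
    · exact ⟨y, x, hT.swap12 hR hH, by omega, h1⟩
  have hxA : x ≤ A := by
    by_contra hcon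
    push Not at hcon
    refine hmax x hcon ⟨y, A, ?_, by omega⟩
    exact (hT.swap12 hR hH).swap02 hR hH
  have hTy := (hT.swap02 hR hH).swap12 hR hH
  have hyn := hbound _ _ _ hTy
  -- the sum of the first two coordinates
  have hAx : A + x < n := by
    have h1 := weight_bound hR hH u hu hua hub hD (n - y) (Nat.sub_le n y) (A : ℂ) (x : ℂ) (by
      have e1 : ((n - y : ℕ) : ℂ) - n = -(y : ℂ) := by
        rw [Nat.cast_sub hyn]
        ring
      rw [e1]
      exact hTy) (A + x) (by push_cast; ring) (by omega)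
    exact h1.1
  obtain ⟨w, hw, e0, e1, e2⟩ := hT
  obtain ⟨p, hp⟩ : ∃ p, p = n - A - x := ⟨_, rfl⟩
  obtain ⟨r, hrr⟩ : ∃ r, r = n - A + x := ⟨_, rfl⟩
  refine ⟨p, r, by omega, by omega, by omega, by omega, ⟨n - A, by omega⟩, ?_⟩
  have t2 : Two (mukai q) (a 0) (b 0) (a 1) (b 1) := by
    refine ⟨hH.aa _ _, hH.bb _ _, hH.aa _ _, hH.bb _ _, ?_, ?_, hH.aa _ _, ?_, ?_, hH.bb _ _⟩
    · rw [hH.ab]; simp
    · rw [hH.ab]; simp
    · rw [hH.ab]; simp
    · rw [hH.ba hR]; simp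
  -- the vector is in the kernel
  have hker : repR q hq ρ (b 1) (b 0) w = 0 := by
    by_contra hcon
    refine hmax (A + 1) (Nat.lt_succ_self A) ⟨x - 1, y, ⟨_, hcon, ?_, ?_, ?_⟩, by omega⟩
    · have := hR.cart_apply (a 0) (b 0) (b 1) (b 0) _ _ _ (hH.vb hR 1 0) (hH.vb hR 0 0) w e0
      rw [this]
      congr 1
      push_cast
      simp
      ring
    · have := hR.cart_apply (a 1) (b 1) (b 1) (b 0) _ _ _ (hH.vb hR 1 1) (hH.vb hR 0 1) w e1
      rw [this]
      congr 1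
      rw [Nat.cast_sub (by omega)]
      simp
      ring
    · have := hR.cart_apply (a 2) (b 2) (b 1) (b 0) _ _ _ (hH.vb hR 1 2) (hH.vb hR 0 2) w e2
      rw [this]
      congr 1
      simp
  have hSS : w ∈ SS (repR q hq ρ) (a 0) (b 0) (a 1) (b 1) (-(A : ℂ)) x :=
    (mem_SS _ _ _ _ _ _ _).2 ⟨e0, e1⟩
  have hj := jump_octa hR t2 (-(A : ℂ)) (x : ℂ) (fun m hm => by
      have h5 : ((x : ℕ) : ℂ) = ((m + A + 2 : ℕ) : ℂ) := by
        push_cast
        linear_combination hm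
      have h6 : x = m + A + 2 := by exact_mod_cast h5
      omega) hI u hu huc hud hc hd hup 0 (p + 1) y (by omega) w hw ⟨hSS, hker⟩ (by
        rw [hc0, hd0]
        exact e2)
  -- the Hodge numbers
  have hfr : ∀ (r' p' : ℕ) (z0 z1 : ℂ), ((r' : ℂ) + p') / 2 - n = z0 → ((r' : ℂ) - p') / 2 = z1 →
      Module.finrank ℂ (piece q hq s s' ρ n r' p') =
        Module.finrank ℂ (SS (repR q hq ρ) (a 0) (b 0) (a 1) (b 1) z0 z1) := by
    intro r' p' z0 z1 h1 h2
    rw [piece, h1, h2, hdeg]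
    exact hcj.finrank_eq z0 z1
  have hnA : ((n - A : ℕ) : ℂ) = (n : ℂ) - A := Nat.cast_sub (by omega)
  have cr : (r : ℂ) = (n : ℂ) - A + x := by
    rw [hrr, Nat.cast_add, hnA]
  have cp : (p : ℂ) = (n : ℂ) - A - x := by
    rw [hp, Nat.cast_sub (by omega), hnA]
  have cr2 : ((r - 2 : ℕ) : ℂ) = (n : ℂ) - A + x - 2 := by
    rw [Nat.cast_sub (by omega), cr]
    norm_num
  rw [hfr r p (-(A : ℂ)) x (by rw [cr, cp]; ring) (by rw [cr, cp]; ring),
    hfr (r - 2) p (-(A : ℂ) - 1) ((x : ℂ) - 1) (by rw [cr2, cp]; ring) (by rw [cr2, cp]; ring)]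
  omega

end Pool.Agent.MP_55e6de_ag
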