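import Mathlib
import Pool.Agent.Lib.MP_55e6de_ag.HnD

/-!
# MP_55e6de_ag NG, module HnG: integral points of octahedra

`octa (Fin k) m`, the number of `ν : Fin k → ℤ` with `∑ |ν i| ≤ m`, satisfies the inequality of the
Delannoy numbers (`octa_rec`), so it is at least `2 k ^ 2 + 2 k + 1` for `m = 2`.
-/

set_option autoImplicit false

noncomputable section

namespace Pool.Agent.MP_55e6de_ag

open Finset

/-- the integral points of the octahedron -/
abbrev Oc (k m : ℕ) : Type := {ν : Fin k → ℤ // ∑ i, |ν i| ≤ m}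

instance (k m : ℕ) : Finite (Oc k m) := by
  have hb : ∀ (ν : Oc k m) (i : Fin k), ν.1 i ∈ Set.Icc (-(m : ℤ)) m := by
    intro ν i
    have h1 : |ν.1 i| ≤ ∑ j, |ν.1 j| :=
      Finset.single_le_sum (f := fun j => |ν.1 j|) (fun j _ => abs_nonneg _) (mem_univ i)
    have h2 := h1.trans ν.2
    exact abs_le.1 h2
  refine Finite.of_injective
    (fun (ν : Oc k m) (i : Fin k) => (⟨ν.1 i, hb ν i⟩ : Set.Icc (-(m : ℤ)) (m : ℤ))) ?_
  intro ν ν' h
  refine Subtype.ext (funext fun i => ?_)
  exact congrArg Subtype.val (congrFun h i)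

lemma octa_zero_left (m : ℕ) : 1 ≤ octa (Fin 0) m := by
  have : Nonempty (Oc 0 m) := ⟨⟨fun _ => 0, by simp⟩⟩
  exact Nat.card_pos

lemma octa_zero_right (k : ℕ) : 1 ≤ octa (Fin k) 0 := by
  have : Nonempty (Oc k 0) := ⟨⟨fun _ => 0, by simp⟩⟩
  exact Nat.card_pos

/-- away from zero -/
private def away (z : ℤ) : ℤ := if 0 ≤ z then z + 1 else z - 1

private lemma away_abs (z : ℤ) : |away z| = |z| + 1 := by
  unfold away
  split_ifs with h
  · rw [abs_of_nonneg h, abs_of_nonneg (by omega)]
  · rw [abs_of_neg (by omega), abs_of_neg (by omega)]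
    ring

private lemma away_inj (z w : ℤ) (h : away z = away w) : z = w := by
  unfold away at h
  split_ifs at h <;> omega

private lemma away_ne (z : ℤ) : away z ≠ 0 ∧ away z ≠ -1 := by
  unfold away
  split_ifs <;> omega

lemma octa_rec (k m : ℕ) :
    octa (Fin k) (m + 1) + (octa (Fin (k + 1)) m + octa (Fin k) m) ≤
      octa (Fin (k + 1)) (m + 1) := by
  let f : Oc k (m + 1) ⊕ (Oc (k + 1) m ⊕ Oc k m) → Oc (k + 1) (m + 1) :=
    Sum.elim (fun ν => ⟨Fin.cons 0 ν.1, by
        rw [Fin.sum_univ_succ]
        simpa using ν.2⟩)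
      (Sum.elim (fun ν => ⟨Fin.cons (away (ν.1 0)) (fun i => ν.1 i.succ), by
        have h1 := ν.2
        rw [Fin.sum_univ_succ] at h1 ⊢
        simp only [Fin.cons_zero, Fin.cons_succ, away_abs]
        push_cast
        omega⟩)
      (fun ν => ⟨Fin.cons (-1) ν.1, by
        have h1 := ν.2
        rw [Fin.sum_univ_succ]
        simp only [Fin.cons_zero, Fin.cons_succ]
        push_cast
        have h2 : |(-1 : ℤ)| = 1 := by norm_num
        omega⟩))
  have hf : Function.Injective f := by
    rintro (ν | ν | ν) (τ | τ | τ) h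
    · have h1 := congrArg (fun w : Oc (k + 1) (m + 1) => fun i : Fin k => w.1 i.succ) h
      simp only [f, Sum.elim_inl, Fin.cons_succ] at h1
      exact congrArg Sum.inl (Subtype.ext h1)
    · exfalso
      have h1 := congrArg (fun w : Oc (k + 1) (m + 1) => w.1 0) h
      simp only [f, Sum.elim_inl, Sum.elim_inr, Fin.cons_zero] at h1
      exact (away_ne _).1 h1.symm
    · exfalso
      have h1 := congrArg (fun w : Oc (k + 1) (m + 1) => w.1 0) h
      simp only [f, Sum.elim_inl, Sum.elim_inr, Fin.cons_zero] at h1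
      omega
    · exfalso
      have h1 := congrArg (fun w : Oc (k + 1) (m + 1) => w.1 0) h
      simp only [f, Sum.elim_inl, Sum.elim_inr, Fin.cons_zero] at h1
      exact (away_ne _).1 h1
    · have h1 := congrArg (fun w : Oc (k + 1) (m + 1) => w.1 0) h
      have h2 := congrArg (fun w : Oc (k + 1) (m + 1) => fun i : Fin k => w.1 i.succ) h
      simp only [f, Sum.elim_inl, Sum.elim_inr, Fin.cons_zero] at h1
      simp only [f, Sum.elim_inl, Sum.elim_inr, Fin.cons_succ] at h2
      refine congrArg (fun z => Sum.inr (Sum.inl z)) (Subtype.ext (funext fun i => ?_))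
      refine Fin.cases (away_inj _ _ h1) (fun j => congrFun h2 j) i
    · exfalso
      have h1 := congrArg (fun w : Oc (k + 1) (m + 1) => w.1 0) h
      simp only [f, Sum.elim_inl, Sum.elim_inr, Fin.cons_zero] at h1
      exact (away_ne _).2 h1
    · exfalso
      have h1 := congrArg (fun w : Oc (k + 1) (m + 1) => w.1 0) h
      simp only [f, Sum.elim_inl, Sum.elim_inr, Fin.cons_zero] at h1
      omega
    · exfalso
      have h1 := congrArg (fun w : Oc (k + 1) (m + 1) => w.1 0) h
      simp only [f, Sum.elim_inl, Sum.elim_inr, Fin.cons_zero] at h1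
      exact (away_ne _).2 h1.symm
    · have h1 := congrArg (fun w : Oc (k + 1) (m + 1) => fun i : Fin k => w.1 i.succ) h
      simp only [f, Sum.elim_inr, Fin.cons_succ] at h1
      exact congrArg (fun z => Sum.inr (Sum.inr z)) (Subtype.ext h1)
  have h1 := Nat.card_le_card_of_injective f hf
  rw [Nat.card_sum, Nat.card_sum] at h1
  exact h1

lemma octa_one (k : ℕ) : 2 * k + 1 ≤ octa (Fin k) 1 := by
  induction k with
  | zero => exact octa_zero_left 1
  | succ k ih =>
    have h1 := octa_rec k 0
    have h2 := octa_zero_right k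
    have h3 := octa_zero_right (k + 1)
    rw [zero_add] at h1
    omega

lemma octa_two (k : ℕ) : 2 * k * (k + 1) + 1 ≤ octa (Fin k) 2 := by
  induction k with
  | zero => exact octa_zero_left 2
  | succ k ih =>
    have h1 := octa_rec k 1
    have h2 := octa_one k
    have h3 := octa_one (k + 1)
    have e : 2 * (k + 1) * (k + 1 + 1) + 1 =
        (2 * k * (k + 1) + 1) + ((2 * (k + 1) + 1) + (2 * k + 1)) := by ring
    rw [e]
    refine le_trans ?_ h1
    exact Nat.add_le_add ih (Nat.add_le_add h3 h2)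

end Pool.Agent.MP_55e6de_ag
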